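import Mathlib

/-!
Trees rooted at an end: a parent function and a level function.  The confluence kernel.
-/

namespace Pool.Agent.Helper68.BB

open Set Filter Topology

/-- the level normalisation `E : ℤ → (0,1)` -/
noncomputable def E (n : ℤ) : ℝ := (1 + max (n : ℝ) 0) / ((1 + max (n : ℝ) 0) + (1 + max (-(n : ℝ)) 0))

lemma E_pos (n : ℤ) : 0 < E n := by
  unfold E
  have h1 : 0 ≤ max (n : ℝ) 0 := le_max_right _ _
  have h2 : 0 ≤ max (-(n : ℝ)) 0 := le_max_right _ _
  positivity

lemma E_lt_one (n : ℤ) : E n < 1 := by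
  unfold E
  have h1 : 0 ≤ max (n : ℝ) 0 := le_max_right _ _
  have h2 : 0 ≤ max (-(n : ℝ)) 0 := le_max_right _ _
  rw [div_lt_one (by positivity)]
  linarith

/-- `h = E / (1 - E)` -/
lemma E_div (n : ℤ) : E n / (1 - E n) = (1 + max (n : ℝ) 0) / (1 + max (-(n : ℝ)) 0) := by
  unfold E
  have h1 : 0 ≤ max (n : ℝ) 0 := le_max_right _ _
  have h2 : 0 ≤ max (-(n : ℝ)) 0 := le_max_right _ _
  have h3 : (1 + max (n : ℝ) 0) + (1 + max (-(n : ℝ)) 0) ≠ 0 := by positivity
  have h4 : 1 + max (-(n : ℝ)) 0 ≠ 0 := by positivity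
  rw [one_sub_div h3, div_div_div_cancel_right₀ h3]
  congr 1
  ring

lemma hE_nonneg {n : ℤ} (hn : 0 ≤ n) : E n / (1 - E n) = 1 + n := by
  have hn' : (0 : ℝ) ≤ n := by exact_mod_cast hn
  have h1 : max (n : ℝ) 0 = n := max_eq_left hn'
  have h2 : max (-(n : ℝ)) 0 = 0 := max_eq_right (by linarith)
  rw [E_div, h1, h2]; simp

lemma hE_nonpos {n : ℤ} (hn : n ≤ 0) : E n / (1 - E n) = 1 / (1 - n) := by
  have hn' : (n : ℝ) ≤ 0 := by exact_mod_cast hn
  have h1 : max (n : ℝ) 0 = 0 := max_eq_right hn'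
  have h2 : max (-(n : ℝ)) 0 = -n := max_eq_left (by linarith)
  rw [E_div, h1, h2]; ring_nf

lemma h_strictMono : StrictMono (fun n : ℤ => E n / (1 - E n)) := by
  apply strictMono_int_of_lt_succ
  intro n
  rcases le_or_gt 0 n with hn | hn
  · have h1 : (0 : ℤ) ≤ n + 1 := by omega
    simp only [hE_nonneg hn, hE_nonneg h1]
    push_cast
    linarith
  · have h1 : n + 1 ≤ 0 := by omega
    have h2 : ((n : ℝ) + 1) ≤ 0 := by exact_mod_cast h1
    simp only [hE_nonpos hn.le, hE_nonpos h1]
    push_cast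
    apply one_div_lt_one_div_of_lt
    · linarith
    · linarith

lemma h_succ_le (n : ℤ) : E (n + 1) / (1 - E (n + 1)) ≤ E n / (1 - E n) + 1 := by
  rcases le_or_gt 0 n with hn | hn
  · have h1 : (0 : ℤ) ≤ n + 1 := by omega
    simp only [hE_nonneg hn, hE_nonneg h1]
    push_cast
    linarith
  · have h1 : n + 1 ≤ 0 := by omega
    have h2 : ((n : ℝ) + 1) ≤ 0 := by exact_mod_cast h1
    simp only [hE_nonpos hn.le, hE_nonpos h1]
    push_cast
    have h3 : 1 / (1 - ((n : ℝ) + 1)) ≤ 1 := by
      rw [div_le_one (by linarith)]; linarith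
    have h4 : 0 < 1 / (1 - (n : ℝ)) := by
      apply one_div_pos.2; linarith
    linarith

lemma E_strictMono : StrictMono E := by
  intro m n hmn
  have h := h_strictMono hmn
  simp only at h
  have h1 := E_lt_one m
  have h2 := E_lt_one n
  rw [div_lt_div_iff₀ (by linarith) (by linarith)] at h
  nlinarith

lemma E_le {m n : ℤ} : E m ≤ E n ↔ m ≤ n := E_strictMono.le_iff_le
lemma E_lt {m n : ℤ} : E m < E n ↔ m < n := E_strictMono.lt_iff_lt
lemma E_inj {m n : ℤ} : E m = E n ↔ m = n := E_strictMono.injective.eq_iff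

lemma exists_E_lt {ε : ℝ} (hε : 0 < ε) : ∃ n : ℤ, E n < ε := by
  obtain ⟨k, hk⟩ := exists_nat_gt (1 / ε)
  refine ⟨-(k : ℤ), ?_⟩
  have hk0 : (0 : ℝ) ≤ k := by positivity
  have h1 : E (-(k : ℤ)) = 1 / (2 + k) := by
    unfold E
    push_cast
    rw [max_eq_right (by linarith), neg_neg, max_eq_left hk0]
    congr 1
    · ring
    · ring
  rw [h1]
  rw [div_lt_iff₀ hε] at hk
  rw [div_lt_iff₀ (by positivity)]
  nlinarith

lemma exists_lt_E {s : ℝ} (hs : s < 1) : ∃ n : ℤ, s < E n := by
  obtain ⟨k, hk⟩ := exists_nat_gt (1 / (1 - s))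
  refine ⟨(k : ℤ), ?_⟩
  have hk0 : (0 : ℝ) ≤ k := by positivity
  have h1 : E (k : ℤ) = 1 - 1 / (2 + k) := by
    unfold E
    push_cast
    rw [max_eq_left hk0, max_eq_right (by linarith)]
    field_simp
    ring
  rw [h1]
  rw [div_lt_iff₀ (by linarith)] at hk
  have h2 : 1 / (2 + (k : ℝ)) < 1 - s := by
    rw [div_lt_iff₀ (by positivity)]
    nlinarith
  linarith

/-- A tree rooted at an end: parent function `p`, integer levels `b`, a base vertex `o`. -/
structure RTree (V : Type) where
  p : V → V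
  b : V → ℤ
  b_p : ∀ v, b (p v) = b v - 1
  o : V
  dir : ∀ v w, ∃ m n : ℕ, p^[m] v = p^[n] w
  fin : ∀ v, {c | p c = v}.Finite

namespace RTree

variable {V : Type} (T : RTree V)

lemma b_iter (n : ℕ) (v : V) : T.b (T.p^[n] v) = T.b v - n := by
  induction n with
  | zero => simp
  | succ n ih => rw [Function.iterate_succ_apply', T.b_p, ih]; push_cast; ring

/-- the ancestor of `v` at level `n` (for `n ≤ b v`) -/
def anc (v : V) (n : ℤ) : V := T.p^[(T.b v - n).toNat] v

lemma anc_self (v : V) : T.anc v (T.b v) = v := by simp [anc]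

lemma anc_of_ge {v : V} {n : ℤ} (h : T.b v ≤ n) : T.anc v n = v := by
  have : (T.b v - n).toNat = 0 := by omega
  simp [anc, this]

lemma b_anc {v : V} {n : ℤ} (h : n ≤ T.b v) : T.b (T.anc v n) = n := by
  rw [anc, b_iter]; omega

lemma anc_anc {v : V} {m n : ℤ} (h1 : m ≤ n) (h2 : n ≤ T.b v) :
    T.anc (T.anc v n) m = T.anc v m := by
  rw [anc, b_anc T h2]
  unfold anc
  rw [← Function.iterate_add_apply]
  congr 1
  omega

lemma p_anc {v : V} {n : ℤ} (h : n ≤ T.b v) : T.p (T.anc v n) = T.anc v (n - 1) := by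
  unfold anc
  rw [← Function.iterate_succ_apply' T.p]
  congr 1
  omega

lemma anc_p {v : V} {n : ℤ} (h : n ≤ T.b v - 1) : T.anc (T.p v) n = T.anc v n := by
  have h1 : T.p v = T.anc v (T.b v - 1) := by
    have := T.p_anc (v := v) (n := T.b v) le_rfl
    rwa [anc_self] at this
  rw [h1, anc_anc T h (by omega)]

lemma anc_pred (v : V) : T.anc v (T.b v - 1) = T.p v := by
  have := T.p_anc (v := v) (n := T.b v) le_rfl
  rw [anc_self] at this
  exact this.symm

lemma exists_common (v w : V) : ∃ k : ℕ, T.anc v (min (T.b v) (T.b w) - k) =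
    T.anc w (min (T.b v) (T.b w) - k) := by
  obtain ⟨m, n, h⟩ := T.dir v w
  have hb : T.b v - m = T.b w - n := by
    rw [← b_iter, ← b_iter, h]
  -- the level of the common vertex
  refine ⟨(min (T.b v) (T.b w) - (T.b v - m)).toNat, ?_⟩
  have h1 : T.b v - m ≤ min (T.b v) (T.b w) := by
    rw [le_min_iff]; constructor <;> omega
  have h2 : min (T.b v) (T.b w) - ((min (T.b v) (T.b w) - (T.b v - m)).toNat : ℤ) =
      T.b v - m := by omega
  rw [h2]
  have h3 : T.anc v (T.b v - m) = T.p^[m] v := by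
    unfold anc; congr 1; omega
  have h4 : T.anc w (T.b v - m) = T.p^[n] w := by
    unfold anc; congr 1; omega
  rw [h3, h4, h]

open Classical in
/-- the level of the meet of two vertices -/
noncomputable def m (v w : V) : ℤ := min (T.b v) (T.b w) - (Nat.find (T.exists_common v w) : ℕ)

lemma m_le_left (v w : V) : T.m v w ≤ T.b v := by
  unfold m
  have := min_le_left (T.b v) (T.b w)
  omega

lemma m_le_right (v w : V) : T.m v w ≤ T.b w := by
  unfold m
  have := min_le_right (T.b v) (T.b w)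
  omega

lemma anc_m (v w : V) : T.anc v (T.m v w) = T.anc w (T.m v w) := by
  classical
  exact Nat.find_spec (T.exists_common v w)

lemma le_m_iff {v w : V} {n : ℤ} (hv : n ≤ T.b v) (hw : n ≤ T.b w) :
    n ≤ T.m v w ↔ T.anc v n = T.anc w n := by
  classical
  constructor
  · intro h
    rw [← anc_anc T h (T.m_le_left v w), T.anc_m, anc_anc T h (T.m_le_right v w)]
  · intro h
    by_contra hcon
    push Not at hcon
    have h1 : n ≤ min (T.b v) (T.b w) := le_min hv hw
    have h2 : (min (T.b v) (T.b w) - n).toNat < Nat.find (T.exists_common v w) := by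
      unfold m at hcon
      omega
    apply Nat.find_min (T.exists_common v w) h2
    have h3 : min (T.b v) (T.b w) - ((min (T.b v) (T.b w) - n).toNat : ℤ) = n := by omega
    rw [h3]
    exact h

lemma m_comm (v w : V) : T.m v w = T.m w v := by
  apply le_antisymm
  · rw [T.le_m_iff (T.m_le_right v w) (T.m_le_left v w)]
    exact (T.anc_m v w).symm
  · rw [T.le_m_iff (T.m_le_right w v) (T.m_le_left w v)]
    exact (T.anc_m w v).symm

lemma m_self (v : V) : T.m v v = T.b v := by
  apply le_antisymm (T.m_le_left v v)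
  rw [T.le_m_iff le_rfl le_rfl]

lemma min_m_le (u v w : V) : min (T.m u v) (T.m v w) ≤ T.m u w := by
  set n := min (T.m u v) (T.m v w) with hn
  have h1 : n ≤ T.m u v := min_le_left _ _
  have h2 : n ≤ T.m v w := min_le_right _ _
  have hu : n ≤ T.b u := h1.trans (T.m_le_left u v)
  have hv : n ≤ T.b v := h1.trans (T.m_le_right u v)
  have hw : n ≤ T.b w := h2.trans (T.m_le_right v w)
  rw [T.le_m_iff hu hw]
  rw [(T.le_m_iff hu hv).1 h1, (T.le_m_iff hv hw).1 h2]

/-- the confluence kernel -/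
noncomputable def c (v w : V) : ℝ := E (T.m v w)

lemma c_pos (v w : V) : 0 < T.c v w := E_pos _
lemma c_lt_one (v w : V) : T.c v w < 1 := E_lt_one _
lemma c_comm (v w : V) : T.c v w = T.c w v := by rw [c, c, m_comm]
lemma c_self (v : V) : T.c v v = E (T.b v) := by rw [c, m_self]
lemma c_le_right (v w : V) : T.c v w ≤ T.c w w := by
  rw [c_self, c, E_le]; exact T.m_le_right v w
lemma c_le_left (v w : V) : T.c v w ≤ T.c v v := by
  rw [c_self, c, E_le]; exact T.m_le_left v w

lemma min_c_le (u v w : V) : min (T.c u v) (T.c v w) ≤ T.c u w := by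
  unfold c
  rw [← E_strictMono.monotone.map_min, E_le]
  exact T.min_m_le u v w

lemma m_anc {v g : V} {n : ℤ} (h : n ≤ T.b v) : T.m (T.anc v n) g = min n (T.m v g) := by
  apply le_antisymm
  · apply le_min
    · exact (T.m_le_left _ _).trans_eq (T.b_anc h)
    · have h1 := T.m_le_left (T.anc v n) g
      rw [T.b_anc h] at h1
      have h2 := T.m_le_right (T.anc v n) g
      rw [T.le_m_iff (h1.trans h) h2, ← anc_anc T h1 h]
      exact T.anc_m _ _
  · set k := min n (T.m v g) with hk
    have h1 : k ≤ n := min_le_left _ _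
    have h2 : k ≤ T.m v g := min_le_right _ _
    have h3 : k ≤ T.b g := h2.trans (T.m_le_right v g)
    rw [T.le_m_iff (by rw [T.b_anc h]; exact h1) h3, anc_anc T h1 h]
    exact (T.le_m_iff (h1.trans h) h3).1 h2

lemma m_p (v g : V) : T.m (T.p v) g = min (T.b v - 1) (T.m v g) := by
  rw [← anc_pred, T.m_anc (by omega)]

/-- descendants of a vertex at a given level form a finite set -/
lemma finite_desc (v : V) (n : ℕ) : {w | T.p^[n] w = v}.Finite := by
  induction n generalizing v with
  | zero => simp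
  | succ n ih =>
    have : {w | T.p^[n+1] w = v} = ⋃ c ∈ {c | T.p c = v}, {w | T.p^[n] w = c} := by
      ext w
      simp only [mem_ofPred_eq, mem_iUnion, exists_prop]
      constructor
      · intro h
        exact ⟨T.p^[n] w, by rw [← Function.iterate_succ_apply' T.p]; exact h, rfl⟩
      · rintro ⟨c, hc, hw⟩
        rw [Function.iterate_succ_apply', hw, hc]
    rw [this]
    exact (T.fin v).biUnion (fun c _ => ih c)

/-- for bounded level and confluence with `g` bounded below there are finitely many vertices -/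
lemma finite_le (g : V) (l u : ℤ) : {w | l ≤ T.m w g ∧ T.b w ≤ u}.Finite := by
  by_cases hl : l ≤ T.b g
  · have : {w | l ≤ T.m w g ∧ T.b w ≤ u} ⊆
        ⋃ n ∈ {n : ℕ | n ≤ (u - l).toNat}, {w | T.p^[n] w = T.anc g l} := by
      rintro w ⟨h1, h2⟩
      simp only [mem_ofPred_eq, mem_iUnion, exists_prop]
      have h3 : l ≤ T.b w := h1.trans (T.m_le_left w g)
      refine ⟨(T.b w - l).toNat, by omega, ?_⟩
      exact (T.le_m_iff h3 hl).1 h1
    refine Set.Finite.subset ?_ this
    exact (Set.finite_le_nat _).biUnion (fun n _ => T.finite_desc _ n)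
  · refine (Set.finite_empty).subset ?_
    rintro w ⟨h1, -⟩
    exact hl (h1.trans (T.m_le_right w g))

end RTree

end Pool.Agent.Helper68.BB
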