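import Mathlib
import Pool.Agent.Helper68.BB.RTree

/-!
The compactification of a tree rooted at an end.
-/

namespace Pool.Agent.Helper68.BB

open Set Filter Topology

namespace RTree

variable {V : Type} (T : RTree V)

/-- The compactified tree: a point `x` is given by the levels `x g` of its meets with the
vertices `g`. -/
def That : Set (V → ℝ) := {x | (∀ g, 0 ≤ x g ∧ x g ≤ T.c g g) ∧
  ∀ g g', min (x g) (x g') ≤ T.c g g' ∧ min (x g) (T.c g g') ≤ x g'}

lemma isClosed_That : IsClosed T.That := by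
  have h : ∀ g : V, Continuous (fun x : V → ℝ => x g) := fun g => continuous_apply g
  have e : T.That = (⋂ g, {x | 0 ≤ x g ∧ x g ≤ T.c g g}) ∩
      ⋂ g, ⋂ g', {x | min (x g) (x g') ≤ T.c g g' ∧ min (x g) (T.c g g') ≤ x g'} := by
    ext x
    simp only [That, mem_inter_iff, mem_iInter, mem_ofPred_eq]
  rw [e]
  apply IsClosed.inter
  · apply isClosed_iInter
    intro g
    exact (isClosed_le continuous_const (h g)).inter (isClosed_le (h g) continuous_const)
  · apply isClosed_iInter
    intro g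
    apply isClosed_iInter
    intro g'
    exact (isClosed_le ((h g).min (h g')) continuous_const).inter
      (isClosed_le ((h g).min continuous_const) (h g'))

lemma isCompact_That : IsCompact T.That := by
  have h1 : IsCompact (Set.pi univ fun _ : V => Icc (0 : ℝ) 1) :=
    isCompact_univ_pi fun _ => isCompact_Icc
  apply h1.of_isClosed_subset T.isClosed_That
  intro x hx g _
  exact ⟨(hx.1 g).1, (hx.1 g).2.trans (T.c_lt_one g g).le⟩

/-- the compactified tree as a type -/
abbrev TH : Type := ↥T.That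

instance : CompactSpace T.TH := isCompact_iff_compactSpace.1 T.isCompact_That

variable {T}

lemma nonneg (x : T.TH) (g : V) : 0 ≤ x.1 g := (x.2.1 g).1
lemma le_c (x : T.TH) (g : V) : x.1 g ≤ T.c g g := (x.2.1 g).2
lemma lt_one (x : T.TH) (g : V) : x.1 g < 1 := (le_c x g).trans_lt (T.c_lt_one g g)
lemma min_le_c (x : T.TH) (g g' : V) : min (x.1 g) (x.1 g') ≤ T.c g g' := (x.2.2 g g').1
lemma min_c_le' (x : T.TH) (g g' : V) : min (x.1 g) (T.c g g') ≤ x.1 g' := (x.2.2 g g').2

/-- the height of a point -/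
noncomputable def Ht (x : T.TH) : ℝ := ⨆ g, x.1 g

lemma bdd (x : T.TH) : BddAbove (range x.1) := ⟨1, by
  rintro _ ⟨g, rfl⟩
  exact (lt_one x g).le⟩

lemma le_Ht (x : T.TH) (g : V) : x.1 g ≤ Ht x := le_ciSup (bdd x) g

lemma Ht_nonneg (x : T.TH) : 0 ≤ Ht x := (nonneg x T.o).trans (le_Ht x T.o)

lemma Ht_le_one (x : T.TH) : Ht x ≤ 1 := by
  have : Nonempty V := ⟨T.o⟩
  exact ciSup_le fun g => (lt_one x g).le

lemma exists_lt_of_lt_Ht {x : T.TH} {a : ℝ} (h : a < Ht x) : ∃ g, a < x.1 g := by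
  have : Nonempty V := ⟨T.o⟩
  exact exists_lt_of_lt_ciSup h

lemma Ht_le {x : T.TH} {a : ℝ} (h : ∀ g, x.1 g ≤ a) : Ht x ≤ a := by
  have : Nonempty V := ⟨T.o⟩
  exact ciSup_le h

/-- truncation at level `max ℓ 0` -/
noncomputable def trunc (x : T.TH) (ℓ : ℝ) : T.TH := ⟨fun g => min (x.1 g) (max ℓ 0), by
  have h0 : 0 ≤ max ℓ 0 := le_max_right _ _
  refine ⟨fun g => ⟨le_min (nonneg x g) h0, (min_le_left _ _).trans (le_c x g)⟩, fun g g' => ?_⟩
  constructor
  · exact (min_le_min (min_le_left _ _) (min_le_left _ _)).trans (min_le_c x g g')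
  · apply le_min
    · exact (min_le_min (min_le_left _ _) le_rfl).trans (min_c_le' x g g')
    · exact (min_le_left _ _).trans (min_le_right _ _)⟩

lemma trunc_apply (x : T.TH) (ℓ : ℝ) (g : V) : (trunc x ℓ).1 g = min (x.1 g) (max ℓ 0) := rfl

lemma trunc_apply' (x : T.TH) {ℓ : ℝ} (hℓ : 0 ≤ ℓ) (g : V) :
    (trunc x ℓ).1 g = min (x.1 g) ℓ := by rw [trunc_apply, max_eq_left hℓ]

lemma Ht_trunc (x : T.TH) {ℓ : ℝ} (hℓ : 0 ≤ ℓ) : Ht (trunc x ℓ) = min (Ht x) ℓ := by
  apply le_antisymm
  · apply Ht_le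
    intro g
    rw [trunc_apply' x hℓ]
    exact min_le_min (le_Ht x g) le_rfl
  · apply le_of_forall_lt
    intro a ha
    rw [lt_min_iff] at ha
    obtain ⟨g, hg⟩ := exists_lt_of_lt_Ht ha.1
    refine lt_of_lt_of_le ?_ (le_Ht _ g)
    rw [trunc_apply' x hℓ]
    exact lt_min hg ha.2

lemma eq_trunc_of_le {u x : T.TH} (h : ∀ g, u.1 g ≤ x.1 g) : u = trunc x (Ht u) := by
  ext g
  rw [trunc_apply' x (Ht_nonneg u)]
  apply le_antisymm (le_min (h g) (le_Ht u g))
  by_contra hcon
  push Not at hcon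
  rw [lt_min_iff] at hcon
  obtain ⟨g', hg'⟩ := exists_lt_of_lt_Ht hcon.2
  have h1 : min (x.1 g) (u.1 g') ≤ T.c g g' :=
    (min_le_min le_rfl (h g')).trans (min_le_c x g g')
  have h2 := min_c_le' u g' g
  rw [T.c_comm] at h2
  have h3 : u.1 g < min (u.1 g') (T.c g g') := lt_min hg' (lt_of_lt_of_le (lt_min hcon.1 hg') h1)
  linarith

/-- the join of two points below a common point -/
lemma max_mem {u v x : T.TH} (hu : ∀ g, u.1 g ≤ x.1 g) (hv : ∀ g, v.1 g ≤ x.1 g) :
    (fun g => max (u.1 g) (v.1 g)) ∈ T.That := by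
  have e : (fun g => max (u.1 g) (v.1 g)) = (trunc x (max (Ht u) (Ht v))).1 := by
    ext g
    rw [trunc_apply' x (le_max_of_le_left (Ht_nonneg u)), min_max_distrib_left]
    have h1 : u.1 g = (trunc x (Ht u)).1 g := congrArg (fun z : T.TH => z.1 g) (eq_trunc_of_le hu)
    have h2 : v.1 g = (trunc x (Ht v)).1 g := congrArg (fun z : T.TH => z.1 g) (eq_trunc_of_le hv)
    rw [trunc_apply' x (Ht_nonneg u)] at h1
    rw [trunc_apply' x (Ht_nonneg v)] at h2
    rw [← h1, ← h2]
  rw [e]
  exact (trunc x _).2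

/-- the meet -/
noncomputable def meet (x y : T.TH) : T.TH := ⟨fun g => min (x.1 g) (y.1 g), by
  refine ⟨fun g => ⟨le_min (nonneg x g) (nonneg y g), (min_le_left _ _).trans (le_c x g)⟩,
    fun g g' => ?_⟩
  constructor
  · exact (min_le_min (min_le_left _ _) (min_le_left _ _)).trans (min_le_c x g g')
  · apply le_min
    · exact (min_le_min (min_le_left _ _) le_rfl).trans (min_c_le' x g g')
    · exact (min_le_min (min_le_right _ _) le_rfl).trans (min_c_le' y g g')⟩

variable (T) in
/-- vertices -/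
noncomputable def vt (k : V) : T.TH := ⟨fun g => T.c k g, by
  refine ⟨fun g => ⟨(T.c_pos k g).le, T.c_le_right k g⟩, fun g g' => ?_⟩
  constructor
  · show min (T.c k g) (T.c k g') ≤ T.c g g'
    rw [T.c_comm k g]; exact T.min_c_le g k g'
  · exact T.min_c_le k g g'⟩

lemma vt_apply (k g : V) : (vt T k).1 g = T.c k g := rfl

lemma Ht_vt (k : V) : Ht (vt T k) = E (T.b k) := by
  apply le_antisymm
  · apply Ht_le
    intro g
    rw [vt_apply, ← T.c_self]
    exact T.c_le_left k g
  · have := le_Ht (vt T k) k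
    rwa [vt_apply, T.c_self] at this

lemma exists_level {a : ℝ} (h0 : 0 < a) (h1 : a < 1) : ∃ n : ℤ, E (n - 1) < a ∧ a ≤ E n := by
  classical
  obtain ⟨l, hl⟩ := exists_E_lt h0
  obtain ⟨u, hu⟩ := exists_lt_E h1
  have hlu : l < u := E_lt.1 (hl.trans hu)
  -- least `k : ℕ` with `a ≤ E (l + k)`
  have hex : ∃ k : ℕ, a ≤ E (l + k) := ⟨(u - l).toNat, by
    have : l + ((u - l).toNat : ℤ) = u := by omega
    rw [this]; exact hu.le⟩
  have hk := Nat.find_spec hex
  have hk0 : Nat.find hex ≠ 0 := by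
    intro h
    rw [h] at hk
    simp at hk
    linarith
  refine ⟨l + Nat.find hex, ?_, hk⟩
  have := Nat.find_min hex (Nat.sub_one_lt hk0)
  push Not at this
  refine lt_of_le_of_lt (le_of_eq ?_) this
  congr 1
  omega

/-- if `x` has a vertex value above level `n - 1` then it passes (partly) along the edge of a
vertex `k` of level `n` -/
lemma exists_anc {x : T.TH} {g : V} {n : ℤ} (h : E (n - 1) < x.1 g) :
    n ≤ T.b g ∧ min (x.1 g) (E n) ≤ x.1 (T.anc g n) := by
  have h1 : E (n - 1) < E (T.b g) := by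
    rw [← T.c_self]; exact h.trans_le (le_c x g)
  rw [E_lt] at h1
  have h2 : n ≤ T.b g := by omega
  refine ⟨h2, ?_⟩
  have h3 := min_c_le' x g (T.anc g n)
  have h4 : T.c g (T.anc g n) = E n := by
    rw [T.c_comm, c, T.m_anc h2, T.m_self, min_eq_left h2]
  rwa [h4] at h3

lemma exists_edge {x : T.TH} (h0 : 0 < Ht x) (h1 : Ht x < 1) :
    ∃ k, E (T.b k - 1) < Ht x ∧ Ht x ≤ E (T.b k) ∧ x = trunc (vt T k) (Ht x) := by
  obtain ⟨n, hn1, hn2⟩ := exists_level h0 h1
  obtain ⟨g, hg⟩ := exists_lt_of_lt_Ht hn1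
  obtain ⟨hb, hx⟩ := exists_anc hg
  set k := T.anc g n with hk
  have hbk : T.b k = n := T.b_anc hb
  have hxk : E (n - 1) < x.1 k := by
    refine lt_of_lt_of_le (lt_min hg ?_) hx
    rw [E_lt]; omega
  refine ⟨k, by rw [hbk]; exact hn1, by rw [hbk]; exact hn2, ?_⟩
  apply eq_trunc_of_le
  intro g'
  rw [vt_apply]
  have h2 := min_le_c x k g'
  rcases le_total (x.1 g') (x.1 k) with h | h
  · rwa [min_eq_right h] at h2
  · rw [min_eq_left h] at h2
    have h3 : E (n - 1) < E (T.m k g') := lt_of_lt_of_le hxk h2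
    rw [E_lt] at h3
    have h4 : T.c k g' = E n := by
      unfold c
      congr 1
      have := T.m_le_left k g'
      omega
    rw [h4]
    exact (le_Ht x g').trans hn2

/-- a point with base coordinate `0` is the root end -/
lemma eq_zero_of_o {x : T.TH} (h : x.1 T.o = 0) (g : V) : x.1 g = 0 := by
  have h1 := min_c_le' x g T.o
  rw [h] at h1
  have h2 := T.c_pos g T.o
  have h3 := nonneg x g
  rcases min_le_iff.1 h1 with h4 | h4
  · linarith
  · linarith

lemma Ht_pos {x : T.TH} (h : 0 < x.1 T.o) : 0 < Ht x := h.trans_le (le_Ht x _)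

lemma o_pos_of_Ht {x : T.TH} (h : 0 < Ht x) : 0 < x.1 T.o := by
  rcases (nonneg x T.o).eq_or_lt with h1 | h1
  · exfalso
    have : Ht x ≤ 0 := Ht_le fun g => (eq_zero_of_o h1.symm g).le
    linarith
  · exact h1

lemma continuousAt_Ht {x₀ : T.TH} (h0 : 0 < x₀.1 T.o) : ContinuousAt (Ht (T := T)) x₀ := by
  have happ : ∀ g : V, Continuous (fun x : T.TH => x.1 g) := fun g =>
    (continuous_apply g).comp continuous_subtype_val
  rw [ContinuousAt, tendsto_order]
  constructor
  · intro a ha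
    obtain ⟨g, hg⟩ := exists_lt_of_lt_Ht ha
    filter_upwards [(isOpen_lt continuous_const (happ g)).mem_nhds hg] with x hx
    exact lt_of_lt_of_le hx (le_Ht x g)
  · intro a ha
    rcases (Ht_le_one x₀).eq_or_lt with h1 | h1
    · filter_upwards with x
      exact (Ht_le_one x).trans_lt (by rw [← h1]; exact ha)
    · -- choose the level
      obtain ⟨n, hn1, hn2⟩ : ∃ n : ℤ, E (n - 1) ≤ Ht x₀ ∧ Ht x₀ < E n := by
        obtain ⟨n, hn1, hn2⟩ := exists_level (Ht_pos h0) h1
        rcases hn2.eq_or_lt with h | h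
        · refine ⟨n + 1, ?_, ?_⟩
          · rw [h]; simp
          · rw [h, E_lt]; omega
        · exact ⟨n, hn1.le, h⟩
      set s := (Ht x₀ + min a (E n)) / 2 with hs
      have hs0 : Ht x₀ < min a (E n) := lt_min ha hn2
      have hs1 : Ht x₀ < s := by rw [hs]; linarith
      have hs2 : s < a := by
        have := min_le_left a (E n)
        rw [hs]; linarith
      have hs3 : s < E n := by
        have := min_le_right a (E n)
        rw [hs]; linarith
      have hspos : 0 < s := lt_of_le_of_lt (Ht_nonneg _) hs1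
      obtain ⟨l, hl⟩ := exists_E_lt (lt_min hspos (half_pos h0))
      have hfin := T.finite_le T.o l n
      have hopen : IsOpen ({x : T.TH | x₀.1 T.o / 2 < x.1 T.o} ∩
          ⋂ v ∈ {w | l ≤ T.m w T.o ∧ T.b w ≤ n}, {x : T.TH | x.1 v < s}) := by
        apply (isOpen_lt continuous_const (happ _)).inter
        apply hfin.isOpen_biInter
        intro v _
        exact isOpen_lt (happ v) continuous_const
      have hmem : x₀ ∈ ({x : T.TH | x₀.1 T.o / 2 < x.1 T.o} ∩
          ⋂ v ∈ {w | l ≤ T.m w T.o ∧ T.b w ≤ n}, {x : T.TH | x.1 v < s}) := by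
        refine ⟨half_lt_self h0, mem_iInter₂.2 fun v _ => ?_⟩
        exact lt_of_le_of_lt (le_Ht x₀ v) hs1
      filter_upwards [hopen.mem_nhds hmem] with x hx
      refine lt_of_le_of_lt ?_ hs2
      by_contra hcon
      push Not at hcon
      obtain ⟨g, hg⟩ := exists_lt_of_lt_Ht hcon
      obtain ⟨hb, hx2⟩ := exists_anc (lt_of_le_of_lt (hn1.trans hs1.le) hg)
      have hv : s < x.1 (T.anc g n) := lt_of_lt_of_le (lt_min hg hs3) hx2
      have hvS : T.anc g n ∈ {w | l ≤ T.m w T.o ∧ T.b w ≤ n} := by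
        refine ⟨?_, (T.b_anc hb).le⟩
        have h2 := min_le_c x (T.anc g n) T.o
        have h3 : E l < E (T.m (T.anc g n) T.o) := by
          refine lt_of_lt_of_le hl (le_trans ?_ h2)
          exact min_le_min hv.le (le_of_lt hx.1)
        exact (E_lt.1 h3).le
      have := mem_iInter₂.1 hx.2 _ hvS
      have h4 : x.1 (T.anc g n) < s := this
      linarith

lemma continuous_coord (g : V) : Continuous (fun x : T.TH => x.1 g) :=
  (continuous_apply g).comp continuous_subtype_val

lemma continuous_trunc : Continuous (fun q : T.TH × ℝ => trunc q.1 q.2) := by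
  refine Continuous.subtype_mk (continuous_pi fun g => ?_) _
  exact ((continuous_coord g).comp continuous_fst).min (continuous_snd.max continuous_const)

end RTree

end Pool.Agent.Helper68.BB
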