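import Mathlib
import Pool.Agent.Helper68.BB.That

/-!
Equiconnecting map and pushing off the root end.
-/

namespace Pool.Agent.Helper68.BB

open Set Filter Topology

namespace RTree

variable {V : Type} {T : RTree V}

lemma meet_apply (x y : T.TH) (g : V) : (meet x y).1 g = min (x.1 g) (y.1 g) := rfl

lemma trunc_le (x : T.TH) (ℓ : ℝ) (g : V) : (trunc x ℓ).1 g ≤ x.1 g := min_le_left _ _

lemma trunc_one (x : T.TH) : trunc x 1 = x := by
  ext g
  rw [trunc_apply' x zero_le_one]
  exact min_eq_left (lt_one x g).le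

/-- equiconnecting map -/
noncomputable def lam (x y : T.TH) (t : ℝ) : T.TH :=
  ⟨fun g => max (max (min (x.1 g) (y.1 g)) (min (x.1 g) (max (1 - 2 * t) 0)))
    (min (y.1 g) (max (2 * t - 1) 0)), by
  rcases le_total t (1 / 2) with ht | ht
  · have h := max_mem (u := meet x y) (v := trunc x (1 - 2 * t)) (x := x)
      (fun g => min_le_left _ _) (fun g => min_le_left _ _)
    convert h using 2 with g
    have h1 : max (2 * t - 1) 0 = 0 := max_eq_right (by linarith)
    rw [h1, min_eq_right (nonneg y g)]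
    apply max_eq_left
    exact le_max_of_le_left (le_min (nonneg x g) (nonneg y g))
  · have h := max_mem (u := meet x y) (v := trunc y (2 * t - 1)) (x := y)
      (fun g => min_le_right _ _) (fun g => min_le_left _ _)
    convert h using 2 with g
    have h1 : max (1 - 2 * t) 0 = 0 := max_eq_right (by linarith)
    rw [h1, min_eq_right (nonneg x g)]
    congr 1
    apply max_eq_left
    exact le_min (nonneg x g) (nonneg y g)⟩

lemma lam_apply (x y : T.TH) (t : ℝ) (g : V) : (lam x y t).1 g =
    max (max (min (x.1 g) (y.1 g)) (min (x.1 g) (max (1 - 2 * t) 0)))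
    (min (y.1 g) (max (2 * t - 1) 0)) := rfl

lemma continuous_lam : Continuous (fun q : T.TH × T.TH × ℝ => lam q.1 q.2.1 q.2.2) := by
  refine Continuous.subtype_mk (continuous_pi fun g => ?_) _
  have h1 : Continuous (fun q : T.TH × T.TH × ℝ => q.1.1 g) :=
    (continuous_coord g).comp continuous_fst
  have h2 : Continuous (fun q : T.TH × T.TH × ℝ => q.2.1.1 g) :=
    (continuous_coord g).comp (continuous_fst.comp continuous_snd)
  have h3 : Continuous (fun q : T.TH × T.TH × ℝ => q.2.2) :=
    continuous_snd.comp continuous_snd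
  exact (((h1.min h2).max (h1.min ((continuous_const.sub (continuous_const.mul h3)).max
    continuous_const))).max (h2.min (((continuous_const.mul h3).sub continuous_const).max
    continuous_const)))

lemma lam_zero (x y : T.TH) : lam x y 0 = x := by
  ext g
  rw [lam_apply]
  have h1 := (lt_one x g).le
  have h2 := nonneg y g
  have h3 := nonneg x g
  norm_num
  rw [min_eq_left h1, min_eq_right h2, max_eq_right (min_le_left _ _), max_eq_left h3]

lemma lam_one (x y : T.TH) : lam x y 1 = y := by
  ext g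
  rw [lam_apply]
  have h1 := (lt_one y g).le
  have h2 := nonneg y g
  have h3 := nonneg x g
  norm_num
  rw [min_eq_left h1, min_eq_right h3]
  apply max_eq_right
  exact max_le (min_le_right _ _) h2

lemma lam_self (x : T.TH) (t : ℝ) : lam x x t = x := by
  ext g
  rw [lam_apply, min_self]
  rw [max_eq_left (min_le_left (x.1 g) (max (1 - 2 * t) 0)), max_eq_left (min_le_left _ _)]

/-- the cut-off level -/
noncomputable def cutF (s ε : ℝ) : ℝ := min 1 (s + max 0 (s / ε - 1))

lemma cutF_of_le {s ε : ℝ} (hε : 0 < ε) (hs1 : s ≤ 1) (h : s ≤ ε) : cutF s ε = s := by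
  unfold cutF
  have h1 : s / ε - 1 ≤ 0 := by
    rw [sub_nonpos, div_le_one hε]; exact h
  rw [max_eq_left h1, add_zero, min_eq_right hs1]

lemma cutF_of_ge {s ε : ℝ} (hε : 0 < ε) (h : 2 * ε ≤ s) : cutF s ε = 1 := by
  unfold cutF
  have h1 : 1 ≤ s / ε - 1 := by
    rw [le_sub_iff_add_le, le_div_iff₀ hε]; linarith
  apply min_eq_left
  have := le_max_right 0 (s / ε - 1)
  linarith

lemma cutF_nonneg {s ε : ℝ} (hs : 0 ≤ s) : 0 ≤ cutF s ε := by
  unfold cutF
  apply le_min zero_le_one
  have := le_max_left 0 (s / ε - 1)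
  linarith

/-- pushing off the root end -/
noncomputable def PT (x : T.TH) (ε : Ioi (0 : ℝ)) : T.TH :=
  ⟨fun g => max (min (x.1 g) (cutF (x.1 T.o) ε)) (min (T.c T.o g) ε), by
  have hε : (0 : ℝ) < ε := ε.2
  have hF := cutF_nonneg (ε := (ε : ℝ)) (nonneg x T.o)
  rcases le_total (ε : ℝ) (x.1 T.o) with h | h
  · have h1 := max_mem (u := trunc x (cutF (x.1 T.o) ε)) (v := trunc (vt T T.o) ε) (x := x)
      (fun g => min_le_left _ _) (fun g => by
        rw [trunc_apply' _ hε.le, vt_apply]
        refine le_trans ?_ (min_c_le' x T.o g)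
        rw [min_comm]
        exact min_le_min h le_rfl)
    convert h1 using 2 with g
    rw [trunc_apply' _ hε.le, vt_apply, trunc_apply' _ hF]
  · have hF2 : cutF (x.1 T.o) ε = x.1 T.o := cutF_of_le hε (lt_one x _).le h
    have h1 := max_mem (u := trunc x (cutF (x.1 T.o) ε)) (v := trunc (vt T T.o) ε)
      (x := trunc (vt T T.o) ε)
      (fun g => by
        rw [trunc_apply' _ hF, trunc_apply' _ hε.le, vt_apply, hF2]
        apply le_min
        · rw [T.c_comm]; exact min_le_c x g T.o
        · exact (min_le_right _ _).trans h) (fun g => le_rfl)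
    convert h1 using 2 with g
    rw [trunc_apply' _ hε.le, vt_apply, trunc_apply' _ hF]⟩

lemma PT_apply (x : T.TH) (ε : Ioi (0 : ℝ)) (g : V) : (PT x ε).1 g =
    max (min (x.1 g) (cutF (x.1 T.o) ε)) (min (T.c T.o g) ε) := rfl

lemma continuous_PT : Continuous (fun q : T.TH × Ioi (0 : ℝ) => PT q.1 q.2) := by
  refine Continuous.subtype_mk (continuous_pi fun g => ?_) _
  have h1 : Continuous (fun q : T.TH × Ioi (0 : ℝ) => q.1.1 g) :=
    (continuous_coord g).comp continuous_fst
  have h2 : Continuous (fun q : T.TH × Ioi (0 : ℝ) => q.1.1 T.o) :=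
    (continuous_coord T.o).comp continuous_fst
  have h3 : Continuous (fun q : T.TH × Ioi (0 : ℝ) => (q.2 : ℝ)) :=
    continuous_subtype_val.comp continuous_snd
  have h4 : Continuous (fun q : T.TH × Ioi (0 : ℝ) => cutF (q.1.1 T.o) q.2) := by
    unfold cutF
    exact continuous_const.min (h2.add (continuous_const.max
      ((h2.div h3 (fun q => (ne_of_gt q.2.2))).sub continuous_const)))
  exact (h1.min h4).max (continuous_const.min h3)

lemma PT_eq_self {x : T.TH} {ε : Ioi (0 : ℝ)} (h : 2 * (ε : ℝ) ≤ x.1 T.o) : PT x ε = x := by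
  have hε : (0 : ℝ) < ε := ε.2
  ext g
  rw [PT_apply, cutF_of_ge hε h, min_eq_left (lt_one x g).le]
  apply max_eq_left
  refine le_trans ?_ (min_c_le' x T.o g)
  rw [min_comm]
  exact min_le_min (by linarith) le_rfl

lemma PT_o_pos (x : T.TH) (ε : Ioi (0 : ℝ)) : 0 < (PT x ε).1 T.o := by
  rw [PT_apply]
  exact lt_max_of_lt_right (lt_min (T.c_pos _ _) ε.2)

lemma PT_o_le (x : T.TH) (ε : Ioi (0 : ℝ)) : (PT x ε).1 T.o ≤ max (x.1 T.o) ε := by
  rw [PT_apply]
  exact max_le_max (min_le_left _ _) (min_le_right _ _)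

lemma Ht_PT_lt {x : T.TH} (h : Ht x < 1) (ε : Ioi (0 : ℝ)) : Ht (PT x ε) < 1 := by
  have h1 : Ht (PT x ε) ≤ max (Ht x) (E (T.b T.o)) := by
    apply Ht_le
    intro g
    rw [PT_apply]
    apply max_le_max
    · exact (min_le_left _ _).trans (le_Ht x g)
    · refine (min_le_left _ _).trans ?_
      rw [← T.c_self]
      exact T.c_le_left _ _
  exact h1.trans_lt (max_lt h (E_lt_one _))

lemma trunc_Ht (x : T.TH) {ℓ : ℝ} (h : Ht x ≤ ℓ) : trunc x ℓ = x := by
  ext g
  rw [trunc_apply' x ((Ht_nonneg x).trans h)]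
  exact min_eq_left ((le_Ht x g).trans h)

end RTree

end Pool.Agent.Helper68.BB
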