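import Mathlib
import Pool.Agent.Helper68.BB.Ops

/-!
The compactification of a product of two trees by the ratio of the heights.
-/

namespace Pool.Agent.Helper68.BB

open Set Filter Topology OnePoint

namespace RTree

variable {V1 V2 : Type} (T1 : RTree V1) (T2 : RTree V2)

/-- the points of the compactification other than `∞` -/
def Wset : Set (T1.TH × T2.TH × ℝ) :=
  {w | 0 < w.1.1 T1.o ∧ 0 < w.2.1.1 T2.o ∧ 0 < w.2.2 ∧ w.2.2 < 1 ∧
    (1 - w.2.2) * Ht w.1 * (1 - Ht w.2.1) = w.2.2 * Ht w.2.1 * (1 - Ht w.1)}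

/-- the points of the compactification other than `∞` -/
abbrev W : Type := ↥(Wset T1 T2)

/-- the compactification -/
abbrev Xt : Type := OnePoint (W T1 T2)

variable {T1 T2}

/-- distance-like function to `∞` -/
noncomputable def kap0 (w : T1.TH × T2.TH × ℝ) : ℝ := w.1.1 T1.o * w.2.1.1 T2.o * (w.2.2 * (1 - w.2.2))

lemma continuous_kap0 : Continuous (kap0 (T1 := T1) (T2 := T2)) := by
  unfold kap0
  have h1 : Continuous fun w : T1.TH × T2.TH × ℝ => w.1.1 T1.o :=
    (continuous_coord _).comp continuous_fst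
  have h2 : Continuous fun w : T1.TH × T2.TH × ℝ => w.2.1.1 T2.o :=
    (continuous_coord _).comp (continuous_fst.comp continuous_snd)
  have h3 : Continuous fun w : T1.TH × T2.TH × ℝ => w.2.2 :=
    continuous_snd.comp continuous_snd
  exact (h1.mul h2).mul (h3.mul (continuous_const.sub h3))

/-- distance-like function to `∞` -/
noncomputable def kap (w : W T1 T2) : ℝ := kap0 w.1

lemma continuous_kap : Continuous (kap (T1 := T1) (T2 := T2)) :=
  continuous_kap0.comp continuous_subtype_val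

lemma kap_pos (w : W T1 T2) : 0 < kap w := by
  obtain ⟨h1, h2, h3, h4, -⟩ := w.2
  unfold kap kap0
  have h5 : 0 < 1 - w.1.2.2 := by linarith
  positivity

lemma prod_pos {a b c d : ℝ} (ha : 0 ≤ a) (hb : 0 ≤ b) (hc : 0 ≤ c) (hd : 0 ≤ d)
    (h : 0 < a * b * (c * d)) : 0 < a ∧ 0 < b ∧ 0 < c ∧ 0 < d := by
  refine ⟨ha.lt_of_ne ?_, hb.lt_of_ne ?_, hc.lt_of_ne ?_, hd.lt_of_ne ?_⟩ <;>
  · rintro rfl
    simp at h

lemma isCompact_kap_ge {ε : ℝ} (hε : 0 < ε) : IsCompact {w : W T1 T2 | ε ≤ kap w} := by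
  rw [Topology.IsInducing.subtypeVal.isCompact_iff]
  -- the closed set on which the equation makes sense
  set D : Set (T1.TH × T2.TH × ℝ) := (univ ×ˢ (univ ×ˢ Icc 0 1)) ∩ {w | ε ≤ kap0 w} with hD
  have hDc : IsCompact D := by
    apply IsCompact.inter_right
    · exact isCompact_univ.prod (isCompact_univ.prod isCompact_Icc)
    · exact isClosed_le continuous_const continuous_kap0
  have hpos : ∀ w ∈ D, 0 < w.1.1 T1.o ∧ 0 < w.2.1.1 T2.o ∧ 0 < w.2.2 ∧ 0 < 1 - w.2.2 := by
    rintro w ⟨⟨-, -, h1, h2⟩, h3⟩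
    exact prod_pos (nonneg _ _) (nonneg _ _) h1 (by linarith) (lt_of_lt_of_le hε h3)
  have e : Subtype.val '' {w : W T1 T2 | ε ≤ kap w} = D ∩ (fun w => (1 - w.2.2) * Ht w.1 * (1 - Ht w.2.1)
      - w.2.2 * Ht w.2.1 * (1 - Ht w.1)) ⁻¹' {0} := by
    ext w
    constructor
    · rintro ⟨w, hw, rfl⟩
      obtain ⟨h1, h2, h3, h4, h5⟩ := w.2
      refine ⟨⟨⟨trivial, trivial, h3.le, h4.le⟩, hw⟩, ?_⟩
      simp only [mem_preimage, mem_singleton_iff]
      linarith
    · rintro ⟨hw, hw'⟩
      obtain ⟨h1, h2, h3, h4⟩ := hpos w hw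
      simp only [mem_preimage, mem_singleton_iff] at hw'
      exact ⟨⟨w, h1, h2, h3, by linarith, by linarith⟩, hw.2, rfl⟩
  rw [e]
  refine hDc.of_isClosed_subset ?_ inter_subset_left
  refine ContinuousOn.preimage_isClosed_of_isClosed ?_ hDc.isClosed isClosed_singleton
  intro w hw
  apply ContinuousAt.continuousWithinAt
  obtain ⟨h1, h2, h3, h4⟩ := hpos w hw
  have c1 : ContinuousAt (fun w : T1.TH × T2.TH × ℝ => Ht w.1) w :=
    ContinuousAt.comp (f := fun w : T1.TH × T2.TH × ℝ => w.1) (continuousAt_Ht h1) continuousAt_fst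
  have c2 : ContinuousAt (fun w : T1.TH × T2.TH × ℝ => Ht w.2.1) w :=
    ContinuousAt.comp (f := fun w : T1.TH × T2.TH × ℝ => w.2.1) (continuousAt_Ht h2)
      (continuous_fst.comp continuous_snd).continuousAt
  have c3 : ContinuousAt (fun w : T1.TH × T2.TH × ℝ => w.2.2) w :=
    (continuous_snd.comp continuous_snd).continuousAt
  exact (((continuousAt_const.sub c3).mul c1).mul (continuousAt_const.sub c2)).sub
    ((c3.mul c2).mul (continuousAt_const.sub c1))

instance : WeaklyLocallyCompactSpace (W T1 T2) where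
  exists_compact_mem_nhds w := ⟨{w' | kap w / 2 ≤ kap w'}, isCompact_kap_ge (half_pos (kap_pos w)),
    mem_of_superset ((isOpen_lt continuous_const continuous_kap).mem_nhds
      (show kap w / 2 < kap w from half_lt_self (kap_pos w)))
      (fun w' h => le_of_lt (show kap w / 2 < kap w' from h))⟩

/-- extension of `kap` by `0` -/
noncomputable def kh : Xt T1 T2 → ℝ
  | ∞ => 0
  | (w : W T1 T2) => kap w

@[simp] lemma kh_infty : kh (∞ : Xt T1 T2) = 0 := rfl
@[simp] lemma kh_coe (w : W T1 T2) : kh (w : Xt T1 T2) = kap w := rfl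

lemma kh_nonneg (x : Xt T1 T2) : 0 ≤ kh x := by
  induction x using OnePoint.rec with
  | infty => exact le_rfl
  | coe w => exact (kap_pos w).le

lemma nhds_infty : 𝓝 (∞ : Xt T1 T2) = comap kh (𝓝 0) := by
  apply le_antisymm
  · rw [← tendsto_iff_comap, show (0 : ℝ) = kh (∞ : Xt T1 T2) from rfl]
    change ContinuousAt _ _
    rw [OnePoint.continuousAt_infty']
    rw [Metric.tendsto_nhds]
    intro ε hε
    rw [coclosedCompact_eq_cocompact]
    filter_upwards [(isCompact_kap_ge (T1 := T1) (T2 := T2) hε).compl_mem_cocompact] with w hw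
    have hw' : kap w < ε := not_le.1 hw
    simp only [Function.comp, kh_coe, kh_infty, Real.dist_eq, sub_zero]
    rwa [abs_of_pos (kap_pos w)]
  · intro U hU
    have h1 : ((↑) : W T1 T2 → Xt T1 T2) ⁻¹' U ∈ coclosedCompact (W T1 T2) := by
      rw [← OnePoint.comap_coe_nhds_infty]
      exact preimage_mem_comap hU
    rw [coclosedCompact_eq_cocompact, mem_cocompact] at h1
    obtain ⟨K, hK, hKU⟩ := h1
    have h2 : ∃ δ > 0, ∀ w ∈ K, δ ≤ kap w := by
      rcases K.eq_empty_or_nonempty with h | h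
      · exact ⟨1, one_pos, by simp [h]⟩
      · obtain ⟨w, hw, hmin⟩ := hK.exists_isMinOn h continuous_kap.continuousOn
        exact ⟨kap w, kap_pos w, fun w' hw' => hmin hw'⟩
    obtain ⟨δ, hδ, h3⟩ := h2
    refine ⟨Iio δ, Iio_mem_nhds hδ, ?_⟩
    intro x hx
    induction x using OnePoint.rec with
    | infty => exact mem_of_mem_nhds hU
    | coe w =>
      apply hKU
      intro hw
      exact not_le.2 hx (h3 w hw)

lemma continuous_kh : Continuous (kh (T1 := T1) (T2 := T2)) := by
  rw [continuous_iff_continuousAt]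
  intro x
  induction x using OnePoint.rec with
  | infty =>
    rw [ContinuousAt, nhds_infty]
    exact tendsto_comap
  | coe w =>
    rw [OnePoint.continuousAt_coe]
    exact continuous_kap.continuousAt

/-- continuity at a point mapped to `∞` -/
lemma continuousAt_of_infty {α : Type*} [TopologicalSpace α] {f : α → Xt T1 T2} {a : α}
    (hfa : f a = ∞) (h : Tendsto (fun a => kh (f a)) (𝓝 a) (𝓝 0)) : ContinuousAt f a := by
  rw [ContinuousAt, hfa, nhds_infty, tendsto_comap_iff]
  exact h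

/-- continuity at a point mapped to `W` -/
lemma continuousAt_of_W {α : Type*} [TopologicalSpace α] {f : α → Xt T1 T2} {a : α}
    {g : α → T1.TH × T2.TH × ℝ} (hg : ContinuousAt g a)
    (h : ∀ᶠ b in 𝓝 a, ∃ hb : g b ∈ Wset T1 T2, f b = ((⟨g b, hb⟩ : W T1 T2) : Xt T1 T2)) :
    ContinuousAt f a := by
  obtain ⟨ha, hfa⟩ := h.self_of_nhds
  classical
  set g' : α → W T1 T2 := fun b => if hb : g b ∈ Wset T1 T2 then ⟨g b, hb⟩ else ⟨g a, ha⟩ with hg'
  have h1 : ContinuousAt g' a := by
    rw [Topology.IsInducing.subtypeVal.continuousAt_iff]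
    refine hg.congr ?_
    filter_upwards [h] with b hb
    simp only [Function.comp, hg']
    rw [dif_pos hb.1]
  have h2 : ContinuousAt (fun b => (g' b : Xt T1 T2)) a :=
    OnePoint.continuous_coe.continuousAt.comp h1
  refine h2.congr ?_
  filter_upwards [h] with b hb
  obtain ⟨hb1, hb2⟩ := hb
  rw [hb2]
  simp only [hg']
  rw [dif_pos hb1]

end RTree

end Pool.Agent.Helper68.BB
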