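import Mathlib
import Pool.Agent.Helper68.BB.W

/-!
Truncation of points of the compactification at a ratio.
-/

namespace Pool.Agent.Helper68.BB

open Set Filter Topology OnePoint

namespace RTree

/-- height in the first factor for the parameters `ρ`, `φ` -/
noncomputable def lev (ρ φ : ℝ) : ℝ := ρ * φ / (1 - ρ * (1 - φ))

/-- inverse of `lev` in the first variable -/
noncomputable def rh (H φ : ℝ) : ℝ := H / (φ + H * (1 - φ))

lemma lev_den {ρ φ : ℝ} (h0 : 0 < φ) (h1 : φ < 1) (hρ1 : ρ ≤ 1) :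
    φ ≤ 1 - ρ * (1 - φ) := by nlinarith

lemma lev_pos {ρ φ : ℝ} (h0 : 0 < φ) (h1 : φ < 1) (hρ : 0 < ρ) (hρ1 : ρ ≤ 1) : 0 < lev ρ φ := by
  have := lev_den h0 h1 hρ1
  unfold lev
  apply div_pos (mul_pos hρ h0); linarith

lemma lev_nonneg {ρ φ : ℝ} (h0 : 0 < φ) (h1 : φ < 1) (hρ : 0 ≤ ρ) (hρ1 : ρ ≤ 1) : 0 ≤ lev ρ φ := by
  have := lev_den h0 h1 hρ1
  unfold lev
  apply div_nonneg (mul_nonneg hρ h0.le); linarith

lemma lev_le {ρ φ : ℝ} (h0 : 0 < φ) (h1 : φ < 1) (hρ : 0 ≤ ρ) (hρ1 : ρ ≤ 1) : lev ρ φ ≤ ρ := by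
  have := lev_den h0 h1 hρ1
  unfold lev
  rw [div_le_iff₀ (by linarith)]
  exact mul_le_mul_of_nonneg_left this hρ

lemma lev_lt_one {ρ φ : ℝ} (h0 : 0 < φ) (h1 : φ < 1) (hρ : 0 ≤ ρ) (hρ1 : ρ < 1) : lev ρ φ < 1 :=
  (lev_le h0 h1 hρ hρ1.le).trans_lt hρ1

lemma lev_zero (φ : ℝ) : lev 0 φ = 0 := by simp [lev]

lemma lev_one {φ : ℝ} (h0 : 0 < φ) : lev 1 φ = 1 := by
  unfold lev
  have : 1 - 1 * (1 - φ) = φ := by ring
  rw [this, one_mul, div_self h0.ne']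

lemma lev_mono {ρ ρ' φ : ℝ} (h0 : 0 < φ) (h1 : φ < 1) (h : ρ ≤ ρ') (hρ1 : ρ' ≤ 1) :
    lev ρ φ ≤ lev ρ' φ := by
  have d1 := lev_den h0 h1 (h.trans hρ1)
  have d2 := lev_den h0 h1 hρ1
  unfold lev
  rw [div_le_div_iff₀ (by linarith) (by linarith)]
  nlinarith

lemma lev_le_iff {ρ φ H : ℝ} (h0 : 0 < φ) (h1 : φ < 1) (hρ1 : ρ ≤ 1) (hH : 0 < H) :
    lev ρ φ ≤ H ↔ ρ ≤ rh H φ := by
  have d1 := lev_den h0 h1 hρ1
  have d2 : 0 < φ + H * (1 - φ) := by nlinarith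
  unfold lev rh
  rw [div_le_iff₀ (by linarith), le_div_iff₀ d2]
  constructor <;> intro h <;> nlinarith

lemma rh_pos {φ H : ℝ} (h0 : 0 < φ) (h1 : φ < 1) (hH : 0 < H) : 0 < rh H φ := by
  have d2 : 0 < φ + H * (1 - φ) := by nlinarith
  exact div_pos hH d2

lemma rh_le_one {φ H : ℝ} (h0 : 0 < φ) (h1 : φ < 1) (hH : 0 < H) (hH1 : H ≤ 1) : rh H φ ≤ 1 := by
  have d2 : 0 < φ + H * (1 - φ) := by nlinarith
  unfold rh
  rw [div_le_one d2]
  nlinarith

lemma lev_rh {φ H : ℝ} (h0 : 0 < φ) (h1 : φ < 1) (hH : 0 < H) (hH1 : H ≤ 1) :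
    lev (rh H φ) φ = H := by
  have d2 : 0 < φ + H * (1 - φ) := by nlinarith
  have d1 := lev_den h0 h1 (rh_le_one h0 h1 hH hH1)
  unfold lev
  rw [div_eq_iff (by linarith)]
  unfold rh
  field_simp
  ring

/-- the slope equation for the truncation levels -/
lemma lev_rel {ρ φ : ℝ} (h0 : 0 < φ) (h1 : φ < 1) (hρ : 0 ≤ ρ) (hρ1 : ρ ≤ 1) :
    (1 - φ) * lev ρ φ * (1 - lev ρ (1 - φ)) = φ * lev ρ (1 - φ) * (1 - lev ρ φ) := by
  have d1 := lev_den h0 h1 hρ1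
  have d2 := lev_den (φ := 1 - φ) (by linarith) (by linarith) hρ1
  have e1 : 1 - ρ * (1 - φ) ≠ 0 := by linarith
  have e2 : 1 - ρ * (1 - (1 - φ)) ≠ 0 := by linarith
  have a1 : 1 - lev ρ φ = (1 - ρ) / (1 - ρ * (1 - φ)) := by
    unfold lev
    rw [eq_div_iff e1, sub_mul, div_mul_cancel₀ _ e1]; ring
  have a2 : 1 - lev ρ (1 - φ) = (1 - ρ) / (1 - ρ * (1 - (1 - φ))) := by
    unfold lev
    rw [eq_div_iff e2, sub_mul, div_mul_cancel₀ _ e2]; ring
  rw [a1, a2]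
  unfold lev
  ring

/-- the two candidates for the ratio of a point of `W` agree -/
lemma rh_eq {φ H K : ℝ} (h0 : 0 < φ) (h1 : φ < 1) (hH : 0 < H) (hK : 0 < K)
    (h : (1 - φ) * H * (1 - K) = φ * K * (1 - H)) : rh H φ = rh K (1 - φ) := by
  have d1 : 0 < φ + H * (1 - φ) := by nlinarith
  have d2 : 0 < (1 - φ) + K * (1 - (1 - φ)) := by nlinarith
  unfold rh
  rw [div_eq_div_iff d1.ne' d2.ne']
  nlinarith

lemma eq_of_rh {φ H K : ℝ} (h0 : 0 < φ) (h1 : φ < 1) (hH : 0 < H) (hK : 0 < K)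
    (h : rh H φ = rh K (1 - φ)) : (1 - φ) * H * (1 - K) = φ * K * (1 - H) := by
  have d1 : 0 < φ + H * (1 - φ) := by nlinarith
  have d2 : 0 < (1 - φ) + K * (1 - (1 - φ)) := by nlinarith
  unfold rh at h
  rw [div_eq_div_iff d1.ne' d2.ne'] at h
  nlinarith

variable {V1 V2 : Type} {T1 : RTree V1} {T2 : RTree V2}

/-- the common ratio -/
noncomputable def rr (x : T1.TH) (y : T2.TH) (φ ρ : ℝ) : ℝ :=
  min ρ (min (rh (Ht x) φ) (rh (Ht y) (1 - φ)))

/-- the parameters for which `mkw` is a point of `W` -/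
def good (x : T1.TH) (y : T2.TH) (φ ρ : ℝ) : Prop :=
  0 < x.1 T1.o ∧ 0 < y.1 T2.o ∧ 0 < φ ∧ φ < 1 ∧ 0 < ρ

lemma rr_pos {x : T1.TH} {y : T2.TH} {φ ρ : ℝ} (h : good x y φ ρ) : 0 < rr x y φ ρ := by
  obtain ⟨h1, h2, h3, h4, h5⟩ := h
  exact lt_min h5 (lt_min (rh_pos h3 h4 (Ht_pos h1))
    (rh_pos (by linarith) (by linarith) (Ht_pos h2)))

lemma rr_le_one {x : T1.TH} {y : T2.TH} {φ ρ : ℝ} (h : good x y φ ρ) : rr x y φ ρ ≤ 1 := by
  obtain ⟨h1, h2, h3, h4, h5⟩ := h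
  exact (min_le_right _ _).trans ((min_le_left _ _).trans
    (rh_le_one h3 h4 (Ht_pos h1) (Ht_le_one x)))

/-- the truncated triple -/
noncomputable def tr3 (x : T1.TH) (y : T2.TH) (φ ρ : ℝ) : T1.TH × T2.TH × ℝ :=
  (trunc x (lev (rr x y φ ρ) φ), trunc y (lev (rr x y φ ρ) (1 - φ)), φ)

lemma lev_rr_le {x : T1.TH} {y : T2.TH} {φ ρ : ℝ} (h : good x y φ ρ) :
    lev (rr x y φ ρ) φ ≤ Ht x := by
  rw [lev_le_iff h.2.2.1 h.2.2.2.1 (rr_le_one h) (Ht_pos h.1)]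
  exact (min_le_right _ _).trans (min_le_left _ _)

lemma lev_rr_le' {x : T1.TH} {y : T2.TH} {φ ρ : ℝ} (h : good x y φ ρ) :
    lev (rr x y φ ρ) (1 - φ) ≤ Ht y := by
  obtain ⟨h1, h2, h3, h4, h5⟩ := id h
  rw [lev_le_iff (by linarith) (by linarith) (rr_le_one h) (Ht_pos h2)]
  exact (min_le_right _ _).trans (min_le_right _ _)

lemma tr3_mem {x : T1.TH} {y : T2.TH} {φ ρ : ℝ} (h : good x y φ ρ) :
    tr3 x y φ ρ ∈ Wset T1 T2 := by
  obtain ⟨h1, h2, h3, h4, h5⟩ := id h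
  have hr0 := rr_pos h
  have hr1 := rr_le_one h
  have l1 := lev_pos h3 h4 hr0 hr1
  have l2 := lev_pos (φ := 1 - φ) (by linarith) (by linarith) hr0 hr1
  refine ⟨?_, ?_, h3, h4, ?_⟩
  · show 0 < (trunc x _).1 T1.o
    rw [trunc_apply' _ l1.le]
    exact lt_min h1 l1
  · show 0 < (trunc y _).1 T2.o
    rw [trunc_apply' _ l2.le]
    exact lt_min h2 l2
  · show (1 - φ) * Ht (trunc x _) * (1 - Ht (trunc y _)) = φ * Ht (trunc y _) * (1 - Ht (trunc x _))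
    rw [Ht_trunc _ l1.le, Ht_trunc _ l2.le, min_eq_right (lev_rr_le h), min_eq_right (lev_rr_le' h)]
    exact lev_rel h3 h4 hr0.le hr1

open Classical in
/-- the truncated point -/
noncomputable def mkw (x : T1.TH) (y : T2.TH) (φ ρ : ℝ) : Xt T1 T2 :=
  if h : good x y φ ρ then ((⟨tr3 x y φ ρ, tr3_mem h⟩ : W T1 T2) : Xt T1 T2) else ∞

lemma mk_good {x : T1.TH} {y : T2.TH} {φ ρ : ℝ} (h : good x y φ ρ) :
    mkw x y φ ρ = ((⟨tr3 x y φ ρ, tr3_mem h⟩ : W T1 T2) : Xt T1 T2) := dif_pos h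

lemma mk_bad {x : T1.TH} {y : T2.TH} {φ ρ : ℝ} (h : ¬ good x y φ ρ) :
    mkw x y φ ρ = ∞ := dif_neg h

lemma kh_mkw {x : T1.TH} {y : T2.TH} {φ ρ : ℝ} (h : good x y φ ρ) :
    kh (mkw x y φ ρ) = min (x.1 T1.o) (lev (rr x y φ ρ) φ) *
      min (y.1 T2.o) (lev (rr x y φ ρ) (1 - φ)) * (φ * (1 - φ)) := by
  obtain ⟨h1, h2, h3, h4, h5⟩ := id h
  rw [mk_good h, kh_coe]
  show (trunc x _).1 T1.o * (trunc y _).1 T2.o * (φ * (1 - φ)) = _
  rw [trunc_apply' _ (lev_pos h3 h4 (rr_pos h) (rr_le_one h)).le,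
    trunc_apply' _ (lev_pos (φ := 1 - φ) (by linarith) (by linarith) (rr_pos h) (rr_le_one h)).le]

/-- product of numbers in `[0,1]` -/
lemma prod_le {a b c d : ℝ} (ha : 0 ≤ a) (hb : 0 ≤ b) (hc : 0 ≤ c) (hd : 0 ≤ d)
    (ha1 : a ≤ 1) (hb1 : b ≤ 1) (hc1 : c ≤ 1) (hd1 : d ≤ 1) :
    a * b * (c * d) ≤ a ∧ a * b * (c * d) ≤ b ∧ a * b * (c * d) ≤ c ∧ a * b * (c * d) ≤ d := by
  have h1 : a * b ≤ 1 := mul_le_one₀ ha1 hb hb1
  have h2 : c * d ≤ 1 := mul_le_one₀ hc1 hd hd1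
  have h3 : 0 ≤ a * b := mul_nonneg ha hb
  have h4 : 0 ≤ c * d := mul_nonneg hc hd
  refine ⟨?_, ?_, ?_, ?_⟩
  · calc a * b * (c * d) ≤ a * b := mul_le_of_le_one_right h3 h2
      _ ≤ a := mul_le_of_le_one_right ha hb1
  · calc a * b * (c * d) ≤ a * b := mul_le_of_le_one_right h3 h2
      _ ≤ b := mul_le_of_le_one_left hb ha1
  · calc a * b * (c * d) ≤ c * d := mul_le_of_le_one_left h4 h1
      _ ≤ c := mul_le_of_le_one_right hc hd1
  · calc a * b * (c * d) ≤ c * d := mul_le_of_le_one_left h4 h1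
      _ ≤ d := mul_le_of_le_one_left hd hc1

lemma kh_mk_le (x : T1.TH) (y : T2.TH) (φ ρ : ℝ) :
    kh (mkw x y φ ρ) ≤ x.1 T1.o ∧ kh (mkw x y φ ρ) ≤ y.1 T2.o ∧ kh (mkw x y φ ρ) ≤ max φ 0 ∧
      kh (mkw x y φ ρ) ≤ max (1 - φ) 0 ∧ kh (mkw x y φ ρ) ≤ max ρ 0 := by
  by_cases h : good x y φ ρ
  · obtain ⟨h1, h2, h3, h4, h5⟩ := id h
    have hr0 := rr_pos h
    have hr1 := rr_le_one h
    have l1 := lev_pos h3 h4 hr0 hr1
    have l2 := lev_pos (φ := 1 - φ) (by linarith) (by linarith) hr0 hr1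
    have l3 := lev_le h3 h4 hr0.le hr1
    obtain ⟨p1, p2, p3, p4⟩ := prod_le (a := min (x.1 T1.o) (lev (rr x y φ ρ) φ))
      (b := min (y.1 T2.o) (lev (rr x y φ ρ) (1 - φ))) (c := φ) (d := 1 - φ)
      (le_min h1.le l1.le) (le_min h2.le l2.le) h3.le (by linarith)
      ((min_le_left _ _).trans (lt_one x _).le) ((min_le_left _ _).trans (lt_one y _).le)
      h4.le (by linarith)
    rw [← kh_mkw h] at p1 p2 p3 p4
    refine ⟨p1.trans (min_le_left _ _), p2.trans (min_le_left _ _), p3.trans (le_max_left _ _),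
      p4.trans (le_max_left _ _), ?_⟩
    exact p1.trans ((min_le_right _ _).trans (l3.trans ((min_le_left _ _).trans (le_max_left _ _))))
  · rw [mk_bad h]
    exact ⟨nonneg x _, nonneg y _, le_max_right _ _, le_max_right _ _, le_max_right _ _⟩

lemma kh_mk_mono (x : T1.TH) (y : T2.TH) (φ ρ : ℝ) : kh (mkw x y φ ρ) ≤ kh (mkw x y φ 1) := by
  by_cases h : good x y φ ρ
  · obtain ⟨h1, h2, h3, h4, h5⟩ := id h
    have h' : good x y φ 1 := ⟨h1, h2, h3, h4, one_pos⟩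
    rw [kh_mkw h, kh_mkw h']
    have hr : rr x y φ ρ ≤ rr x y φ 1 := by
      unfold rr
      rw [min_eq_right (a := (1 : ℝ)) ((min_le_left _ _).trans
        (rh_le_one h3 h4 (Ht_pos h1) (Ht_le_one x)))]
      exact min_le_right _ _
    have l1 := lev_pos h3 h4 (rr_pos h) (rr_le_one h)
    have l2 := lev_pos (φ := 1 - φ) (by linarith) (by linarith) (rr_pos h) (rr_le_one h)
    have m1 := lev_mono h3 h4 hr (rr_le_one h')
    have m2 := lev_mono (φ := 1 - φ) (by linarith) (by linarith) hr (rr_le_one h')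
    have h6 : 0 < 1 - φ := by linarith
    apply mul_le_mul_of_nonneg_right
    · exact mul_le_mul (min_le_min le_rfl m1) (min_le_min le_rfl m2) (le_min h2.le l2.le)
        (le_min h1.le (l1.le.trans m1))
    · positivity
  · rw [mk_bad h, kh_infty]
    exact kh_nonneg _

lemma mk_self (w : W T1 T2) : mkw w.1.1 w.1.2.1 w.1.2.2 1 = (w : Xt T1 T2) := by
  obtain ⟨⟨x, y, φ⟩, h1, h2, h3, h4, h5⟩ := w
  simp only at h1 h2 h3 h4 h5 ⊢
  have h : good x y φ 1 := ⟨h1, h2, h3, h4, one_pos⟩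
  rw [mk_good h]
  have e := rh_eq h3 h4 (Ht_pos h1) (Ht_pos h2) h5
  have hr : rr x y φ 1 = rh (Ht x) φ := by
    unfold rr
    rw [← e, min_self]
    exact min_eq_right (rh_le_one h3 h4 (Ht_pos h1) (Ht_le_one x))
  have hr' : rr x y φ 1 = rh (Ht y) (1 - φ) := by rw [hr, e]
  congr 1
  apply Subtype.ext
  show (trunc x _, trunc y _, φ) = (x, y, φ)
  congr 1
  · rw [hr, lev_rh h3 h4 (Ht_pos h1) (Ht_le_one x)]
    exact trunc_Ht x le_rfl
  · congr 1
    rw [hr', lev_rh (by linarith) (by linarith) (Ht_pos h2) (Ht_le_one y)]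
    exact trunc_Ht y le_rfl

lemma continuous_mk : Continuous (fun q : T1.TH × T2.TH × ℝ × ℝ => mkw q.1 q.2.1 q.2.2.1 q.2.2.2) := by
  rw [continuous_iff_continuousAt]
  rintro ⟨x, y, φ, ρ⟩
  have c1 : Continuous (fun q : T1.TH × T2.TH × ℝ × ℝ => q.1) := continuous_fst
  have c2 : Continuous (fun q : T1.TH × T2.TH × ℝ × ℝ => q.2.1) := continuous_fst.comp continuous_snd
  have c3 : Continuous (fun q : T1.TH × T2.TH × ℝ × ℝ => q.2.2.1) :=
    continuous_fst.comp (continuous_snd.comp continuous_snd)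
  have c4 : Continuous (fun q : T1.TH × T2.TH × ℝ × ℝ => q.2.2.2) :=
    continuous_snd.comp (continuous_snd.comp continuous_snd)
  have c5 : Continuous (fun q : T1.TH × T2.TH × ℝ × ℝ => q.1.1 T1.o) := (continuous_coord _).comp c1
  have c6 : Continuous (fun q : T1.TH × T2.TH × ℝ × ℝ => q.2.1.1 T2.o) := (continuous_coord _).comp c2
  by_cases h : good x y φ ρ
  · obtain ⟨h1, h2, h3, h4, h5⟩ := id h
    have hr0 := rr_pos h
    have hr1 := rr_le_one h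
    have d1 := lev_den h3 h4 hr1
    have d2 := lev_den (φ := 1 - φ) (by linarith) (by linarith) hr1
    have e1 : ContinuousAt (fun q : T1.TH × T2.TH × ℝ × ℝ => Ht q.1) (x, y, φ, ρ) :=
      ContinuousAt.comp (f := fun q : T1.TH × T2.TH × ℝ × ℝ => q.1) (continuousAt_Ht h1)
        c1.continuousAt
    have e2 : ContinuousAt (fun q : T1.TH × T2.TH × ℝ × ℝ => Ht q.2.1) (x, y, φ, ρ) :=
      ContinuousAt.comp (f := fun q : T1.TH × T2.TH × ℝ × ℝ => q.2.1) (continuousAt_Ht h2)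
        c2.continuousAt
    have p1 : 0 < φ + Ht x * (1 - φ) := by
      have := Ht_pos h1
      nlinarith
    have p2 : 0 < (1 - φ) + Ht y * (1 - (1 - φ)) := by
      have := Ht_pos h2
      nlinarith
    have e3 : ContinuousAt (fun q : T1.TH × T2.TH × ℝ × ℝ => rh (Ht q.1) q.2.2.1) (x, y, φ, ρ) := by
      unfold rh
      exact e1.div (c3.continuousAt.add (e1.mul (continuousAt_const.sub c3.continuousAt))) p1.ne'
    have e4 : ContinuousAt (fun q : T1.TH × T2.TH × ℝ × ℝ => rh (Ht q.2.1) (1 - q.2.2.1))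
        (x, y, φ, ρ) := by
      unfold rh
      exact e2.div ((continuousAt_const.sub c3.continuousAt).add
        (e2.mul (continuousAt_const.sub (continuousAt_const.sub c3.continuousAt)))) p2.ne'
    have e5 : ContinuousAt (fun q : T1.TH × T2.TH × ℝ × ℝ => rr q.1 q.2.1 q.2.2.1 q.2.2.2)
        (x, y, φ, ρ) := by
      unfold rr
      exact c4.continuousAt.min (e3.min e4)
    have e6 : ContinuousAt (fun q : T1.TH × T2.TH × ℝ × ℝ =>
        lev (rr q.1 q.2.1 q.2.2.1 q.2.2.2) q.2.2.1) (x, y, φ, ρ) := by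
      unfold lev
      refine (e5.mul c3.continuousAt).div (continuousAt_const.sub
        (e5.mul (continuousAt_const.sub c3.continuousAt))) ?_
      simp only
      linarith
    have e7 : ContinuousAt (fun q : T1.TH × T2.TH × ℝ × ℝ =>
        lev (rr q.1 q.2.1 q.2.2.1 q.2.2.2) (1 - q.2.2.1)) (x, y, φ, ρ) := by
      unfold lev
      refine (e5.mul (continuousAt_const.sub c3.continuousAt)).div (continuousAt_const.sub
        (e5.mul (continuousAt_const.sub (continuousAt_const.sub c3.continuousAt)))) ?_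
      simp only
      linarith
    apply continuousAt_of_W (g := fun q => tr3 q.1 q.2.1 q.2.2.1 q.2.2.2)
    · unfold tr3
      refine ContinuousAt.prodMk ?_ (ContinuousAt.prodMk ?_ c3.continuousAt)
      · exact (continuous_trunc (T := T1)).continuousAt.comp (c1.continuousAt.prodMk e6)
      · exact (continuous_trunc (T := T2)).continuousAt.comp (c2.continuousAt.prodMk e7)
    · have o1 : ∀ᶠ q : T1.TH × T2.TH × ℝ × ℝ in 𝓝 (x, y, φ, ρ), 0 < q.1.1 T1.o :=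
        c5.continuousAt.eventually (lt_mem_nhds h1)
      have o2 : ∀ᶠ q : T1.TH × T2.TH × ℝ × ℝ in 𝓝 (x, y, φ, ρ), 0 < q.2.1.1 T2.o :=
        c6.continuousAt.eventually (lt_mem_nhds h2)
      have o3 : ∀ᶠ q : T1.TH × T2.TH × ℝ × ℝ in 𝓝 (x, y, φ, ρ), 0 < q.2.2.1 :=
        c3.continuousAt.eventually (lt_mem_nhds h3)
      have o4 : ∀ᶠ q : T1.TH × T2.TH × ℝ × ℝ in 𝓝 (x, y, φ, ρ), q.2.2.1 < 1 :=
        c3.continuousAt.eventually (gt_mem_nhds h4)
      have o5 : ∀ᶠ q : T1.TH × T2.TH × ℝ × ℝ in 𝓝 (x, y, φ, ρ), 0 < q.2.2.2 :=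
        c4.continuousAt.eventually (lt_mem_nhds h5)
      filter_upwards [o1, o2, o3, o4, o5] with q q1 q2 q3 q4 q5
      have hq : good q.1 q.2.1 q.2.2.1 q.2.2.2 := ⟨q1, q2, q3, q4, q5⟩
      exact ⟨tr3_mem hq, mk_good hq⟩
  · refine continuousAt_of_infty (f := fun q : T1.TH × T2.TH × ℝ × ℝ =>
      mkw q.1 q.2.1 q.2.2.1 q.2.2.2) (mk_bad h) ?_
    -- bound
    set B : T1.TH × T2.TH × ℝ × ℝ → ℝ := fun q => min (q.1.1 T1.o) (min (q.2.1.1 T2.o)
      (min (max q.2.2.1 0) (min (max (1 - q.2.2.1) 0) (max q.2.2.2 0)))) with hB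
    have hBc : Continuous B := c5.min (c6.min ((c3.max continuous_const).min
      (((continuous_const.sub c3).max continuous_const).min (c4.max continuous_const))))
    have hB0 : B (x, y, φ, ρ) = 0 := by
      have hnn : 0 ≤ B (x, y, φ, ρ) := by
        simp only [hB]
        exact le_min (nonneg x _) (le_min (nonneg y _) (le_min (le_max_right _ _)
          (le_min (le_max_right _ _) (le_max_right _ _))))
      refine le_antisymm ?_ hnn
      by_contra hcon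
      push Not at hcon
      simp only [hB, lt_min_iff] at hcon
      obtain ⟨q1, q2, q3, q4, q5⟩ := hcon
      apply h
      refine ⟨q1, q2, ?_, ?_, ?_⟩
      · rcases lt_max_iff.1 q3 with h | h
        · exact h
        · exact absurd h (lt_irrefl _)
      · rcases lt_max_iff.1 q4 with h | h
        · linarith
        · exact absurd h (lt_irrefl _)
      · rcases lt_max_iff.1 q5 with h | h
        · exact h
        · exact absurd h (lt_irrefl _)
    have hlim : Tendsto B (𝓝 (x, y, φ, ρ)) (𝓝 0) := by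
      have := hBc.continuousAt (x := (x, y, φ, ρ))
      rwa [ContinuousAt, hB0] at this
    refine tendsto_of_tendsto_of_tendsto_of_le_of_le tendsto_const_nhds hlim
      (fun q => kh_nonneg _) (fun q => ?_)
    obtain ⟨p1, p2, p3, p4, p5⟩ := kh_mk_le q.1 q.2.1 q.2.2.1 q.2.2.2
    exact le_min p1 (le_min p2 (le_min p3 (le_min p4 p5)))

end RTree

end Pool.Agent.Helper68.BB
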