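import Mathlib

/-!
A closed set off which the space can be instantly pushed is a Z-set.
-/

namespace Pool.Agent.Helper68.BB

open Set Filter Topology Metric unitInterval

theorem zset_of_homotopy {X : Type*} [MetricSpace X] [Nonempty X] {Z : Set X}
    (H : X → ℝ → X) (hH : Continuous fun q : X × ℝ => H q.1 q.2)
    (h0 : ∀ x, H x 0 = x) (h1 : ∀ x t, 0 < t → t ≤ 1 → H x t ∉ Z)
    (U : Set X) (hU : IsOpen U) :
    ∃ e : ContinuousMap.HomotopyEquiv ↥(U \ Z) ↥U, ∀ x, ((e.toFun x : U) : X) = x := by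
  classical
  set A : Set (X × ℝ) := {q | 1 ≤ q.2} ∪ {q | 0 ≤ q.2 ∧ H q.1 q.2 ∉ U} with hA
  have hAc : IsClosed A := by
    apply IsClosed.union
    · exact isClosed_le continuous_const continuous_snd
    · apply IsClosed.inter
      · exact isClosed_le continuous_const continuous_snd
      · exact hU.isClosed_compl.preimage hH
  have hAne : A.Nonempty := ⟨(Classical.arbitrary X, 1), Or.inl (le_refl (1 : ℝ))⟩
  set ε : X → ℝ := fun x => infDist (x, (0 : ℝ)) A / 2 with hε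
  have hεc : Continuous ε :=
    ((continuous_infDist_pt A).comp (continuous_id.prodMk continuous_const)).div_const 2
  have hε1 : ∀ x, ε x ≤ 1 := by
    intro x
    have : infDist (x, (0 : ℝ)) A ≤ dist (x, (0 : ℝ)) (x, 1) :=
      infDist_le_dist_of_mem (Or.inl (le_refl (1 : ℝ)))
    have h2 : dist (x, (0 : ℝ)) (x, (1 : ℝ)) = 1 := by
      rw [Prod.dist_eq]; simp
    simp only [hε]
    linarith
  have hε0 : ∀ x ∈ U, 0 < ε x := by
    intro x hx
    have : (x, (0 : ℝ)) ∉ A := by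
      rintro (h | ⟨-, h⟩)
      · have : (1 : ℝ) ≤ 0 := h
        linarith
      · exact h (by simpa [h0] using hx)
    have := (hAc.notMem_iff_infDist_pos hAne).1 this
    simp only [hε]
    linarith
  have hεnn : ∀ x, 0 ≤ ε x := fun x => by
    simp only [hε]
    have := infDist_nonneg (x := (x, (0 : ℝ))) (s := A)
    linarith
  have hmem : ∀ x ∈ U, ∀ s, 0 ≤ s → s ≤ ε x → H x s ∈ U := by
    intro x hx s hs hs'
    by_contra hcon
    have h2 : (x, s) ∈ A := Or.inr ⟨hs, hcon⟩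
    have h3 : infDist (x, (0 : ℝ)) A ≤ dist (x, (0 : ℝ)) (x, s) := infDist_le_dist_of_mem h2
    have h4 : dist (x, (0 : ℝ)) (x, s) = s := by
      rw [Prod.dist_eq]
      simp [abs_of_nonneg hs, hs]
    have h5 := hε0 x hx
    simp only [hε] at hs' h5
    linarith
  -- the maps
  let F : C(U, ↥(U \ Z)) := ⟨fun x => ⟨H x (ε x), hmem x x.2 _ (hεnn _) le_rfl,
    h1 _ _ (hε0 x x.2) (hε1 _)⟩, by
      refine Continuous.subtype_mk ?_ _
      exact hH.comp (continuous_subtype_val.prodMk (hεc.comp continuous_subtype_val))⟩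
  let j : C(↥(U \ Z), U) := ⟨fun x => ⟨x, x.2.1⟩, by
    exact Continuous.subtype_mk continuous_subtype_val _⟩
  have hle : ∀ (t : I) (x : X), (t : ℝ) * ε x ≤ ε x := fun t x =>
    mul_le_of_le_one_left (hεnn x) t.2.2
  have hnn : ∀ (t : I) (x : X), 0 ≤ (t : ℝ) * ε x := fun t x => mul_nonneg t.2.1 (hεnn x)
  have hom1 : ContinuousMap.Homotopic (ContinuousMap.id U) (j.comp F) := by
    refine ⟨⟨⟨fun q => ⟨H q.2 ((q.1 : ℝ) * ε q.2), hmem _ q.2.2 _ (hnn _ _) (hle _ _)⟩, ?_⟩,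
      ?_, ?_⟩⟩
    · refine Continuous.subtype_mk ?_ _
      have h2 : Continuous fun q : I × U => ((q.2 : X), (q.1 : ℝ) * ε q.2) := by fun_prop
      exact hH.comp h2
    · intro x
      ext
      simp [h0]
    · intro x
      ext
      simp [j, F]
  have hom2 : ContinuousMap.Homotopic (ContinuousMap.id ↥(U \ Z)) (F.comp j) := by
    refine ⟨⟨⟨fun q => ⟨H q.2 ((q.1 : ℝ) * ε q.2), hmem _ q.2.2.1 _ (hnn _ _) (hle _ _), ?_⟩, ?_⟩,
      ?_, ?_⟩⟩
    · by_cases ht : (q.1 : ℝ) = 0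
      · rw [ht, zero_mul, h0]
        exact q.2.2.2
      · have ht' : 0 < (q.1 : ℝ) := lt_of_le_of_ne q.1.2.1 (Ne.symm ht)
        exact h1 _ _ (mul_pos ht' (hε0 _ q.2.2.1)) ((hle _ _).trans (hε1 _))
    · refine Continuous.subtype_mk ?_ _
      have h2 : Continuous fun q : I × ↥(U \ Z) => ((q.2 : X), (q.1 : ℝ) * ε q.2) := by fun_prop
      exact hH.comp h2
    · intro x
      ext
      simp [h0]
    · intro x
      ext
      simp [j, F]
  exact ⟨⟨j, F, hom2.symm, hom1.symm⟩, fun x => rfl⟩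

end Pool.Agent.Helper68.BB
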