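import Mathlib
import Pool.Agent.Helper68.BB.Mk
import Pool.Agent.Helper68.BB.ZSet

/-!
The homotopy pushing the compactification off the boundary.
-/

namespace Pool.Agent.Helper68.BB

open Set Filter Topology OnePoint

namespace RTree

section one

variable {V : Type}

/-- the points of the tree -/
def Fi (T : RTree V) : Set T.TH := {x | 0 < x.1 T.o ∧ Ht x < 1}

/-- the root end -/
noncomputable def rt (T : RTree V) : T.TH := trunc (vt T T.o) 0

lemma rt_apply (T : RTree V) (g : V) : (rt T).1 g = 0 := by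
  unfold rt
  rw [trunc_apply' _ le_rfl]
  exact min_eq_right (nonneg _ _)

end one

variable {V1 V2 : Type} {T1 : RTree V1} {T2 : RTree V2}

/-- the boundary -/
def Zb (T1 : RTree V1) (T2 : RTree V2) : Set (Xt T1 T2) := {x | ∀ w : W T1 T2, x = w → Ht w.1.1 = 1}

lemma infty_mem_Zb : (∞ : Xt T1 T2) ∈ Zb T1 T2 := fun w h => absurd h.symm (OnePoint.coe_ne_infty w)

lemma coe_mem_Zb {w : W T1 T2} : (w : Xt T1 T2) ∈ Zb T1 T2 ↔ Ht w.1.1 = 1 := by
  constructor
  · intro h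
    exact h w rfl
  · intro h w' hw'
    rw [OnePoint.coe_injective hw'] at h
    exact h

/-- the parameter determined by the heights -/
noncomputable def phJ (H K : ℝ) : ℝ := H * (1 - K) / (H * (1 - K) + K * (1 - H))

lemma phJ_pos {H K : ℝ} (h1 : 0 < H) (h2 : H < 1) (h3 : 0 < K) (h4 : K < 1) : 0 < phJ H K := by
  have h5 : 0 < 1 - K := by linarith
  have h6 : 0 < 1 - H := by linarith
  unfold phJ
  positivity

lemma one_sub_phJ {H K : ℝ} (h1 : 0 < H) (h2 : H < 1) (h3 : 0 < K) (h4 : K < 1) :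
    1 - phJ H K = K * (1 - H) / (H * (1 - K) + K * (1 - H)) := by
  have h5 : 0 < 1 - K := by linarith
  have h6 : 0 < 1 - H := by linarith
  have h7 : H * (1 - K) + K * (1 - H) ≠ 0 := by positivity
  unfold phJ
  rw [eq_div_iff h7, sub_mul, div_mul_cancel₀ _ h7]
  ring

lemma phJ_lt_one {H K : ℝ} (h1 : 0 < H) (h2 : H < 1) (h3 : 0 < K) (h4 : K < 1) : phJ H K < 1 := by
  have h5 : 0 < 1 - K := by linarith
  have h6 : 0 < 1 - H := by linarith
  have h := one_sub_phJ h1 h2 h3 h4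
  have : 0 < K * (1 - H) / (H * (1 - K) + K * (1 - H)) := by positivity
  linarith

lemma phJ_eq {H K φ : ℝ} (h1 : 0 < H) (h2 : H < 1) (h3 : 0 < K) (h4 : K < 1)
    (h : (1 - φ) * H * (1 - K) = φ * K * (1 - H)) : phJ H K = φ := by
  have h5 : 0 < 1 - K := by linarith
  have h6 : 0 < 1 - H := by linarith
  have h7 : H * (1 - K) + K * (1 - H) ≠ 0 := by positivity
  unfold phJ
  rw [div_eq_iff h7]
  linarith

lemma J_mem {x : T1.TH} {y : T2.TH} (hx : x ∈ Fi T1) (hy : y ∈ Fi T2) :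
    (x, y, phJ (Ht x) (Ht y)) ∈ Wset T1 T2 := by
  have h1 := Ht_pos hx.1
  have h3 := Ht_pos hy.1
  have h2 := hx.2
  have h4 := hy.2
  refine ⟨hx.1, hy.1, phJ_pos h1 h2 h3 h4, phJ_lt_one h1 h2 h3 h4, ?_⟩
  simp only
  rw [one_sub_phJ h1 h2 h3 h4]
  unfold phJ
  ring

open Classical in
/-- inclusion of the product of the trees -/
noncomputable def J (x : T1.TH) (y : T2.TH) : Xt T1 T2 :=
  if h : x ∈ Fi T1 ∧ y ∈ Fi T2 then ((⟨_, J_mem h.1 h.2⟩ : W T1 T2) : Xt T1 T2) else ∞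

lemma J_good {x : T1.TH} {y : T2.TH} (hx : x ∈ Fi T1) (hy : y ∈ Fi T2) :
    J x y = ((⟨_, J_mem hx hy⟩ : W T1 T2) : Xt T1 T2) := dif_pos ⟨hx, hy⟩

lemma kh_J_le (x : T1.TH) (y : T2.TH) : kh (J x y) ≤ x.1 T1.o ∧ kh (J x y) ≤ y.1 T2.o := by
  by_cases h : x ∈ Fi T1 ∧ y ∈ Fi T2
  · rw [J_good h.1 h.2, kh_coe]
    have h1 := phJ_pos (Ht_pos h.1.1) h.1.2 (Ht_pos h.2.1) h.2.2
    have h2 := phJ_lt_one (Ht_pos h.1.1) h.1.2 (Ht_pos h.2.1) h.2.2
    obtain ⟨p1, p2, -, -⟩ := prod_le (a := x.1 T1.o) (b := y.1 T2.o) (c := phJ (Ht x) (Ht y))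
      (d := 1 - phJ (Ht x) (Ht y)) (nonneg _ _) (nonneg _ _) h1.le (by linarith)
      (lt_one x _).le (lt_one y _).le h2.le (by linarith)
    exact ⟨p1, p2⟩
  · have : J x y = ∞ := dif_neg h
    rw [this]
    exact ⟨nonneg _ _, nonneg _ _⟩

lemma J_notMem {x : T1.TH} {y : T2.TH} (hx : x ∈ Fi T1) (hy : y ∈ Fi T2) : J x y ∉ Zb T1 T2 := by
  rw [J_good hx hy, coe_mem_Zb]
  exact hx.2.ne

lemma eventually_Fi {x : T1.TH} (hx : x ∈ Fi T1) : ∀ᶠ x' in 𝓝 x, x' ∈ Fi T1 := by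
  filter_upwards [(continuous_coord T1.o).continuousAt.eventually (lt_mem_nhds hx.1),
    (continuousAt_Ht hx.1).eventually (gt_mem_nhds hx.2)] with x' h1 h2
  exact ⟨h1, h2⟩

lemma continuousAt_J {x : T1.TH} {y : T2.TH} (hx : x ∈ Fi T1) (hy : y ∈ Fi T2) :
    ContinuousAt (fun q : T1.TH × T2.TH => J q.1 q.2) (x, y) := by
  apply continuousAt_of_W (g := fun q : T1.TH × T2.TH => (q.1, q.2, phJ (Ht q.1) (Ht q.2)))
  · have e1 : ContinuousAt (fun q : T1.TH × T2.TH => Ht q.1) (x, y) :=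
      ContinuousAt.comp (f := fun q : T1.TH × T2.TH => q.1) (continuousAt_Ht hx.1) continuousAt_fst
    have e2 : ContinuousAt (fun q : T1.TH × T2.TH => Ht q.2) (x, y) :=
      ContinuousAt.comp (f := fun q : T1.TH × T2.TH => q.2) (continuousAt_Ht hy.1) continuousAt_snd
    refine continuousAt_fst.prodMk (continuousAt_snd.prodMk ?_)
    unfold phJ
    refine (e1.mul (continuousAt_const.sub e2)).div ((e1.mul (continuousAt_const.sub e2)).add
      (e2.mul (continuousAt_const.sub e1))) ?_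
    have h1 := Ht_pos hx.1
    have h3 := Ht_pos hy.1
    have h2 : 0 < 1 - Ht x := by linarith [hx.2]
    have h4 : 0 < 1 - Ht y := by linarith [hy.2]
    have : 0 < Ht x * (1 - Ht y) + Ht y * (1 - Ht x) := by positivity
    exact this.ne'
  · have h1 : ∀ᶠ q : T1.TH × T2.TH in 𝓝 (x, y), q.1 ∈ Fi T1 :=
      continuousAt_fst.eventually (eventually_Fi hx)
    have h2 : ∀ᶠ q : T1.TH × T2.TH in 𝓝 (x, y), q.2 ∈ Fi T2 :=
      continuousAt_snd.eventually (eventually_Fi hy)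
    filter_upwards [h1, h2] with q q1 q2
    exact ⟨J_mem q1 q2, J_good q1 q2⟩

/-- first coordinate of the pushed point (before pushing off the root end) -/
noncomputable def A1 : Xt T1 T2 → ℝ → T1.TH
  | ∞ => fun _ => rt T1
  | (w : W T1 T2) => fun t => trunc w.1.1 (lev (kap w / (kap w + t)) w.1.2.2)

/-- second coordinate -/
noncomputable def A2 : Xt T1 T2 → ℝ → T2.TH
  | ∞ => fun _ => rt T2
  | (w : W T1 T2) => fun t => trunc w.1.2.1 (lev (kap w / (kap w + t)) (1 - w.1.2.2))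

@[simp] lemma A1_coe (w : W T1 T2) (t : ℝ) :
    A1 (w : Xt T1 T2) t = trunc w.1.1 (lev (kap w / (kap w + t)) w.1.2.2) := rfl
@[simp] lemma A2_coe (w : W T1 T2) (t : ℝ) :
    A2 (w : Xt T1 T2) t = trunc w.1.2.1 (lev (kap w / (kap w + t)) (1 - w.1.2.2)) := rfl
@[simp] lemma A1_infty (t : ℝ) : A1 (∞ : Xt T1 T2) t = rt T1 := rfl
@[simp] lemma A2_infty (t : ℝ) : A2 (∞ : Xt T1 T2) t = rt T2 := rfl

lemma ratio_mem (w : W T1 T2) {t : ℝ} (ht : 0 < t) :
    0 < kap w / (kap w + t) ∧ kap w / (kap w + t) < 1 := by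
  have h := kap_pos w
  constructor
  · positivity
  · rw [div_lt_one (by positivity)]; linarith

lemma A1_le (x : Xt T1 T2) {t : ℝ} (ht : 0 < t) (g : V1) : (A1 x t).1 g ≤ kh x / (kh x + t) := by
  induction x using OnePoint.rec with
  | infty =>
    rw [A1_infty, rt_apply, kh_infty]
    simp
  | coe w =>
    obtain ⟨-, -, h3, h4, -⟩ := w.2
    obtain ⟨r0, r1⟩ := ratio_mem w ht
    rw [A1_coe, kh_coe, trunc_apply' _ (lev_nonneg h3 h4 r0.le r1.le)]
    exact (min_le_right _ _).trans (lev_le h3 h4 r0.le r1.le)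

lemma A2_le (x : Xt T1 T2) {t : ℝ} (ht : 0 < t) (g : V2) : (A2 x t).1 g ≤ kh x / (kh x + t) := by
  induction x using OnePoint.rec with
  | infty =>
    rw [A2_infty, rt_apply, kh_infty]
    simp
  | coe w =>
    obtain ⟨-, -, h3, h4, -⟩ := w.2
    obtain ⟨r0, r1⟩ := ratio_mem w ht
    rw [A2_coe, kh_coe, trunc_apply' _ (lev_nonneg (φ := 1 - w.1.2.2) (by linarith) (by linarith)
      r0.le r1.le)]
    exact (min_le_right _ _).trans (lev_le (φ := 1 - w.1.2.2) (by linarith) (by linarith)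
      r0.le r1.le)

lemma Ht_A1_lt (x : Xt T1 T2) {t : ℝ} (ht : 0 < t) : Ht (A1 x t) < 1 := by
  refine (Ht_le (A1_le x ht)).trans_lt ?_
  have := kh_nonneg x
  rw [div_lt_one (by linarith)]; linarith

lemma Ht_A2_lt (x : Xt T1 T2) {t : ℝ} (ht : 0 < t) : Ht (A2 x t) < 1 := by
  refine (Ht_le (A2_le x ht)).trans_lt ?_
  have := kh_nonneg x
  rw [div_lt_one (by linarith)]; linarith

lemma continuousAt_A1 (x : Xt T1 T2) {t : ℝ} (ht : 0 < t) :
    ContinuousAt (fun q : Xt T1 T2 × ℝ => A1 q.1 q.2) (x, t) := by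
  induction x using OnePoint.rec with
  | coe w =>
    have he : IsOpenEmbedding (Prod.map ((↑) : W T1 T2 → Xt T1 T2) (id : ℝ → ℝ)) :=
      OnePoint.isOpenEmbedding_coe.prodMap IsOpenEmbedding.id
    have := (he.continuousAt_iff (f := Prod.map ((↑) : W T1 T2 → Xt T1 T2) (id : ℝ → ℝ))
      (g := fun q : Xt T1 T2 × ℝ => A1 q.1 q.2) (x := (w, t))).1
    refine this ?_
    show ContinuousAt (fun q : W T1 T2 × ℝ =>
      trunc q.1.1.1 (lev (kap q.1 / (kap q.1 + q.2)) q.1.1.2.2)) (w, t)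
    obtain ⟨-, -, h3, h4, -⟩ := w.2
    obtain ⟨r0, r1⟩ := ratio_mem w ht
    have hd := lev_den h3 h4 r1.le
    have c1 : ContinuousAt (fun q : W T1 T2 × ℝ => q.1.1.1) (w, t) :=
      (continuous_fst.comp (continuous_subtype_val.comp continuous_fst)).continuousAt
    have c2 : ContinuousAt (fun q : W T1 T2 × ℝ => q.1.1.2.2) (w, t) :=
      (continuous_snd.comp (continuous_snd.comp
        (continuous_subtype_val.comp continuous_fst))).continuousAt
    have c3 : ContinuousAt (fun q : W T1 T2 × ℝ => kap q.1) (w, t) :=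
      (continuous_kap.comp continuous_fst).continuousAt
    have c4 : ContinuousAt (fun q : W T1 T2 × ℝ => kap q.1 / (kap q.1 + q.2)) (w, t) := by
      refine c3.div (c3.add continuousAt_snd) ?_
      have := kap_pos w
      show kap w + t ≠ 0
      positivity
    have c5 : ContinuousAt (fun q : W T1 T2 × ℝ => lev (kap q.1 / (kap q.1 + q.2)) q.1.1.2.2)
        (w, t) := by
      unfold lev
      refine (c4.mul c2).div (continuousAt_const.sub (c4.mul (continuousAt_const.sub c2))) ?_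
      show 1 - kap w / (kap w + t) * (1 - w.1.2.2) ≠ 0
      linarith
    exact ContinuousAt.comp (f := fun q : W T1 T2 × ℝ =>
      (q.1.1.1, lev (kap q.1 / (kap q.1 + q.2)) q.1.1.2.2))
      (continuous_trunc (T := T1)).continuousAt (c1.prodMk c5)
  | infty =>
    rw [ContinuousAt, tendsto_subtype_rng, tendsto_pi_nhds]
    intro g
    simp only [A1_infty, rt_apply]
    have h1 : Tendsto (fun q : Xt T1 T2 × ℝ => kh q.1 / (kh q.1 + q.2)) (𝓝 (∞, t)) (𝓝 0) := by
      have hk : Tendsto (fun q : Xt T1 T2 × ℝ => kh q.1) (𝓝 (∞, t)) (𝓝 0) :=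
        (continuous_kh.comp continuous_fst).tendsto' _ _ rfl
      have : Tendsto (fun q : Xt T1 T2 × ℝ => kh q.1 / (kh q.1 + q.2)) (𝓝 (∞, t))
          (𝓝 (0 / (0 + t))) :=
        hk.div (hk.add (continuous_snd.tendsto (∞, t))) (by simpa using ht.ne')
      simpa using this
    apply tendsto_of_tendsto_of_tendsto_of_le_of_le' tendsto_const_nhds h1
    · exact Eventually.of_forall fun q => nonneg _ _
    · filter_upwards [continuousAt_snd.eventually (lt_mem_nhds ht)] with q hq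
      exact A1_le q.1 hq g

lemma continuousAt_A2 (x : Xt T1 T2) {t : ℝ} (ht : 0 < t) :
    ContinuousAt (fun q : Xt T1 T2 × ℝ => A2 q.1 q.2) (x, t) := by
  induction x using OnePoint.rec with
  | coe w =>
    have he : IsOpenEmbedding (Prod.map ((↑) : W T1 T2 → Xt T1 T2) (id : ℝ → ℝ)) :=
      OnePoint.isOpenEmbedding_coe.prodMap IsOpenEmbedding.id
    have := (he.continuousAt_iff (f := Prod.map ((↑) : W T1 T2 → Xt T1 T2) (id : ℝ → ℝ))
      (g := fun q : Xt T1 T2 × ℝ => A2 q.1 q.2) (x := (w, t))).1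
    refine this ?_
    show ContinuousAt (fun q : W T1 T2 × ℝ =>
      trunc q.1.1.2.1 (lev (kap q.1 / (kap q.1 + q.2)) (1 - q.1.1.2.2))) (w, t)
    obtain ⟨-, -, h3, h4, -⟩ := w.2
    obtain ⟨r0, r1⟩ := ratio_mem w ht
    have hd := lev_den (φ := 1 - w.1.2.2) (by linarith) (by linarith) r1.le
    have c1 : ContinuousAt (fun q : W T1 T2 × ℝ => q.1.1.2.1) (w, t) :=
      (continuous_fst.comp (continuous_snd.comp
        (continuous_subtype_val.comp continuous_fst))).continuousAt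
    have c2 : ContinuousAt (fun q : W T1 T2 × ℝ => 1 - q.1.1.2.2) (w, t) :=
      (continuous_const.sub (continuous_snd.comp (continuous_snd.comp
        (continuous_subtype_val.comp continuous_fst)))).continuousAt
    have c3 : ContinuousAt (fun q : W T1 T2 × ℝ => kap q.1) (w, t) :=
      (continuous_kap.comp continuous_fst).continuousAt
    have c4 : ContinuousAt (fun q : W T1 T2 × ℝ => kap q.1 / (kap q.1 + q.2)) (w, t) := by
      refine c3.div (c3.add continuousAt_snd) ?_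
      have := kap_pos w
      show kap w + t ≠ 0
      positivity
    have c5 : ContinuousAt (fun q : W T1 T2 × ℝ => lev (kap q.1 / (kap q.1 + q.2)) (1 - q.1.1.2.2))
        (w, t) := by
      unfold lev
      refine (c4.mul c2).div (continuousAt_const.sub (c4.mul (continuousAt_const.sub c2))) ?_
      show 1 - kap w / (kap w + t) * (1 - (1 - w.1.2.2)) ≠ 0
      linarith
    exact ContinuousAt.comp (f := fun q : W T1 T2 × ℝ =>
      (q.1.1.2.1, lev (kap q.1 / (kap q.1 + q.2)) (1 - q.1.1.2.2)))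
      (continuous_trunc (T := T2)).continuousAt (c1.prodMk c5)
  | infty =>
    rw [ContinuousAt, tendsto_subtype_rng, tendsto_pi_nhds]
    intro g
    simp only [A2_infty, rt_apply]
    have h1 : Tendsto (fun q : Xt T1 T2 × ℝ => kh q.1 / (kh q.1 + q.2)) (𝓝 (∞, t)) (𝓝 0) := by
      have hk : Tendsto (fun q : Xt T1 T2 × ℝ => kh q.1) (𝓝 (∞, t)) (𝓝 0) :=
        (continuous_kh.comp continuous_fst).tendsto' _ _ rfl
      have : Tendsto (fun q : Xt T1 T2 × ℝ => kh q.1 / (kh q.1 + q.2)) (𝓝 (∞, t))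
          (𝓝 (0 / (0 + t))) :=
        hk.div (hk.add (continuous_snd.tendsto (∞, t))) (by simpa using ht.ne')
      simpa using this
    apply tendsto_of_tendsto_of_tendsto_of_le_of_le' tendsto_const_nhds h1
    · exact Eventually.of_forall fun q => nonneg _ _
    · filter_upwards [continuousAt_snd.eventually (lt_mem_nhds ht)] with q hq
      exact A2_le q.1 hq g

/-- the homotopy for positive times -/
noncomputable def Hp (x : Xt T1 T2) (t : Ioi (0 : ℝ)) : Xt T1 T2 :=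
  J (PT (A1 x t) t) (PT (A2 x t) t)

lemma mem1 (x : Xt T1 T2) (t : Ioi (0 : ℝ)) : PT (A1 x t) t ∈ Fi T1 :=
  ⟨PT_o_pos _ _, Ht_PT_lt (Ht_A1_lt x t.2) t⟩

lemma mem2 (x : Xt T1 T2) (t : Ioi (0 : ℝ)) : PT (A2 x t) t ∈ Fi T2 :=
  ⟨PT_o_pos _ _, Ht_PT_lt (Ht_A2_lt x t.2) t⟩

lemma Hp_notMem (x : Xt T1 T2) (t : Ioi (0 : ℝ)) : Hp x t ∉ Zb T1 T2 :=
  J_notMem (mem1 x t) (mem2 x t)

lemma continuous_Hp : Continuous (fun q : Xt T1 T2 × Ioi (0 : ℝ) => Hp q.1 q.2) := by
  rw [continuous_iff_continuousAt]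
  rintro ⟨x, t⟩
  have i1 : ContinuousAt (fun q : Xt T1 T2 × Ioi (0 : ℝ) => (q.1, (q.2 : ℝ))) (x, t) :=
    (continuous_fst.prodMk (continuous_subtype_val.comp continuous_snd)).continuousAt
  have c1 : ContinuousAt (fun q : Xt T1 T2 × Ioi (0 : ℝ) => A1 q.1 q.2) (x, t) :=
    ContinuousAt.comp (f := fun q : Xt T1 T2 × Ioi (0 : ℝ) => (q.1, (q.2 : ℝ)))
      (g := fun q : Xt T1 T2 × ℝ => A1 q.1 q.2) (continuousAt_A1 x t.2) i1
  have c2 : ContinuousAt (fun q : Xt T1 T2 × Ioi (0 : ℝ) => A2 q.1 q.2) (x, t) :=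
    ContinuousAt.comp (f := fun q : Xt T1 T2 × Ioi (0 : ℝ) => (q.1, (q.2 : ℝ)))
      (g := fun q : Xt T1 T2 × ℝ => A2 q.1 q.2) (continuousAt_A2 x t.2) i1
  have d1 : ContinuousAt (fun q : Xt T1 T2 × Ioi (0 : ℝ) => PT (A1 q.1 q.2) q.2) (x, t) :=
    ContinuousAt.comp (f := fun q : Xt T1 T2 × Ioi (0 : ℝ) => (A1 q.1 q.2, q.2))
      continuous_PT.continuousAt (c1.prodMk continuousAt_snd)
  have d2 : ContinuousAt (fun q : Xt T1 T2 × Ioi (0 : ℝ) => PT (A2 q.1 q.2) q.2) (x, t) :=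
    ContinuousAt.comp (f := fun q : Xt T1 T2 × Ioi (0 : ℝ) => (A2 q.1 q.2, q.2))
      continuous_PT.continuousAt (c2.prodMk continuousAt_snd)
  exact ContinuousAt.comp (f := fun q : Xt T1 T2 × Ioi (0 : ℝ) =>
    (PT (A1 q.1 q.2) q.2, PT (A2 q.1 q.2) q.2)) (continuousAt_J (mem1 x t) (mem2 x t))
    (d1.prodMk d2)

open Classical in
/-- the homotopy -/
noncomputable def HH (x : Xt T1 T2) (t : ℝ) : Xt T1 T2 := if h : 0 < t then Hp x ⟨t, h⟩ else x

lemma HH_pos (x : Xt T1 T2) {t : ℝ} (h : 0 < t) : HH x t = Hp x ⟨t, h⟩ := dif_pos h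
lemma HH_nonpos (x : Xt T1 T2) {t : ℝ} (h : t ≤ 0) : HH x t = x := dif_neg (not_lt.2 h)

lemma J_trunc (w : W T1 T2) {ρ : ℝ} (h0 : 0 < ρ) (h1 : ρ < 1) :
    J (trunc w.1.1 (lev ρ w.1.2.2)) (trunc w.1.2.1 (lev ρ (1 - w.1.2.2))) =
      mkw w.1.1 w.1.2.1 w.1.2.2 ρ := by
  obtain ⟨⟨x, y, φ⟩, w1, w2, w3, w4, w5⟩ := w
  simp only at w1 w2 w3 w4 w5 ⊢
  have g : good x y φ ρ := ⟨w1, w2, w3, w4, h0⟩
  have l1 := lev_pos w3 w4 h0 h1.le
  have l2 := lev_pos (φ := 1 - φ) (by linarith) (by linarith) h0 h1.le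
  have l3 := lev_lt_one w3 w4 h0.le h1
  have l4 := lev_lt_one (φ := 1 - φ) (by linarith) (by linarith) h0.le h1
  have hx : trunc x (lev ρ φ) ∈ Fi T1 := by
    constructor
    · rw [trunc_apply' _ l1.le]; exact lt_min w1 l1
    · rw [Ht_trunc _ l1.le]; exact (min_le_right _ _).trans_lt l3
  have hy : trunc y (lev ρ (1 - φ)) ∈ Fi T2 := by
    constructor
    · rw [trunc_apply' _ l2.le]; exact lt_min w2 l2
    · rw [Ht_trunc _ l2.le]; exact (min_le_right _ _).trans_lt l4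
  have e := rh_eq w3 w4 (Ht_pos w1) (Ht_pos w2) w5
  rw [J_good hx hy, mk_good g]
  congr 1
  apply Subtype.ext
  show (trunc x _, trunc y _, _) = (trunc x _, trunc y _, φ)
  rcases le_total ρ (rh (Ht x) φ) with hle | hle
  · -- truncation below the heights
    have hr : rr x y φ ρ = ρ := by
      unfold rr
      rw [← e, min_self]
      exact min_eq_left hle
    have a1 : lev ρ φ ≤ Ht x := (lev_le_iff w3 w4 h1.le (Ht_pos w1)).2 hle
    have a2 : lev ρ (1 - φ) ≤ Ht y := by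
      rw [lev_le_iff (by linarith) (by linarith) h1.le (Ht_pos w2), ← e]; exact hle
    rw [hr, Ht_trunc _ l1.le, Ht_trunc _ l2.le, min_eq_right a1, min_eq_right a2]
    rw [phJ_eq l1 l3 l2 l4 (lev_rel w3 w4 h0.le h1.le)]
  · have hr : rr x y φ ρ = rh (Ht x) φ := by
      unfold rr
      rw [← e, min_self]
      exact min_eq_right hle
    have hr' : rr x y φ ρ = rh (Ht y) (1 - φ) := by rw [hr, e]
    have e1 : lev (rh (Ht x) φ) φ = Ht x := lev_rh w3 w4 (Ht_pos w1) (Ht_le_one x)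
    have e2 : lev (rh (Ht y) (1 - φ)) (1 - φ) = Ht y :=
      lev_rh (by linarith) (by linarith) (Ht_pos w2) (Ht_le_one y)
    have a1 : Ht x ≤ lev ρ φ := by
      rw [← e1]
      exact lev_mono w3 w4 hle h1.le
    have a2 : Ht y ≤ lev ρ (1 - φ) := by
      rw [← e2]
      rw [e] at hle
      exact lev_mono (φ := 1 - φ) (by linarith) (by linarith) hle h1.le
    have t1 : trunc x (lev ρ φ) = x := trunc_Ht x a1
    have t2 : trunc y (lev ρ (1 - φ)) = y := trunc_Ht y a2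
    have t3 : trunc x (lev (rr x y φ ρ) φ) = x := trunc_Ht x (by rw [hr, e1])
    have t4 : trunc y (lev (rr x y φ ρ) (1 - φ)) = y := trunc_Ht y (by rw [hr', e2])
    rw [t1, t2, t3, t4]
    rw [phJ_eq (Ht_pos w1) (a1.trans_lt l3) (Ht_pos w2) (a2.trans_lt l4) w5]

lemma Hp_eq (w : W T1 T2) (t : Ioi (0 : ℝ)) (h1 : 2 * (t : ℝ) ≤ (A1 (w : Xt T1 T2) t).1 T1.o)
    (h2 : 2 * (t : ℝ) ≤ (A2 (w : Xt T1 T2) t).1 T2.o) :
    Hp (w : Xt T1 T2) t = mkw w.1.1 w.1.2.1 w.1.2.2 (kap w / (kap w + t)) := by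
  obtain ⟨r0, r1⟩ := ratio_mem w t.2
  unfold Hp
  rw [PT_eq_self h1, PT_eq_self h2]
  exact J_trunc w r0 r1

lemma kh_Hp_le (x : Xt T1 T2) (t : Ioi (0 : ℝ)) : kh (Hp x t) ≤ max (kh x) (2 * (t : ℝ)) := by
  have ht : (0 : ℝ) < t := t.2
  by_cases h1 : 2 * (t : ℝ) ≤ (A1 x t).1 T1.o
  · by_cases h2 : 2 * (t : ℝ) ≤ (A2 x t).1 T2.o
    · induction x using OnePoint.rec with
      | infty =>
        rw [A1_infty, rt_apply] at h1
        linarith
      | coe w =>
        rw [Hp_eq w t h1 h2]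
        refine (kh_mk_mono _ _ _ _).trans ?_
        rw [mk_self]
        exact le_max_left _ _
    · push Not at h2
      refine le_max_of_le_right ((kh_J_le _ _).2.trans ((PT_o_le _ _).trans ?_))
      exact max_le h2.le (by linarith)
  · push Not at h1
    refine le_max_of_le_right ((kh_J_le _ _).1.trans ((PT_o_le _ _).trans ?_))
    exact max_le h1.le (by linarith)

lemma continuousAt_HH_zero_coe (w : W T1 T2) :
    ContinuousAt (fun q : Xt T1 T2 × ℝ => HH q.1 q.2) ((w : Xt T1 T2), (0 : ℝ)) := by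
  have he : IsOpenEmbedding (Prod.map ((↑) : W T1 T2 → Xt T1 T2) (id : ℝ → ℝ)) :=
    OnePoint.isOpenEmbedding_coe.prodMap IsOpenEmbedding.id
  have := (he.continuousAt_iff (f := Prod.map ((↑) : W T1 T2 → Xt T1 T2) (id : ℝ → ℝ))
    (g := fun q : Xt T1 T2 × ℝ => HH q.1 q.2) (x := (w, (0 : ℝ)))).1
  refine this ?_
  obtain ⟨w1, w2, w3, w4, w5⟩ := id w.2
  have hk := kap_pos w
  have c1 : ContinuousAt (fun q : W T1 T2 × ℝ => q.1.1.1) (w, (0 : ℝ)) :=
    (continuous_fst.comp (continuous_subtype_val.comp continuous_fst)).continuousAt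
  have c1' : ContinuousAt (fun q : W T1 T2 × ℝ => q.1.1.2.1) (w, (0 : ℝ)) :=
    (continuous_fst.comp (continuous_snd.comp
      (continuous_subtype_val.comp continuous_fst))).continuousAt
  have c2 : ContinuousAt (fun q : W T1 T2 × ℝ => q.1.1.2.2) (w, (0 : ℝ)) :=
    (continuous_snd.comp (continuous_snd.comp
      (continuous_subtype_val.comp continuous_fst))).continuousAt
  have c3 : ContinuousAt (fun q : W T1 T2 × ℝ => kap q.1) (w, (0 : ℝ)) :=
    (continuous_kap.comp continuous_fst).continuousAt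
  have c4 : ContinuousAt (fun q : W T1 T2 × ℝ => kap q.1 / (kap q.1 + max q.2 0)) (w, (0 : ℝ)) := by
    refine c3.div (c3.add (continuousAt_snd.max continuousAt_const)) ?_
    show kap w + max 0 0 ≠ 0
    rw [max_self, add_zero]
    exact hk.ne'
  have v4 : kap w / (kap w + max 0 0) = 1 := by
    rw [max_self, add_zero, div_self hk.ne']
  have c5 : ContinuousAt (fun q : W T1 T2 × ℝ =>
      lev (kap q.1 / (kap q.1 + max q.2 0)) q.1.1.2.2) (w, (0 : ℝ)) := by
    unfold lev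
    refine (c4.mul c2).div (continuousAt_const.sub (c4.mul (continuousAt_const.sub c2))) ?_
    show 1 - kap w / (kap w + max 0 0) * (1 - w.1.2.2) ≠ 0
    rw [v4]
    linarith
  have c6 : ContinuousAt (fun q : W T1 T2 × ℝ =>
      lev (kap q.1 / (kap q.1 + max q.2 0)) (1 - q.1.1.2.2)) (w, (0 : ℝ)) := by
    unfold lev
    refine (c4.mul (continuousAt_const.sub c2)).div (continuousAt_const.sub
      (c4.mul (continuousAt_const.sub (continuousAt_const.sub c2)))) ?_
    show 1 - kap w / (kap w + max 0 0) * (1 - (1 - w.1.2.2)) ≠ 0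
    rw [v4]
    linarith
  have c7 : ContinuousAt (fun q : W T1 T2 × ℝ => q.1.1.1.1 T1.o) (w, (0 : ℝ)) :=
    (continuous_coord T1.o).continuousAt.comp c1
  have c8 : ContinuousAt (fun q : W T1 T2 × ℝ => q.1.1.2.1.1 T2.o) (w, (0 : ℝ)) :=
    (continuous_coord T2.o).continuousAt.comp c1'
  -- the limit function
  have m : ContinuousAt (fun q : W T1 T2 × ℝ => mkw q.1.1.1 q.1.1.2.1 q.1.1.2.2
      (kap q.1 / (kap q.1 + max q.2 0))) (w, (0 : ℝ)) :=
    ContinuousAt.comp (f := fun q : W T1 T2 × ℝ => (q.1.1.1, q.1.1.2.1, q.1.1.2.2,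
      kap q.1 / (kap q.1 + max q.2 0))) (continuous_mk (T1 := T1) (T2 := T2)).continuousAt
      (c1.prodMk (c1'.prodMk (c2.prodMk c4)))
  refine m.congr ?_
  -- eventual equality
  have n1 : ∀ᶠ q : W T1 T2 × ℝ in 𝓝 (w, (0 : ℝ)), 2 * q.2 < q.1.1.1.1 T1.o := by
    apply ContinuousAt.eventually_lt (continuousAt_const.mul continuousAt_snd) c7
    simpa using w1
  have n2 : ∀ᶠ q : W T1 T2 × ℝ in 𝓝 (w, (0 : ℝ)), 2 * q.2 < q.1.1.2.1.1 T2.o := by
    apply ContinuousAt.eventually_lt (continuousAt_const.mul continuousAt_snd) c8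
    simpa using w2
  have n3 : ∀ᶠ q : W T1 T2 × ℝ in 𝓝 (w, (0 : ℝ)),
      2 * q.2 < lev (kap q.1 / (kap q.1 + max q.2 0)) q.1.1.2.2 := by
    apply ContinuousAt.eventually_lt (continuousAt_const.mul continuousAt_snd) c5
    show 2 * (0 : ℝ) < lev (kap w / (kap w + max 0 0)) w.1.2.2
    rw [v4, lev_one w3]; norm_num
  have n4 : ∀ᶠ q : W T1 T2 × ℝ in 𝓝 (w, (0 : ℝ)),
      2 * q.2 < lev (kap q.1 / (kap q.1 + max q.2 0)) (1 - q.1.1.2.2) := by
    apply ContinuousAt.eventually_lt (continuousAt_const.mul continuousAt_snd) c6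
    show 2 * (0 : ℝ) < lev (kap w / (kap w + max 0 0)) (1 - w.1.2.2)
    rw [v4, lev_one (by linarith)]; norm_num
  filter_upwards [n1, n2, n3, n4] with q q1 q2 q3 q4
  show mkw q.1.1.1 q.1.1.2.1 q.1.1.2.2 (kap q.1 / (kap q.1 + max q.2 0)) = HH (q.1 : Xt T1 T2) q.2
  rcases le_or_gt q.2 0 with h | h
  · rw [HH_nonpos _ h, max_eq_right h, add_zero, div_self (kap_pos q.1).ne', mk_self]
  · rw [max_eq_left h.le] at q3 q4 ⊢
    rw [HH_pos _ h, Hp_eq q.1 ⟨q.2, h⟩]
    · rw [A1_coe, trunc_apply' _ (by linarith)]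
      exact le_min q1.le q3.le
    · rw [A2_coe, trunc_apply' _ (by linarith)]
      exact le_min q2.le q4.le

lemma kh_HH_le (x : Xt T1 T2) (t : ℝ) : kh (HH x t) ≤ max (kh x) (2 * t) := by
  rcases le_or_gt t 0 with h | h
  · rw [HH_nonpos _ h]; exact le_max_left _ _
  · rw [HH_pos _ h]; exact kh_Hp_le x ⟨t, h⟩

theorem continuous_HH : Continuous (fun q : Xt T1 T2 × ℝ => HH q.1 q.2) := by
  rw [continuous_iff_continuousAt]
  rintro ⟨x, t⟩
  rcases lt_trichotomy t 0 with h | h | h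
  · refine ContinuousAt.congr continuousAt_fst ?_
    filter_upwards [continuousAt_snd.eventually (gt_mem_nhds h)] with q hq
    exact (HH_nonpos q.1 (le_of_lt hq)).symm
  · subst h
    induction x using OnePoint.rec with
    | coe w => exact continuousAt_HH_zero_coe w
    | infty =>
      refine continuousAt_of_infty (f := fun q : Xt T1 T2 × ℝ => HH q.1 q.2)
        (HH_nonpos _ le_rfl) ?_
      have h1 : Tendsto (fun q : Xt T1 T2 × ℝ => max (kh q.1) (2 * q.2)) (𝓝 (∞, (0 : ℝ))) (𝓝 0) := by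
        have : Continuous (fun q : Xt T1 T2 × ℝ => max (kh q.1) (2 * q.2)) :=
          (continuous_kh.comp continuous_fst).max (continuous_const.mul continuous_snd)
        exact this.tendsto' _ _ (by simp)
      exact squeeze_zero (fun _ => kh_nonneg _) (fun q => kh_HH_le q.1 q.2) h1
  · have he : IsOpenEmbedding (Prod.map (id : Xt T1 T2 → Xt T1 T2) ((↑) : Ioi (0 : ℝ) → ℝ)) :=
      IsOpenEmbedding.id.prodMap isOpen_Ioi.isOpenEmbedding_subtypeVal
    have := (he.continuousAt_iff (f := Prod.map (id : Xt T1 T2 → Xt T1 T2) ((↑) : Ioi (0 : ℝ) → ℝ))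
      (g := fun q : Xt T1 T2 × ℝ => HH q.1 q.2) (x := (x, ⟨t, h⟩))).1
    refine this ?_
    refine (continuous_Hp.continuousAt (x := (x, ⟨t, h⟩))).congr ?_
    filter_upwards with q
    exact (HH_pos q.1 q.2.2).symm

theorem HH_zero (x : Xt T1 T2) : HH x 0 = x := HH_nonpos x le_rfl

theorem HH_notMem (x : Xt T1 T2) (t : ℝ) (h : 0 < t) : HH x t ∉ Zb T1 T2 := by
  rw [HH_pos x h]
  exact Hp_notMem x _

end RTree

end Pool.Agent.Helper68.BB
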