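import Mathlib
import Pool.Agent.Helper68.BB.ZH

/-!
Interface: the properties of the action of a group on a tree that are used.
-/

namespace Pool.Agent.Helper68.BB

open Set Filter Topology

namespace RTree

/-- real height in `(0,∞)` -/
noncomputable def hh {V : Type} {T : RTree V} (x : T.TH) : ℝ := Ht x / (1 - Ht x)

/-- the properties of the action of a group on a tree that are used -/
structure GoodAction (Γ : Type) [Group Γ] {V : Type} (T : RTree V) [MulAction Γ ↥(Fi T)] : Prop where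
  cont : ∀ γ : Γ, Continuous (fun x : ↥(Fi T) => γ • x)
  cov : ∀ x : ↥(Fi T), ∃ U : Set ↥(Fi T), IsOpen U ∧ x ∈ U ∧ ∀ γ : Γ, γ ≠ 1 → ∀ y ∈ U, γ • y ∉ U
  cocpt : ∃ K : Set ↥(Fi T), IsCompact K ∧ ∀ x : ↥(Fi T), ∃ γ : Γ, γ • x ∈ K
  n1 : ∀ K : Set ↥(Fi T), IsCompact K → ∀ (g : V) (ε : ℝ), 0 < ε →
    {γ : Γ | ¬ ∀ x ∈ K, ∀ x' ∈ K, |(γ • x : ↥(Fi T)).1.1 g - (γ • x' : ↥(Fi T)).1.1 g| ≤ ε}.Finite
  n2 : ∀ K : Set ↥(Fi T), IsCompact K → ∀ (ε M : ℝ), 0 < ε →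
    {γ : Γ | ¬ ((∀ x ∈ K, (γ • x : ↥(Fi T)).1.1 T.o ≤ ε) ∨
      (∀ x ∈ K, M ≤ hh (γ • x : ↥(Fi T)).1))}.Finite
  n3 : ∀ K : Set ↥(Fi T), IsCompact K → ∃ C : ℝ, ∀ (γ : Γ), ∀ x ∈ K, ∀ x' ∈ K,
    |hh (γ • x : ↥(Fi T)).1 - hh (γ • x' : ↥(Fi T)).1| ≤ C

end RTree

end Pool.Agent.Helper68.BB
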