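import Mathlib

/-!
A compact metric space `X` with an equiconnecting map, embedded in `ℝⁿ`, is a retract of `ℝⁿ`.
-/

namespace Pool.Agent.Helper68.BB

open Set Filter Topology Metric

section strip

variable {X Y : Type*} [TopologicalSpace X] [TopologicalSpace Y]

lemma locallyFinite_strip : LocallyFinite (fun m : ℤ => Icc (m : ℝ) (m + 1)) := by
  intro x
  refine ⟨Ioo (x - 1) (x + 1), Ioo_mem_nhds (by linarith) (by linarith), ?_⟩
  refine (Set.finite_Icc (⌊x⌋ - 3) (⌊x⌋ + 3)).subset ?_
  rintro m ⟨z, hz1, hz2⟩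
  have h1 := Int.floor_le x
  have h2 := Int.lt_floor_add_one x
  constructor
  · have : (⌊x⌋ : ℝ) - 3 ≤ m := by linarith [hz1.2, hz2.1]
    exact_mod_cast this
  · have : (m : ℝ) ≤ ⌊x⌋ + 3 := by linarith [hz1.1, hz2.2]
    exact_mod_cast this

lemma continuous_strip {lam : X → X → ℝ → X}
    (hlam : Continuous fun q : X × X × ℝ => lam q.1 q.2.1 q.2.2)
    (h0 : ∀ x y, lam x y 0 = x) (h1 : ∀ x y, lam x y 1 = y)
    {A : ℤ → Y → X} (hA : ∀ m, Continuous (A m)) {τ : Y → ℝ} (hτ : Continuous τ) :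
    Continuous (fun y => lam (A ⌊τ y⌋ y) (A (⌊τ y⌋ + 1) y) (Int.fract (τ y))) := by
  have hlf : LocallyFinite (fun m : ℤ => τ ⁻¹' (Icc (m : ℝ) (m + 1))) :=
    locallyFinite_strip.preimage_continuous hτ
  apply hlf.continuous
  · apply eq_univ_of_forall
    intro y
    exact mem_iUnion.2 ⟨⌊τ y⌋, Int.floor_le _, (Int.lt_floor_add_one _).le⟩
  · intro m
    exact isClosed_Icc.preimage hτ
  · intro m
    have h2 : Continuous (fun y => lam (A m y) (A (m + 1) y) (τ y - m)) :=
      hlam.comp ((hA m).prodMk ((hA (m+1)).prodMk (hτ.sub continuous_const)))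
    refine h2.continuousOn.congr ?_
    intro y hy
    have hy1 : (m : ℝ) ≤ τ y := hy.1
    have hy2 : τ y ≤ m + 1 := hy.2
    rcases hy2.lt_or_eq with h | h
    · have hf : ⌊τ y⌋ = m := Int.floor_eq_iff.2 ⟨hy1, h⟩
      simp only [Int.fract, hf]
    · have hf : ⌊τ y⌋ = m + 1 := by
        rw [h]
        have : ((m : ℝ) + 1) = ((m + 1 : ℤ) : ℝ) := by push_cast; ring
        rw [this, Int.floor_intCast]
      simp only [Int.fract, hf]
      rw [h]
      push_cast
      rw [sub_self, h0, show (m : ℝ) + 1 - m = 1 by ring, h1]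

end strip

section interp

variable {X : Type*}

/-- multi-dimensional interpolation of a function on the lattice `ℤⁿ` -/
noncomputable def interpN (lam : X → X → ℝ → X) : (n : ℕ) → ((Fin n → ℤ) → X) →
    (Fin n → ℝ) → X
  | 0, u, _ => u Fin.elim0
  | n + 1, u, y => lam (interpN lam n (fun p => u (Fin.cons ⌊y 0⌋ p)) (Fin.tail y))
      (interpN lam n (fun p => u (Fin.cons (⌊y 0⌋ + 1) p)) (Fin.tail y)) (Int.fract (y 0))

lemma continuous_interpN [TopologicalSpace X] {lam : X → X → ℝ → X}
    (hlam : Continuous fun q : X × X × ℝ => lam q.1 q.2.1 q.2.2)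
    (h0 : ∀ x y, lam x y 0 = x) (h1 : ∀ x y, lam x y 1 = y) (n : ℕ) (u : (Fin n → ℤ) → X) :
    Continuous (interpN lam n u) := by
  induction n with
  | zero => exact continuous_const
  | succ n ih =>
    have hA : ∀ m : ℤ, Continuous (fun y : Fin (n + 1) → ℝ =>
        interpN lam n (fun p => u (Fin.cons m p)) (Fin.tail y)) := by
      intro m
      refine (ih _).comp ?_
      exact continuous_pi fun i => continuous_apply _
    exact continuous_strip hlam h0 h1 hA (continuous_apply (0 : Fin (n + 1)))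

lemma close_lam [MetricSpace X] [CompactSpace X] {lam : X → X → ℝ → X}
    (hlam : Continuous fun q : X × X × ℝ => lam q.1 q.2.1 q.2.2)
    (hd : ∀ x, ∀ t ∈ Icc (0 : ℝ) 1, lam x x t = x) {ε : ℝ} (hε : 0 < ε) :
    ∃ δ > 0, ∀ (a b c : X) (t : ℝ), t ∈ Icc (0 : ℝ) 1 → dist a c < δ → dist b c < δ →
      dist (lam a b t) c < ε := by
  have hK : IsCompact (univ ×ˢ univ ×ˢ Icc (0 : ℝ) 1 : Set (X × X × ℝ)) :=
    isCompact_univ.prod (isCompact_univ.prod isCompact_Icc)
  have hu := hK.uniformContinuousOn_of_continuous hlam.continuousOn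
  rw [Metric.uniformContinuousOn_iff] at hu
  obtain ⟨δ, hδ, h⟩ := hu ε hε
  refine ⟨δ, hδ, fun a b c t ht ha hb => ?_⟩
  have := h (a, b, t) ⟨trivial, trivial, ht⟩ (c, c, t) ⟨trivial, trivial, ht⟩ (by
    rw [Prod.dist_eq, Prod.dist_eq]
    simp only [dist_self]
    exact max_lt ha (max_lt hb hδ))
  simpa [hd c t ht] using this

lemma fract_mem (t : ℝ) : Int.fract t ∈ Icc (0 : ℝ) 1 :=
  ⟨Int.fract_nonneg t, (Int.fract_lt_one t).le⟩

lemma close_interpN [MetricSpace X] [CompactSpace X] {lam : X → X → ℝ → X}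
    (hlam : Continuous fun q : X × X × ℝ => lam q.1 q.2.1 q.2.2)
    (hd : ∀ x, ∀ t ∈ Icc (0 : ℝ) 1, lam x x t = x) (n : ℕ) {ε : ℝ} (hε : 0 < ε) :
    ∃ δ > 0, ∀ (u : (Fin n → ℤ) → X) (y : Fin n → ℝ) (c : X),
      (∀ p : Fin n → ℤ, (∀ i, p i = ⌊y i⌋ ∨ p i = ⌊y i⌋ + 1) → dist (u p) c < δ) →
      dist (interpN lam n u y) c < ε := by
  induction n generalizing ε with
  | zero =>
    refine ⟨ε, hε, fun u y c h => ?_⟩
    exact h _ (fun i => i.elim0)
  | succ n ih =>
    obtain ⟨δ₁, hδ₁, h1⟩ := close_lam hlam hd hε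
    obtain ⟨δ₂, hδ₂, h2⟩ := ih hδ₁
    refine ⟨δ₂, hδ₂, fun u y c h => ?_⟩
    apply h1 _ _ _ _ (fract_mem _)
    · apply h2
      intro p hp
      apply h
      intro i
      refine Fin.cases ?_ (fun j => ?_) i
      · left; simp
      · simpa [Fin.tail] using hp j
    · apply h2
      intro p hp
      apply h
      intro i
      refine Fin.cases ?_ (fun j => ?_) i
      · right; simp
      · simpa [Fin.tail] using hp j

end interp

/-- **Criterion.** -/
theorem exists_retraction {X : Type*} [MetricSpace X] [CompactSpace X] [Nonempty X] {n : ℕ}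
    (i : X → (Fin n → ℝ)) (hi : Continuous i) (hinj : Function.Injective i)
    (lam : X → X → ℝ → X) (hlam : Continuous fun q : X × X × ℝ => lam q.1 q.2.1 q.2.2)
    (h0 : ∀ x y, lam x y 0 = x) (h1 : ∀ x y, lam x y 1 = y)
    (hd : ∀ x, ∀ t ∈ Icc (0 : ℝ) 1, lam x x t = x) :
    ∃ r : (Fin n → ℝ) → X, Continuous r ∧ ∀ x, r (i x) = x := by
  classical
  have hemb : IsClosedEmbedding i := hi.isClosedEmbedding hinj
  set K : Set (Fin n → ℝ) := range i with hK
  have hKc : IsClosed K := hemb.isClosed_range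
  have hKne : K.Nonempty := range_nonempty i
  -- nearest points
  have hnear : ∀ q : Fin n → ℝ, ∃ x : X, ∀ x', dist (i x) q ≤ dist (i x') q := by
    intro q
    obtain ⟨x, -, hx⟩ := (isCompact_univ (X := X)).exists_isMinOn univ_nonempty
      (f := fun x => dist (i x) q) (by fun_prop)
    exact ⟨x, fun x' => hx (mem_univ x')⟩
  choose near hnear using hnear
  let u : ℤ → (Fin n → ℤ) → X := fun k p => near (fun j => (2 : ℝ) ^ (-k) * p j)
  let A : ℤ → (Fin n → ℝ) → X := fun k y => interpN lam n (u k) (fun j => (2 : ℝ) ^ k * y j)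
  have hA : ∀ k, Continuous (A k) := fun k =>
    (continuous_interpN hlam h0 h1 n (u k)).comp
      (continuous_pi fun j => continuous_const.mul (continuous_apply j))
  let G : ℝ × (Fin n → ℝ) → X := fun q =>
    lam (A ⌊q.1⌋ q.2) (A (⌊q.1⌋ + 1) q.2) (Int.fract q.1)
  have hG : Continuous G :=
    continuous_strip (Y := ℝ × (Fin n → ℝ)) hlam h0 h1 (A := fun k q => A k q.2)
      (fun m => (hA m).comp continuous_snd) continuous_fst
  let g : (Fin n → ℝ) → X := fun y => G (-Real.logb 2 (infDist y K), y)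
  let r : (Fin n → ℝ) → X := fun y => if h : y ∈ K then h.choose else g y
  have hri : ∀ x, r (i x) = x := by
    intro x
    have hx : i x ∈ K := mem_range_self x
    simp only [r, dif_pos hx]
    exact hinj hx.choose_spec
  have hrg : ∀ y, y ∉ K → r y = g y := fun y hy => by simp only [r, dif_neg hy]
  refine ⟨r, ?_, hri⟩
  rw [continuous_iff_continuousAt]
  intro y0
  by_cases hy0 : y0 ∈ K
  · obtain ⟨x0, rfl⟩ := hy0
    rw [ContinuousAt, hri, Metric.tendsto_nhds_nhds]
    intro ε hε
    obtain ⟨δ₁, hδ₁, hc1⟩ := close_lam hlam hd hε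
    obtain ⟨δ₂, hδ₂, hc2⟩ := close_interpN hlam hd n hδ₁
    -- the embedding is a homeomorphism on its image
    have hinv : ∃ η > 0, ∀ x, dist (i x) (i x0) < η → dist x x0 < min ε δ₂ := by
      have h := hemb.isInducing.nhds_eq_comap x0
      have h2 : ball x0 (min ε δ₂) ∈ 𝓝 x0 := ball_mem_nhds _ (lt_min hε hδ₂)
      rw [h, mem_comap] at h2
      obtain ⟨s, hs, hs'⟩ := h2
      obtain ⟨η, hη, hη'⟩ := Metric.mem_nhds_iff.1 hs
      exact ⟨η, hη, fun x hx => hs' (hη' hx)⟩
    obtain ⟨η, hη, hinv⟩ := hinv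
    refine ⟨η / 6, by positivity, fun {y} hy => ?_⟩
    by_cases hyK : y ∈ K
    · obtain ⟨x, rfl⟩ := hyK
      rw [hri]
      exact (hinv x (by linarith)).trans_le (min_le_left _ _)
    · rw [hrg y hyK]
      have hd0 : 0 < infDist y K := (hKc.notMem_iff_infDist_pos hKne).1 hyK
      have hd1 : infDist y K ≤ dist y (i x0) := infDist_le_dist_of_mem (mem_range_self x0)
      set d := infDist y K with hdd
      set τ := -Real.logb 2 d with hτ
      have h2τ : (2 : ℝ) ^ (-τ) = d := by
        rw [hτ, neg_neg, Real.rpow_logb (by norm_num) (by norm_num) hd0]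
      -- all relevant values are close to `x0`
      have key : ∀ k : ℤ, τ - 1 ≤ k → dist (A k y) x0 < δ₁ := by
        intro k hk
        have hscale : (2 : ℝ) ^ (-k) ≤ 2 * d := by
          rw [← Real.rpow_intCast]
          calc (2 : ℝ) ^ ((-k : ℤ) : ℝ) ≤ (2 : ℝ) ^ (-τ + 1) := by
                apply Real.rpow_le_rpow_of_exponent_le (by norm_num)
                push_cast
                linarith
            _ = 2 * d := by rw [Real.rpow_add (by norm_num), h2τ, Real.rpow_one]; ring
        apply hc2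
        intro p hp
        have hq : dist (fun j => (2 : ℝ) ^ (-k) * (p j : ℝ)) y ≤ 2 * d := by
          rw [dist_pi_le_iff (by positivity)]
          intro j
          have h3 : |(p j : ℝ) - (2 : ℝ) ^ k * y j| ≤ 1 := by
            have f1 := Int.floor_le ((2 : ℝ) ^ k * y j)
            have f2 := Int.lt_floor_add_one ((2 : ℝ) ^ k * y j)
            rcases hp j with h | h
            · rw [h, abs_le]; constructor <;> linarith
            · rw [h, abs_le]; push_cast; constructor <;> linarith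
          rw [Real.dist_eq]
          have h4 : (2 : ℝ) ^ (-k) * (p j : ℝ) - y j =
              (2 : ℝ) ^ (-k) * ((p j : ℝ) - (2 : ℝ) ^ k * y j) := by
            rw [mul_sub, ← mul_assoc, ← zpow_add₀ (by norm_num : (2 : ℝ) ≠ 0)]
            simp
          rw [h4, abs_mul, abs_of_pos (by positivity)]
          calc (2 : ℝ) ^ (-k) * |(p j : ℝ) - (2 : ℝ) ^ k * y j| ≤ (2 * d) * 1 := by gcongr
            _ = 2 * d := by ring
        have h5 : dist (i (u k p)) (fun j => (2 : ℝ) ^ (-k) * (p j : ℝ)) ≤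
            dist (i x0) (fun j => (2 : ℝ) ^ (-k) * (p j : ℝ)) := hnear _ x0
        have h6 : dist (i (u k p)) (i x0) < η := by
          have t1 := dist_triangle (i (u k p)) (fun j => (2 : ℝ) ^ (-k) * (p j : ℝ)) (i x0)
          have t2 := dist_triangle (fun j => (2 : ℝ) ^ (-k) * (p j : ℝ)) y (i x0)
          rw [dist_comm (i x0) (fun j => (2 : ℝ) ^ (-k) * (p j : ℝ))] at h5
          linarith
        exact (hinv _ h6).trans_le (min_le_right _ _)
      have f1 := Int.floor_le τ
      have f2 := Int.lt_floor_add_one τ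
      exact hc1 _ _ _ _ (fract_mem _) (key _ (by linarith)) (key _ (by push_cast; linarith))
  · have h2 : ∀ᶠ y in 𝓝 y0, r y = g y := by
      filter_upwards [hKc.isOpen_compl.mem_nhds hy0] with y hy
      exact hrg y hy
    refine ContinuousAt.congr ?_ (h2.mono fun y hy => hy.symm)
    have hd0 : infDist y0 K ≠ 0 := ((hKc.notMem_iff_infDist_pos hKne).1 hy0).ne'
    have h3 : ContinuousAt (fun y => (-Real.logb 2 (infDist y K), y)) y0 := by
      refine ContinuousAt.prodMk ?_ continuousAt_id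
      refine ContinuousAt.neg ?_
      have h4 : ContinuousAt (fun y => infDist y K) y0 := (continuous_infDist_pt K).continuousAt
      exact (h4.log hd0).div_const _
    exact hG.continuousAt.comp h3

end Pool.Agent.Helper68.BB
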