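import Mathlib
import Pool.Agent.Helper68.BB.That

/-!
The ends of the tree other than the root end.
-/

namespace Pool.Agent.Helper68.BB

open Set Filter Topology

namespace RTree

variable {V : Type}

/-- ends other than the root end -/
def En (T : RTree V) : Set T.TH := {x | 0 < x.1 T.o ∧ Ht x = 1}

end RTree

end Pool.Agent.Helper68.BB
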