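import Mathlib
import Pool.Agent.Helper68.BB.Act

/-!
Null sequences of translates in the compactification.
-/

namespace Pool.Agent.Helper68.BB

open Set Filter Topology OnePoint

/-- smallness of diameters can be tested on a separating family of functions -/
theorem null_of_family {X : Type*} [MetricSpace X] [CompactSpace X] {I Γ : Type*}
    (F : I → X → ℝ) (hF : ∀ i, Continuous (F i)) (hsep : ∀ x y, (∀ i, F i x = F i y) → x = y)
    (A : Γ → Set X)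
    (hA : ∀ i (ε : ℝ), 0 < ε → {γ | ¬ ∀ x ∈ A γ, ∀ y ∈ A γ, |F i x - F i y| ≤ ε}.Finite)
    (ε : ℝ) (hε : 0 < ε) : {γ | ε < Metric.diam (A γ)}.Finite := by
  classical
  set C : Set (X × X) := {q | ε ≤ dist q.1 q.2} with hC
  have hCc : IsCompact C := (isClosed_le continuous_const continuous_dist).isCompact
  set U : I × ℕ → Set (X × X) := fun j => {q | 1 / ((j.2 : ℝ) + 1) < |F j.1 q.1 - F j.1 q.2|} with hU
  have hUo : ∀ j, IsOpen (U j) := fun j =>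
    isOpen_lt continuous_const (((hF j.1).comp continuous_fst).sub
      ((hF j.1).comp continuous_snd)).abs
  have hcov : C ⊆ ⋃ j, U j := by
    rintro ⟨x, y⟩ hxy
    have hne : x ≠ y := by
      rintro rfl
      have h1 : ε ≤ dist x x := hxy
      rw [dist_self] at h1
      linarith
    have : ∃ i, F i x ≠ F i y := by
      by_contra hcon
      push Not at hcon
      exact hne (hsep x y hcon)
    obtain ⟨i, hi⟩ := this
    obtain ⟨n, hn⟩ := exists_nat_one_div_lt (abs_pos.2 (sub_ne_zero.2 hi))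
    exact mem_iUnion.2 ⟨(i, n), hn⟩
  obtain ⟨t, ht⟩ := hCc.elim_finite_subcover U hUo hcov
  have hfin : (⋃ j ∈ t, {γ | ¬ ∀ x ∈ A γ, ∀ y ∈ A γ,
      |F j.1 x - F j.1 y| ≤ 1 / ((j.2 : ℝ) + 1)}).Finite := by
    apply Set.Finite.biUnion t.finite_toSet
    intro j _
    exact hA j.1 _ (by positivity)
  refine hfin.subset ?_
  intro γ hγ
  by_contra hcon
  simp only [mem_iUnion, not_exists, mem_ofPred_eq, not_not] at hcon
  apply not_le.2 (show ε < Metric.diam (A γ) from hγ)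
  apply Metric.diam_le_of_forall_dist_le hε.le
  intro x hx y hy
  by_contra hd
  push Not at hd
  have : (x, y) ∈ ⋃ j ∈ t, U j := ht (show (x, y) ∈ C from hd.le)
  simp only [mem_iUnion] at this
  obtain ⟨j, hj, hj2⟩ := this
  exact not_le.2 hj2 (hcon j hj x hx y hy)

namespace RTree

lemma mul_osc {a b a' b' δ δ' : ℝ} (ha : 0 ≤ a) (ha1 : a ≤ 1) (hb' : 0 ≤ b') (hb1' : b' ≤ 1)
    (h1 : |a - a'| ≤ δ) (h2 : |b - b'| ≤ δ') : |a * b - a' * b'| ≤ δ + δ' := by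
  have : a * b - a' * b' = a * (b - b') + (a - a') * b' := by ring
  rw [this]
  refine (abs_add_le _ _).trans ?_
  rw [abs_mul, abs_mul, abs_of_nonneg ha, abs_of_nonneg hb']
  have h3 := abs_nonneg (b - b')
  have h4 := abs_nonneg (a - a')
  nlinarith

/-- oscillation of the slope parameter -/
lemma osc_phi {a b a' b' C M : ℝ} (hM : 0 < M) (hC : 0 ≤ C) (ha : M ≤ a) (hb : M ≤ b)
    (ha' : M ≤ a') (hb' : M ≤ b') (h1 : |a - a'| ≤ C) (h2 : |b - b'| ≤ C) :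
    |a / (a + b) - a' / (a' + b')| ≤ C / M := by
  have p1 : 0 < a + b := by linarith
  have p2 : 0 < a' + b' := by linarith
  have e : a / (a + b) - a' / (a' + b') = (a * (b' - b) + b * (a - a')) / ((a + b) * (a' + b')) := by
    rw [div_sub_div _ _ p1.ne' p2.ne']
    congr 1
    ring
  rw [e, abs_div, abs_of_pos (mul_pos p1 p2), div_le_div_iff₀ (mul_pos p1 p2) hM]
  have h3 : |a * (b' - b) + b * (a - a')| ≤ C * (a + b) := by
    refine (abs_add_le _ _).trans ?_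
    rw [abs_mul, abs_mul, abs_of_pos (hM.trans_le ha), abs_of_pos (hM.trans_le hb), abs_sub_comm b' b]
    have := abs_nonneg (b - b')
    have := abs_nonneg (a - a')
    nlinarith [hM.trans_le ha, hM.trans_le hb]
  have h4 : M ≤ a' + b' := by linarith
  calc |a * (b' - b) + b * (a - a')| * M ≤ (C * (a + b)) * (a' + b') :=
        mul_le_mul h3 h4 hM.le (by positivity)
    _ = C * ((a + b) * (a' + b')) := by ring

variable {V1 V2 : Type} {T1 : RTree V1} {T2 : RTree V2}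

lemma phJ_hh {x : T1.TH} {y : T2.TH} (hx : x ∈ Fi T1) (hy : y ∈ Fi T2) :
    phJ (Ht x) (Ht y) = hh x / (hh x + hh y) := by
  have h1 := Ht_pos hx.1
  have h3 := Ht_pos hy.1
  have h2 : 0 < 1 - Ht x := by linarith [hx.2]
  have h4 : 0 < 1 - Ht y := by linarith [hy.2]
  unfold phJ hh
  have h5 : Ht x * (1 - Ht y) + Ht y * (1 - Ht x) ≠ 0 := by positivity
  have h6 : Ht x / (1 - Ht x) + Ht y / (1 - Ht y) ≠ 0 := by positivity
  rw [div_eq_div_iff h5 h6]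
  field_simp

lemma hh_pos {x : T1.TH} (hx : x ∈ Fi T1) : 0 < hh x :=
  div_pos (Ht_pos hx.1) (by linarith [hx.2])

lemma continuous_hh : Continuous (fun x : ↥(Fi T1) => hh x.1) := by
  rw [continuous_iff_continuousAt]
  intro x
  have h1 : ContinuousAt (fun x : ↥(Fi T1) => Ht x.1) x :=
    ContinuousAt.comp (f := fun x : ↥(Fi T1) => x.1) (continuousAt_Ht x.2.1)
      continuous_subtype_val.continuousAt
  unfold hh
  exact h1.div (continuousAt_const.sub h1) (by linarith [x.2.2])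

/-- the function `kap * ψ` extended by `0` -/
noncomputable def ext (ψ : W T1 T2 → ℝ) : Xt T1 T2 → ℝ
  | ∞ => 0
  | (w : W T1 T2) => kap w * ψ w

@[simp] lemma ext_infty (ψ : W T1 T2 → ℝ) : ext ψ ∞ = 0 := rfl
@[simp] lemma ext_coe (ψ : W T1 T2 → ℝ) (w : W T1 T2) : ext ψ w = kap w * ψ w := rfl

lemma continuous_ext {ψ : W T1 T2 → ℝ} (hψ : Continuous ψ) (h0 : ∀ w, 0 ≤ ψ w)
    (h1 : ∀ w, ψ w ≤ 1) : Continuous (ext ψ) := by
  rw [continuous_iff_continuousAt]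
  intro x
  induction x using OnePoint.rec with
  | coe w =>
    rw [OnePoint.continuousAt_coe]
    exact (continuous_kap.mul hψ).continuousAt
  | infty =>
    rw [ContinuousAt, nhds_infty, ext_infty]
    have hk : Tendsto (kh (T1 := T1) (T2 := T2)) (comap kh (𝓝 0)) (𝓝 0) := tendsto_comap
    refine squeeze_zero (fun x => ?_) (fun x => ?_) hk
    · induction x using OnePoint.rec with
      | infty => exact le_rfl
      | coe w => exact mul_nonneg (kap_pos w).le (h0 w)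
    · induction x using OnePoint.rec with
      | infty => exact le_rfl
      | coe w => exact mul_le_of_le_one_right (kap_pos w).le (h1 w)

/-- indices of the test functions -/
inductive Idx (V1 V2 : Type) : Type
  | one : Idx V1 V2
  | phi : Idx V1 V2
  | l (g : V1) : Idx V1 V2
  | r (g : V2) : Idx V1 V2

/-- the separating family -/
noncomputable def fam : Idx V1 V2 → T1.TH × T2.TH × ℝ → ℝ
  | Idx.one => fun _ => 1
  | Idx.phi => fun w => w.2.2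
  | Idx.l g => fun w => w.1.1 g
  | Idx.r g => fun w => w.2.1.1 g

lemma fam_mem (i : Idx V1 V2) (w : T1.TH × T2.TH × ℝ) (h0 : 0 ≤ w.2.2)
    (h1 : w.2.2 ≤ 1) : 0 ≤ fam i w ∧ fam i w ≤ 1 := by
  cases i with
  | one => exact ⟨zero_le_one, le_rfl⟩
  | phi => exact ⟨h0, h1⟩
  | l g => exact ⟨nonneg _ _, (lt_one _ _).le⟩
  | r g => exact ⟨nonneg _ _, (lt_one _ _).le⟩

lemma continuous_fam (i : Idx V1 V2) :
    Continuous (fam (T1 := T1) (T2 := T2) i) := by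
  cases i with
  | one => exact continuous_const
  | phi => exact continuous_snd.comp continuous_snd
  | l g => exact (continuous_coord g).comp continuous_fst
  | r g => exact (continuous_coord g).comp (continuous_fst.comp continuous_snd)

lemma continuous_ext_fam (i : Idx V1 V2) :
    Continuous (ext (fun w : W T1 T2 => fam i w.1)) :=
  continuous_ext ((continuous_fam i).comp continuous_subtype_val)
    (fun w => (fam_mem i w.1 w.2.2.2.1.le w.2.2.2.2.1.le).1)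
    (fun w => (fam_mem i w.1 w.2.2.2.1.le w.2.2.2.2.1.le).2)

lemma fam_sep (x y : Xt T1 T2)
    (h : ∀ i, ext (fun w : W T1 T2 => fam i w.1) x = ext (fun w : W T1 T2 => fam i w.1) y) :
    x = y := by
  induction x using OnePoint.rec with
  | infty =>
    induction y using OnePoint.rec with
    | infty => rfl
    | coe w =>
      exfalso
      have := h Idx.one
      simp only [ext_infty, ext_coe, fam, mul_one] at this
      exact (kap_pos w).ne this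
  | coe w =>
    induction y using OnePoint.rec with
    | infty =>
      exfalso
      have := h Idx.one
      simp only [ext_infty, ext_coe, fam, mul_one] at this
      exact (kap_pos w).ne' this
    | coe w' =>
      have h0 := h Idx.one
      simp only [ext_coe, fam, mul_one] at h0
      have hk := (kap_pos w).ne'
      have key : ∀ i, fam i w.1 = fam i w'.1 := by
        intro i
        have := h i
        simp only [ext_coe] at this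
        rw [← h0] at this
        exact mul_left_cancel₀ hk this
      congr 1
      apply Subtype.ext
      have e1 : w.1.1 = w'.1.1 := by
        ext g
        exact key (Idx.l g)
      have e2 : w.1.2.1 = w'.1.2.1 := by
        ext g
        exact key (Idx.r g)
      have e3 : w.1.2.2 = w'.1.2.2 := key Idx.phi
      exact Prod.ext e1 (Prod.ext e2 e3)

/-- abbreviation: the value of `kap` at `J x y` -/
lemma ext_J (ψ : T1.TH × T2.TH × ℝ → ℝ) {x : T1.TH} {y : T2.TH} (hx : x ∈ Fi T1) (hy : y ∈ Fi T2) :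
    ext (fun w : W T1 T2 => ψ w.1) (J x y) =
      x.1 T1.o * y.1 T2.o * (phJ (Ht x) (Ht y) * (1 - phJ (Ht x) (Ht y))) *
        ψ (x, y, phJ (Ht x) (Ht y)) := by
  rw [J_good hx hy, ext_coe]
  rfl

section

variable {Γ1 Γ2 : Type} [Group Γ1] [Group Γ2] [MulAction Γ1 ↥(Fi T1)] [MulAction Γ2 ↥(Fi T2)]

/-- the translate of a point of the product -/
noncomputable def Jt (γ : Γ1 × Γ2) (q : ↥(Fi T1) × ↥(Fi T2)) : Xt T1 T2 :=
  J (γ.1 • q.1 : ↥(Fi T1)).1 (γ.2 • q.2 : ↥(Fi T2)).1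

/-- abbreviation for the values of the test functions -/
noncomputable def val (i : Idx V1 V2) (x : ↥(Fi T1)) (y : ↥(Fi T2)) : ℝ :=
  ext (fun w : W T1 T2 => fam i w.1) (J x.1 y.1)

lemma val_nonneg (i : Idx V1 V2) (x : ↥(Fi T1)) (y : ↥(Fi T2)) : 0 ≤ val i x y := by
  unfold val
  rw [J_good x.2 y.2, ext_coe]
  set w : W T1 T2 := ⟨_, J_mem x.2 y.2⟩
  exact mul_nonneg (kap_pos w).le (fam_mem i w.1 w.2.2.2.1.le w.2.2.2.2.1.le).1

lemma val_le (i : Idx V1 V2) (x : ↥(Fi T1)) (y : ↥(Fi T2)) :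
    val i x y ≤ x.1.1 T1.o ∧ val i x y ≤ y.1.1 T2.o ∧ val i x y ≤ hh x.1 / (hh x.1 + hh y.1) ∧
      val i x y ≤ hh y.1 / (hh x.1 + hh y.1) := by
  have h0 : val i x y ≤ x.1.1 T1.o * y.1.1 T2.o *
      (phJ (Ht x.1) (Ht y.1) * (1 - phJ (Ht x.1) (Ht y.1))) := by
    unfold val
    rw [J_good x.2 y.2, ext_coe]
    set w : W T1 T2 := ⟨_, J_mem x.2 y.2⟩ with hw
    exact mul_le_of_le_one_right (kap_pos w).le (fam_mem i w.1 w.2.2.2.1.le w.2.2.2.2.1.le).2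
  have h1 := phJ_pos (Ht_pos x.2.1) x.2.2 (Ht_pos y.2.1) y.2.2
  have h2 := phJ_lt_one (Ht_pos x.2.1) x.2.2 (Ht_pos y.2.1) y.2.2
  obtain ⟨p1, p2, p3, p4⟩ := prod_le (a := x.1.1 T1.o) (b := y.1.1 T2.o)
    (c := phJ (Ht x.1) (Ht y.1))
    (d := 1 - phJ (Ht x.1) (Ht y.1)) (nonneg _ _) (nonneg _ _) h1.le (by linarith)
    (lt_one _ _).le (lt_one _ _).le h2.le (by linarith)
  have e1 := phJ_hh x.2 y.2
  have q1 := hh_pos x.2
  have q2 := hh_pos y.2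
  have e2 : 1 - phJ (Ht x.1) (Ht y.1) = hh y.1 / (hh x.1 + hh y.1) := by
    rw [e1]
    have q3 : hh x.1 + hh y.1 ≠ 0 := by positivity
    rw [eq_div_iff q3, sub_mul, div_mul_cancel₀ _ q3]
    ring
  refine ⟨h0.trans p1, h0.trans p2, ?_, ?_⟩
  · rw [← e1]; exact h0.trans p3
  · rw [← e2]; exact h0.trans p4

lemma abs_sub_le_of {a b ε : ℝ} (ha : 0 ≤ a) (hb : 0 ≤ b) (ha' : a ≤ ε) (hb' : b ≤ ε) :
    |a - b| ≤ ε := by
  rw [abs_le]; constructor <;> linarith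

/-- for fixed `γ₁` only finitely many `γ₂` are bad -/
lemma finite_right (h1 : GoodAction Γ1 T1) (h2 : GoodAction Γ2 T2)
    {K1 : Set ↥(Fi T1)} {K2 : Set ↥(Fi T2)} (hK1 : IsCompact K1) (hK2 : IsCompact K2)
    (i : Idx V1 V2) {ε : ℝ} (hε : 0 < ε) (γ1 : Γ1) :
    {γ2 : Γ2 | ¬ ∀ x ∈ K1, ∀ y ∈ K2, ∀ x' ∈ K1, ∀ y' ∈ K2,
      |val i (γ1 • x) (γ2 • y) - val i (γ1 • x') (γ2 • y')| ≤ ε}.Finite := by
  obtain ⟨B, hB⟩ : ∃ B : ℝ, ∀ x ∈ K1, hh (γ1 • x : ↥(Fi T1)).1 ≤ B := by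
    have hc : Continuous fun x : ↥(Fi T1) => hh (γ1 • x : ↥(Fi T1)).1 :=
      continuous_hh.comp (h1.cont γ1)
    obtain ⟨B, hB⟩ := (hK1.image hc).bddAbove
    exact ⟨B, fun x hx => hB ⟨x, hx, rfl⟩⟩
  refine (h2.n2 K2 hK2 ε (|B| / ε) hε).subset ?_
  intro γ2 hγ2
  by_contra hcon
  apply hγ2
  have hcon' : (∀ x ∈ K2, (γ2 • x : ↥(Fi T2)).1.1 T2.o ≤ ε) ∨
      (∀ x ∈ K2, |B| / ε ≤ hh (γ2 • x : ↥(Fi T2)).1) := by
    by_contra h; exact hcon h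
  intro x hx y hy x' hx' y' hy'
  have key : ∀ x ∈ K1, ∀ y ∈ K2, val i (γ1 • x) (γ2 • y) ≤ ε := by
    intro x hx y hy
    obtain ⟨v1, v2, v3, v4⟩ := val_le i (γ1 • x) (γ2 • y)
    rcases hcon' with h | h
    · exact v2.trans (h y hy)
    · refine v3.trans ?_
      have a1 := hh_pos (γ1 • x : ↥(Fi T1)).2
      have a2 := hh_pos (γ2 • y : ↥(Fi T2)).2
      have a3 := h y hy
      have a4 := hB x hx
      rw [div_le_iff₀ (by linarith)]
      rw [div_le_iff₀ hε] at a3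
      have a5 := le_abs_self B
      nlinarith
  exact abs_sub_le_of (val_nonneg _ _ _) (val_nonneg _ _ _) (key x hx y hy) (key x' hx' y' hy')

/-- for fixed `γ₂` only finitely many `γ₁` are bad -/
lemma finite_left (h1 : GoodAction Γ1 T1) (h2 : GoodAction Γ2 T2)
    {K1 : Set ↥(Fi T1)} {K2 : Set ↥(Fi T2)} (hK1 : IsCompact K1) (hK2 : IsCompact K2)
    (i : Idx V1 V2) {ε : ℝ} (hε : 0 < ε) (γ2 : Γ2) :
    {γ1 : Γ1 | ¬ ∀ x ∈ K1, ∀ y ∈ K2, ∀ x' ∈ K1, ∀ y' ∈ K2,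
      |val i (γ1 • x) (γ2 • y) - val i (γ1 • x') (γ2 • y')| ≤ ε}.Finite := by
  obtain ⟨B, hB⟩ : ∃ B : ℝ, ∀ x ∈ K2, hh (γ2 • x : ↥(Fi T2)).1 ≤ B := by
    have hc : Continuous fun x : ↥(Fi T2) => hh (γ2 • x : ↥(Fi T2)).1 :=
      continuous_hh.comp (h2.cont γ2)
    obtain ⟨B, hB⟩ := (hK2.image hc).bddAbove
    exact ⟨B, fun x hx => hB ⟨x, hx, rfl⟩⟩
  refine (h1.n2 K1 hK1 ε (|B| / ε) hε).subset ?_
  intro γ1 hγ1
  by_contra hcon
  apply hγ1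
  have hcon' : (∀ x ∈ K1, (γ1 • x : ↥(Fi T1)).1.1 T1.o ≤ ε) ∨
      (∀ x ∈ K1, |B| / ε ≤ hh (γ1 • x : ↥(Fi T1)).1) := by
    by_contra h; exact hcon h
  intro x hx y hy x' hx' y' hy'
  have key : ∀ x ∈ K1, ∀ y ∈ K2, val i (γ1 • x) (γ2 • y) ≤ ε := by
    intro x hx y hy
    obtain ⟨v1, v2, v3, v4⟩ := val_le i (γ1 • x) (γ2 • y)
    rcases hcon' with h | h
    · exact v1.trans (h x hx)
    · refine v4.trans ?_
      have a1 := hh_pos (γ1 • x : ↥(Fi T1)).2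
      have a2 := hh_pos (γ2 • y : ↥(Fi T2)).2
      have a3 := h x hx
      have a4 := hB y hy
      rw [div_le_iff₀ (by linarith)]
      rw [div_le_iff₀ hε] at a3
      have a5 := le_abs_self B
      nlinarith
  exact abs_sub_le_of (val_nonneg _ _ _) (val_nonneg _ _ _) (key x hx y hy) (key x' hx' y' hy')

/-- small oscillation of the test functions off finite sets -/
lemma osc_fam (h1 : GoodAction Γ1 T1) (h2 : GoodAction Γ2 T2)
    {K1 : Set ↥(Fi T1)} {K2 : Set ↥(Fi T2)} (hK1 : IsCompact K1) (hK2 : IsCompact K2)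
    (i : Idx V1 V2) {δ : ℝ} (hδ : 0 < δ) :
    ∃ E1 : Set Γ1, E1.Finite ∧ ∃ E2 : Set Γ2, E2.Finite ∧ ∀ γ1 ∉ E1, ∀ γ2 ∉ E2,
      ∀ x ∈ K1, ∀ y ∈ K2, ∀ x' ∈ K1, ∀ y' ∈ K2, ∀ φ φ' : ℝ, |φ - φ'| ≤ δ →
        |fam i ((γ1 • x : ↥(Fi T1)).1, (γ2 • y : ↥(Fi T2)).1, φ) -
          fam i ((γ1 • x' : ↥(Fi T1)).1, (γ2 • y' : ↥(Fi T2)).1, φ')| ≤ δ := by
  cases i with
  | one =>
    refine ⟨∅, finite_empty, ∅, finite_empty, ?_⟩
    intro γ1 _ γ2 _ x _ y _ x' _ y' _ φ φ' _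
    simp [fam, hδ.le]
  | phi =>
    refine ⟨∅, finite_empty, ∅, finite_empty, ?_⟩
    intro γ1 _ γ2 _ x _ y _ x' _ y' _ φ φ' h
    simpa [fam] using h
  | l g =>
    refine ⟨_, h1.n1 K1 hK1 g δ hδ, ∅, finite_empty, ?_⟩
    intro γ1 hγ1 γ2 _ x hx y _ x' hx' y' _ φ φ' _
    simp only [mem_ofPred_eq, not_not] at hγ1
    exact hγ1 x hx x' hx'
  | r g =>
    refine ⟨∅, finite_empty, _, h2.n1 K2 hK2 g δ hδ, ?_⟩
    intro γ1 _ γ2 hγ2 x _ y hy x' _ y' hy' φ φ' _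
    simp only [mem_ofPred_eq, not_not] at hγ2
    exact hγ2 y hy y' hy'

/-- main estimate -/
lemma osc_val (h1 : GoodAction Γ1 T1) (h2 : GoodAction Γ2 T2)
    {K1 : Set ↥(Fi T1)} {K2 : Set ↥(Fi T2)} (hK1 : IsCompact K1) (hK2 : IsCompact K2)
    (i : Idx V1 V2) {ε : ℝ} (hε : 0 < ε) :
    ∃ E1 : Set Γ1, E1.Finite ∧ ∃ E2 : Set Γ2, E2.Finite ∧ ∀ γ1 ∉ E1, ∀ γ2 ∉ E2,
      ∀ x ∈ K1, ∀ y ∈ K2, ∀ x' ∈ K1, ∀ y' ∈ K2,
        |val i (γ1 • x) (γ2 • y) - val i (γ1 • x') (γ2 • y')| ≤ ε := by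
  obtain ⟨C1, hC1⟩ := h1.n3 K1 hK1
  obtain ⟨C2, hC2⟩ := h2.n3 K2 hK2
  set δ := ε / 5 with hδ
  have hδ0 : 0 < δ := by positivity
  set C := |C1| + |C2| + 1 with hC
  have hC0 : 0 < C := by positivity
  set M := C / δ with hM
  have hM0 : 0 < M := by positivity
  obtain ⟨E1, hE1, E2, hE2, hE⟩ := osc_fam h1 h2 hK1 hK2 i hδ0
  refine ⟨E1 ∪ ({γ : Γ1 | ¬ ∀ x ∈ K1, ∀ x' ∈ K1,
      |(γ • x : ↥(Fi T1)).1.1 T1.o - (γ • x' : ↥(Fi T1)).1.1 T1.o| ≤ δ} ∪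
      {γ : Γ1 | ¬ ((∀ x ∈ K1, (γ • x : ↥(Fi T1)).1.1 T1.o ≤ δ) ∨
      (∀ x ∈ K1, M ≤ hh (γ • x : ↥(Fi T1)).1))}),
    hE1.union ((h1.n1 K1 hK1 T1.o δ hδ0).union (h1.n2 K1 hK1 δ M hδ0)),
    E2 ∪ ({γ : Γ2 | ¬ ∀ x ∈ K2, ∀ x' ∈ K2,
      |(γ • x : ↥(Fi T2)).1.1 T2.o - (γ • x' : ↥(Fi T2)).1.1 T2.o| ≤ δ} ∪
      {γ : Γ2 | ¬ ((∀ x ∈ K2, (γ • x : ↥(Fi T2)).1.1 T2.o ≤ δ) ∨
      (∀ x ∈ K2, M ≤ hh (γ • x : ↥(Fi T2)).1))}),
    hE2.union ((h2.n1 K2 hK2 T2.o δ hδ0).union (h2.n2 K2 hK2 δ M hδ0)), ?_⟩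
  intro γ1 hγ1 γ2 hγ2 x hx y hy x' hx' y' hy'
  have a1 : γ1 ∉ E1 := fun h => hγ1 (Or.inl h)
  have a2 : ∀ x ∈ K1, ∀ x' ∈ K1,
      |(γ1 • x : ↥(Fi T1)).1.1 T1.o - (γ1 • x' : ↥(Fi T1)).1.1 T1.o| ≤ δ :=
    by_contra fun h => hγ1 (Or.inr (Or.inl h))
  have a3 : (∀ x ∈ K1, (γ1 • x : ↥(Fi T1)).1.1 T1.o ≤ δ) ∨
      (∀ x ∈ K1, M ≤ hh (γ1 • x : ↥(Fi T1)).1) :=
    by_contra fun h => hγ1 (Or.inr (Or.inr h))
  have b1 : γ2 ∉ E2 := fun h => hγ2 (Or.inl h)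
  have b2 : ∀ x ∈ K2, ∀ x' ∈ K2,
      |(γ2 • x : ↥(Fi T2)).1.1 T2.o - (γ2 • x' : ↥(Fi T2)).1.1 T2.o| ≤ δ :=
    by_contra fun h => hγ2 (Or.inr (Or.inl h))
  have b3 : (∀ x ∈ K2, (γ2 • x : ↥(Fi T2)).1.1 T2.o ≤ δ) ∨
      (∀ x ∈ K2, M ≤ hh (γ2 • x : ↥(Fi T2)).1) :=
    by_contra fun h => hγ2 (Or.inr (Or.inr h))
  have hδε : δ ≤ ε := by rw [hδ]; linarith
  rcases a3 with a3 | a3
  · have key : ∀ x ∈ K1, ∀ y ∈ K2, val i (γ1 • x) (γ2 • y) ≤ ε := fun x hx y hy =>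
      (val_le i (γ1 • x) (γ2 • y)).1.trans ((a3 x hx).trans hδε)
    exact abs_sub_le_of (val_nonneg _ _ _) (val_nonneg _ _ _) (key x hx y hy) (key x' hx' y' hy')
  rcases b3 with b3 | b3
  · have key : ∀ x ∈ K1, ∀ y ∈ K2, val i (γ1 • x) (γ2 • y) ≤ ε := fun x hx y hy =>
      (val_le i (γ1 • x) (γ2 • y)).2.1.trans ((b3 y hy).trans hδε)
    exact abs_sub_le_of (val_nonneg _ _ _) (val_nonneg _ _ _) (key x hx y hy) (key x' hx' y' hy')
  -- main case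
  set X := γ1 • x
  set Y := γ2 • y
  set X' := γ1 • x'
  set Y' := γ2 • y'
  have e := phJ_hh X.2 Y.2
  have e' := phJ_hh X'.2 Y'.2
  have f0 := phJ_pos (Ht_pos X.2.1) X.2.2 (Ht_pos Y.2.1) Y.2.2
  have f1 := phJ_lt_one (Ht_pos X.2.1) X.2.2 (Ht_pos Y.2.1) Y.2.2
  have f0' := phJ_pos (Ht_pos X'.2.1) X'.2.2 (Ht_pos Y'.2.1) Y'.2.2
  have f1' := phJ_lt_one (Ht_pos X'.2.1) X'.2.2 (Ht_pos Y'.2.1) Y'.2.2
  have hphi : |phJ (Ht X.1) (Ht Y.1) - phJ (Ht X'.1) (Ht Y'.1)| ≤ δ := by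
    rw [e, e']
    have hCM : C / M = δ := by
      rw [hM]; field_simp
    rw [← hCM]
    apply osc_phi hM0 hC0.le (a3 x hx) (b3 y hy) (a3 x' hx') (b3 y' hy')
    · refine (hC1 γ1 x hx x' hx').trans ?_
      have := le_abs_self C1
      have := abs_nonneg C2
      rw [hC]; linarith
    · refine (hC2 γ2 y hy y' hy').trans ?_
      have := le_abs_self C2
      have := abs_nonneg C1
      rw [hC]; linarith
  have hpsi := hE γ1 a1 γ2 b1 x hx y hy x' hx' y' hy' _ _ hphi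
  have hx1 := a2 x hx x' hx'
  have hy1 := b2 y hy y' hy'
  unfold val
  rw [ext_J _ X.2 Y.2, ext_J _ X'.2 Y'.2]
  have g1 : |(1 - phJ (Ht X.1) (Ht Y.1)) - (1 - phJ (Ht X'.1) (Ht Y'.1))| ≤ δ := by
    rw [show (1 - phJ (Ht X.1) (Ht Y.1)) - (1 - phJ (Ht X'.1) (Ht Y'.1)) =
      -(phJ (Ht X.1) (Ht Y.1) - phJ (Ht X'.1) (Ht Y'.1)) by ring, abs_neg]
    exact hphi
  have g2 := mul_osc f0.le f1.le (show (0 : ℝ) ≤ 1 - phJ (Ht X'.1) (Ht Y'.1) by linarith)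
    (by linarith) hphi g1
  have n1 := nonneg X.1 T1.o
  have n2 := (lt_one X.1 T1.o).le
  have n3 := nonneg Y.1 T2.o
  have n4 := (lt_one Y.1 T2.o).le
  have n1' := nonneg X'.1 T1.o
  have n2' := (lt_one X'.1 T1.o).le
  have n3' := nonneg Y'.1 T2.o
  have n4' := (lt_one Y'.1 T2.o).le
  have g3 := mul_osc n1 n2 n3' n4' hx1 hy1
  have g4 := mul_osc (mul_nonneg n1 n3) (mul_le_one₀ n2 n3 n4)
    (mul_nonneg f0'.le (show (0 : ℝ) ≤ 1 - phJ (Ht X'.1) (Ht Y'.1) by linarith))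
    (mul_le_one₀ f1'.le (by linarith) (by linarith)) g3 g2
  have g5 := mul_osc
    (mul_nonneg (mul_nonneg n1 n3) (mul_nonneg f0.le (show (0 : ℝ) ≤ 1 - phJ (Ht X.1) (Ht Y.1) by linarith)))
    (mul_le_one₀ (mul_le_one₀ n2 n3 n4) (mul_nonneg f0.le (by linarith))
      (mul_le_one₀ f1.le (by linarith) (by linarith)))
    (fam_mem i (X'.1, Y'.1, phJ (Ht X'.1) (Ht Y'.1)) f0'.le f1'.le).1
    (fam_mem i (X'.1, Y'.1, phJ (Ht X'.1) (Ht Y'.1)) f0'.le f1'.le).2 g4 hpsi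
  refine g5.trans ?_
  rw [hδ]; linarith

/-- the test functions oscillate little on all but finitely many translates -/
theorem null_prod (h1 : GoodAction Γ1 T1) (h2 : GoodAction Γ2 T2)
    {K : Set (↥(Fi T1) × ↥(Fi T2))} (hK : IsCompact K) (i : Idx V1 V2) {ε : ℝ} (hε : 0 < ε) :
    {γ : Γ1 × Γ2 | ¬ ∀ a ∈ Jt γ '' K, ∀ b ∈ Jt γ '' K,
      |ext (fun w : W T1 T2 => fam i w.1) a - ext (fun w : W T1 T2 => fam i w.1) b| ≤ ε}.Finite := by
  set K1 := Prod.fst '' K with hK1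
  set K2 := Prod.snd '' K with hK2
  have c1 : IsCompact K1 := hK.image continuous_fst
  have c2 : IsCompact K2 := hK.image continuous_snd
  obtain ⟨E1, hE1, E2, hE2, hE⟩ := osc_val h1 h2 c1 c2 i hε
  set bad : Γ1 → Γ2 → Prop := fun γ1 γ2 => ¬ ∀ x ∈ K1, ∀ y ∈ K2, ∀ x' ∈ K1, ∀ y' ∈ K2,
      |val i (γ1 • x) (γ2 • y) - val i (γ1 • x') (γ2 • y')| ≤ ε with hbad
  have f1 : (⋃ γ1 ∈ E1, (fun γ2 => (γ1, γ2)) '' {γ2 : Γ2 | bad γ1 γ2}).Finite :=
    hE1.biUnion fun γ1 _ => (finite_right h1 h2 c1 c2 i hε γ1).image _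
  have f2 : (⋃ γ2 ∈ E2, (fun γ1 => (γ1, γ2)) '' {γ1 : Γ1 | bad γ1 γ2}).Finite :=
    hE2.biUnion fun γ2 _ => (finite_left h1 h2 c1 c2 i hε γ2).image _
  refine (f1.union f2).subset ?_
  rintro ⟨γ1, γ2⟩ hγ
  have hb : bad γ1 γ2 := by
    intro hcon
    apply hγ
    rintro _ ⟨q, hq, rfl⟩ _ ⟨q', hq', rfl⟩
    exact hcon q.1 ⟨q, hq, rfl⟩ q.2 ⟨q, hq, rfl⟩ q'.1 ⟨q', hq', rfl⟩ q'.2 ⟨q', hq', rfl⟩
  by_cases g1 : γ1 ∈ E1
  · left
    exact mem_iUnion₂.2 ⟨γ1, g1, γ2, hb, rfl⟩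
  by_cases g2 : γ2 ∈ E2
  · right
    exact mem_iUnion₂.2 ⟨γ2, g2, γ1, hb, rfl⟩
  exact absurd (hE γ1 g1 γ2 g2) hb

end

end RTree

end Pool.Agent.Helper68.BB
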