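import Mathlib
import Pool.Agent.Helper68.BB.Mk

/-!
The compactification is a Euclidean retract.
-/

namespace Pool.Agent.Helper68.BB

open Set Filter Topology OnePoint

namespace RTree

variable {V1 V2 : Type} {T1 : RTree V1} {T2 : RTree V2}

section

variable {n1 n2 : ℕ} (i1 : T1.TH → (Fin n1 → ℝ)) (r1 : (Fin n1 → ℝ) → T1.TH)
  (i2 : T2.TH → (Fin n2 → ℝ)) (r2 : (Fin n2 → ℝ) → T2.TH)

/-- the embedding -/
noncomputable def iF : Xt T1 T2 → ℝ × (Fin n1 → ℝ) × (Fin n2 → ℝ) × ℝ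
  | ∞ => 0
  | (w : W T1 T2) => (kap w, kap w • i1 w.1.1, kap w • i2 w.1.2.1, kap w * w.1.2.2)

@[simp] lemma iF_infty : iF i1 i2 (∞ : Xt T1 T2) = 0 := rfl
@[simp] lemma iF_coe (w : W T1 T2) : iF i1 i2 (w : Xt T1 T2) =
  (kap w, kap w • i1 w.1.1, kap w • i2 w.1.2.1, kap w * w.1.2.2) := rfl

lemma continuous_iF (hi1 : Continuous i1) (hi2 : Continuous i2) : Continuous (iF i1 i2) := by
  rw [continuous_iff_continuousAt]
  intro x
  induction x using OnePoint.rec with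
  | coe w =>
    rw [OnePoint.continuousAt_coe]
    apply Continuous.continuousAt
    show Continuous fun w : W T1 T2 =>
      (kap w, kap w • i1 w.1.1, kap w • i2 w.1.2.1, kap w * w.1.2.2)
    have c0 := continuous_kap (T1 := T1) (T2 := T2)
    have c1 : Continuous fun w : W T1 T2 => w.1.1 := continuous_fst.comp continuous_subtype_val
    have c2 : Continuous fun w : W T1 T2 => w.1.2.1 :=
      continuous_fst.comp (continuous_snd.comp continuous_subtype_val)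
    have c3 : Continuous fun w : W T1 T2 => w.1.2.2 :=
      continuous_snd.comp (continuous_snd.comp continuous_subtype_val)
    exact c0.prodMk ((c0.smul (hi1.comp c1)).prodMk ((c0.smul (hi2.comp c2)).prodMk (c0.mul c3)))
  | infty =>
    rw [ContinuousAt, nhds_infty, iF_infty]
    have hk : Tendsto (kh (T1 := T1) (T2 := T2)) (comap kh (𝓝 0)) (𝓝 0) := tendsto_comap
    obtain ⟨C1, hC1⟩ := (isCompact_range hi1).isBounded.exists_norm_le
    obtain ⟨C2, hC2⟩ := (isCompact_range hi2).isBounded.exists_norm_le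
    have hb : ∀ x : Xt T1 T2, ‖iF i1 i2 x‖ ≤ kh x * (1 + |C1| + |C2|) := by
      intro x
      induction x using OnePoint.rec with
      | infty => simp
      | coe w =>
        rw [iF_coe, kh_coe]
        have h0 := kap_pos w
        have h1 : ‖i1 w.1.1‖ ≤ |C1| := (hC1 _ (mem_range_self _)).trans (le_abs_self _)
        have h2 : ‖i2 w.1.2.1‖ ≤ |C2| := (hC2 _ (mem_range_self _)).trans (le_abs_self _)
        have h3 := w.2.2.2.1
        have h4 := w.2.2.2.2.1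
        have a1 := abs_nonneg C1
        have a2 := abs_nonneg C2
        rw [Prod.norm_def, Prod.norm_def, Prod.norm_def]
        simp only [norm_smul, norm_mul, Real.norm_eq_abs]
        rw [abs_of_pos h0, abs_of_pos h3]
        refine max_le ?_ (max_le ?_ (max_le ?_ ?_))
        · nlinarith
        · apply mul_le_mul_of_nonneg_left _ h0.le
          linarith
        · apply mul_le_mul_of_nonneg_left _ h0.le
          linarith
        · apply mul_le_mul_of_nonneg_left _ h0.le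
          linarith
    have h0 : Tendsto (fun x : Xt T1 T2 => kh x * (1 + |C1| + |C2|)) (comap kh (𝓝 0)) (𝓝 0) := by
      simpa using hk.mul_const (1 + |C1| + |C2|)
    exact squeeze_zero_norm hb h0

/-- the parameter `k` -/
noncomputable def kq (q : ℝ × (Fin n1 → ℝ) × (Fin n2 → ℝ) × ℝ) : ℝ :=
  kh (mkw (r1 (q.1⁻¹ • q.2.1)) (r2 (q.1⁻¹ • q.2.2.1)) (q.1⁻¹ * q.2.2.2) 1)

open Classical in
/-- the retraction -/
noncomputable def rF (q : ℝ × (Fin n1 → ℝ) × (Fin n2 → ℝ) × ℝ) : Xt T1 T2 :=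
  if 0 < q.1 then mkw (r1 (q.1⁻¹ • q.2.1)) (r2 (q.1⁻¹ • q.2.2.1)) (q.1⁻¹ * q.2.2.2)
    (q.1 / max q.1 (kq r1 r2 q)) else ∞

lemma kh_rF_le (q : ℝ × (Fin n1 → ℝ) × (Fin n2 → ℝ) × ℝ) : kh (rF r1 r2 q) ≤ √q.1 := by
  unfold rF
  split_ifs with h
  · have hs : 0 < √q.1 := Real.sqrt_pos.2 h
    rcases le_or_gt (kq r1 r2 q) (√q.1) with h1 | h1
    · exact (kh_mk_mono _ _ _ _).trans h1
    · refine (kh_mk_le _ _ _ _).2.2.2.2.trans ?_
      have hm : 0 < max q.1 (kq r1 r2 q) := lt_max_of_lt_left h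
      rw [max_eq_left (div_nonneg h.le hm.le), div_le_iff₀ hm]
      calc q.1 = √q.1 * √q.1 := (Real.mul_self_sqrt h.le).symm
        _ ≤ √q.1 * max q.1 (kq r1 r2 q) :=
          mul_le_mul_of_nonneg_left (h1.le.trans (le_max_right _ _)) hs.le
  · simp

lemma continuous_rF (hr1 : Continuous r1) (hr2 : Continuous r2) : Continuous (rF r1 r2) := by
  rw [continuous_iff_continuousAt]
  intro q
  by_cases h : 0 < q.1
  · have e : ∀ᶠ q' : ℝ × (Fin n1 → ℝ) × (Fin n2 → ℝ) × ℝ in 𝓝 q,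
        mkw (r1 (q'.1⁻¹ • q'.2.1)) (r2 (q'.1⁻¹ • q'.2.2.1)) (q'.1⁻¹ * q'.2.2.2)
          (q'.1 / max q'.1 (kq r1 r2 q')) = rF r1 r2 q' := by
      filter_upwards [(isOpen_lt continuous_const continuous_fst).mem_nhds h] with q' hq'
      exact (if_pos hq').symm
    refine ContinuousAt.congr ?_ e
    have c0 : ContinuousAt (fun q : ℝ × (Fin n1 → ℝ) × (Fin n2 → ℝ) × ℝ => q.1⁻¹) q :=
      continuousAt_fst.inv₀ h.ne'
    have c1 : ContinuousAt (fun q : ℝ × (Fin n1 → ℝ) × (Fin n2 → ℝ) × ℝ => r1 (q.1⁻¹ • q.2.1)) q :=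
      hr1.continuousAt.comp (c0.smul (continuous_fst.comp continuous_snd).continuousAt)
    have c2 : ContinuousAt (fun q : ℝ × (Fin n1 → ℝ) × (Fin n2 → ℝ) × ℝ => r2 (q.1⁻¹ • q.2.2.1)) q :=
      hr2.continuousAt.comp (c0.smul
        (continuous_fst.comp (continuous_snd.comp continuous_snd)).continuousAt)
    have c3 : ContinuousAt (fun q : ℝ × (Fin n1 → ℝ) × (Fin n2 → ℝ) × ℝ => q.1⁻¹ * q.2.2.2) q :=
      c0.mul (continuous_snd.comp (continuous_snd.comp continuous_snd)).continuousAt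
    have c4 : ContinuousAt (kq r1 r2) q := by
      unfold kq
      exact ContinuousAt.comp (f := fun q : ℝ × (Fin n1 → ℝ) × (Fin n2 → ℝ) × ℝ =>
        mkw (r1 (q.1⁻¹ • q.2.1)) (r2 (q.1⁻¹ • q.2.2.1)) (q.1⁻¹ * q.2.2.2) 1)
        continuous_kh.continuousAt
        (ContinuousAt.comp (f := fun q : ℝ × (Fin n1 → ℝ) × (Fin n2 → ℝ) × ℝ =>
          (r1 (q.1⁻¹ • q.2.1), r2 (q.1⁻¹ • q.2.2.1), q.1⁻¹ * q.2.2.2, (1 : ℝ)))
          (continuous_mk (T1 := T1) (T2 := T2)).continuousAt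
          (c1.prodMk (c2.prodMk (c3.prodMk continuousAt_const))))
    have c5 : ContinuousAt (fun q : ℝ × (Fin n1 → ℝ) × (Fin n2 → ℝ) × ℝ =>
        q.1 / max q.1 (kq r1 r2 q)) q := by
      apply continuousAt_fst.div (continuousAt_fst.max c4)
      exact (lt_max_of_lt_left h).ne'
    exact ContinuousAt.comp (f := fun q : ℝ × (Fin n1 → ℝ) × (Fin n2 → ℝ) × ℝ =>
      (r1 (q.1⁻¹ • q.2.1), r2 (q.1⁻¹ • q.2.2.1), q.1⁻¹ * q.2.2.2, q.1 / max q.1 (kq r1 r2 q)))
      (continuous_mk (T1 := T1) (T2 := T2)).continuousAt (c1.prodMk (c2.prodMk (c3.prodMk c5)))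
  · have hq : rF r1 r2 q = ∞ := if_neg h
    apply continuousAt_of_infty hq
    have h1 : Tendsto (fun q : ℝ × (Fin n1 → ℝ) × (Fin n2 → ℝ) × ℝ => √q.1) (𝓝 q) (𝓝 0) := by
      have : ContinuousAt (fun q : ℝ × (Fin n1 → ℝ) × (Fin n2 → ℝ) × ℝ => √q.1) q :=
        (Real.continuous_sqrt.comp continuous_fst).continuousAt
      rwa [ContinuousAt, Real.sqrt_eq_zero_of_nonpos (not_lt.1 h)] at this
    exact squeeze_zero (fun _ => kh_nonneg _) (kh_rF_le r1 r2) h1

lemma rF_iF (h1 : ∀ x, r1 (i1 x) = x) (h2 : ∀ x, r2 (i2 x) = x) (x : Xt T1 T2) :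
    rF r1 r2 (iF i1 i2 x) = x := by
  induction x using OnePoint.rec with
  | infty =>
    rw [iF_infty]
    unfold rF
    simp
  | coe w =>
    have h0 := kap_pos w
    rw [iF_coe]
    have e1 : (kap w)⁻¹ • (kap w • i1 w.1.1) = i1 w.1.1 := inv_smul_smul₀ h0.ne' _
    have e2 : (kap w)⁻¹ • (kap w • i2 w.1.2.1) = i2 w.1.2.1 := inv_smul_smul₀ h0.ne' _
    have e3 : (kap w)⁻¹ * (kap w * w.1.2.2) = w.1.2.2 := inv_mul_cancel_left₀ h0.ne' _
    have ek : kq r1 r2 (kap w, kap w • i1 w.1.1, kap w • i2 w.1.2.1, kap w * w.1.2.2) = kap w := by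
      unfold kq
      simp only
      rw [e1, e2, e3, h1, h2, mk_self, kh_coe]
    unfold rF
    rw [if_pos h0, ek]
    simp only
    rw [e1, e2, e3, h1, h2, max_self, div_self h0.ne', mk_self]

end

/-- The compactification is a Euclidean retract. -/
theorem xt_retract {n1 n2 : ℕ} (i1 : T1.TH → (Fin n1 → ℝ)) (r1 : (Fin n1 → ℝ) → T1.TH)
    (i2 : T2.TH → (Fin n2 → ℝ)) (r2 : (Fin n2 → ℝ) → T2.TH)
    (hi1 : Continuous i1) (hr1 : Continuous r1) (h1 : ∀ x, r1 (i1 x) = x)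
    (hi2 : Continuous i2) (hr2 : Continuous r2) (h2 : ∀ x, r2 (i2 x) = x) :
    ∃ (n : ℕ) (i : Xt T1 T2 → EuclideanSpace ℝ (Fin n))
      (r : EuclideanSpace ℝ (Fin n) → Xt T1 T2), Continuous i ∧ Continuous r ∧ ∀ x, r (i x) = x := by
  let e := toEuclidean (E := ℝ × (Fin n1 → ℝ) × (Fin n2 → ℝ) × ℝ)
  refine ⟨_, fun x => e (iF i1 i2 x), fun v => rF r1 r2 (e.symm v), ?_, ?_, ?_⟩
  · exact e.continuous.comp (continuous_iF i1 i2 hi1 hi2)
  · exact (continuous_rF r1 r2 hr1 hr2).comp e.symm.continuous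
  · intro x
    simp only [ContinuousLinearEquiv.symm_apply_apply]
    exact rF_iF i1 r1 i2 r2 h1 h2 x

end RTree

end Pool.Agent.Helper68.BB
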