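import Mathlib

/-!
Definitions: Euclidean retracts, Z-sets, Z-structures, Bestvina boundaries.
-/

namespace Pool.Agent.Helper68.BB

open Set Topology

/-- `X` is compact and embeds in some `ℝ^n` as a retract. -/
def EuclideanRetract (X : Type) [TopologicalSpace X] : Prop :=
  CompactSpace X ∧ ∃ (n : ℕ) (i : X → EuclideanSpace ℝ (Fin n))
    (r : EuclideanSpace ℝ (Fin n) → X), IsEmbedding i ∧ Continuous r ∧ ∀ x, r (i x) = x

/-- `Z` is compact and metrizable and for every open `U` the inclusion `U \ Z → U` is a homotopy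
equivalence. -/
def IsZSet {X : Type} [TopologicalSpace X] (Z : Set X) : Prop :=
  IsCompact Z ∧ TopologicalSpace.MetrizableSpace ↥Z ∧
  ∀ U : Set X, IsOpen U → ∃ e : ContinuousMap.HomotopyEquiv ↥(U \ Z) ↥U,
    ∀ x : ↥(U \ Z), ((e x : ↥U) : X) = (x : X)

/-- `(X, Z)` together with an action of `G` on the complement of `Z` is a Z-structure on `G`. -/
structure IsZStructure (G : Type) [Group G] (X : Type) [MetricSpace X] (Z : Set X)
    [MulAction G ↥(Zᶜ)] : Prop where
  /-- `X` is a Euclidean retract -/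
  retract : EuclideanRetract X
  /-- `Z` is a Z-set -/
  zset : IsZSet Z
  /-- the action is by homeomorphisms -/
  cont : ∀ g : G, Continuous fun x : ↥(Zᶜ) => g • x
  /-- the action is a covering space action -/
  covering : ∀ x : ↥(Zᶜ), ∃ U : Set ↥(Zᶜ), IsOpen U ∧ x ∈ U ∧
    ∀ g : G, g ≠ 1 → ∀ y ∈ U, g • y ∉ U
  /-- the quotient is compact -/
  cocompact : CompactSpace (MulAction.orbitRel.Quotient G ↥(Zᶜ))
  /-- the translates of a compact set form a null sequence -/
  null : ∀ K : Set ↥(Zᶜ), IsCompact K → ∀ ε : ℝ, 0 < ε →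
    {g : G | ε < Metric.diam ((fun x : ↥(Zᶜ) => ((g • x : ↥(Zᶜ)) : X)) '' K)}.Finite

/-- `B` is a Bestvina boundary (Z-structure boundary) of `G`. -/
def IsBestvinaBoundary (G : Type) [Group G] (B : Type) [TopologicalSpace B] : Prop :=
  ∃ (X : Type) (_ : MetricSpace X) (Z : Set X) (_ : MulAction G ↥(Zᶜ)),
    IsZStructure G X Z ∧ Nonempty (B ≃ₜ ↥Z)

end Pool.Agent.Helper68.BB
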