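import Mathlib
import Pool.Agent.Helper68.BB.ZDefs
import Pool.Agent.Helper68.BB.Null
import Pool.Agent.Helper68.BB.Retract
import Pool.Agent.Helper68.BB.ER
import Pool.Agent.Helper68.BB.En

/-!
The product of two trees with good actions has the expected Bestvina boundary.
-/

namespace Pool.Agent.Helper68.BB

open Set Filter Topology OnePoint

namespace RTree

variable {V1 V2 : Type} {T1 : RTree V1} {T2 : RTree V2}

/-- retraction onto a compactified tree which embeds -/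
lemma exists_ret {V : Type} (T : RTree V)
    (h : ∃ (n : ℕ) (i : T.TH → (Fin n → ℝ)), Continuous i ∧ Function.Injective i) :
    ∃ (n : ℕ) (i : T.TH → (Fin n → ℝ)) (r : (Fin n → ℝ) → T.TH), Continuous i ∧ Continuous r ∧
      ∀ x, r (i x) = x := by
  obtain ⟨n, i, hi, hinj⟩ := h
  have he : IsClosedEmbedding i := hi.isClosedEmbedding hinj
  haveI : TopologicalSpace.MetrizableSpace T.TH := he.isEmbedding.metrizableSpace
  letI : MetricSpace T.TH := TopologicalSpace.metrizableSpaceMetric T.TH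
  haveI : Nonempty T.TH := ⟨rt T⟩
  obtain ⟨r, hr, hri⟩ := exists_retraction i hi hinj lam continuous_lam lam_zero lam_one
    (fun x t _ => lam_self x t)
  exact ⟨n, i, r, hi, hr, hri⟩

/-- inclusion of the product of the trees in `W` -/
noncomputable def jW (q : ↥(Fi T1) × ↥(Fi T2)) : W T1 T2 :=
  ⟨(q.1.1, q.2.1, phJ (Ht q.1.1) (Ht q.2.1)), J_mem q.1.2 q.2.2⟩

lemma continuous_jW : Continuous (jW (T1 := T1) (T2 := T2)) := by
  refine Continuous.subtype_mk ?_ _
  have h1 : Continuous fun q : ↥(Fi T1) × ↥(Fi T2) => hh q.1.1 := continuous_hh.comp continuous_fst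
  have h2 : Continuous fun q : ↥(Fi T1) × ↥(Fi T2) => hh q.2.1 := continuous_hh.comp continuous_snd
  have h3 : (fun q : ↥(Fi T1) × ↥(Fi T2) => phJ (Ht q.1.1) (Ht q.2.1)) =
      fun q => hh q.1.1 / (hh q.1.1 + hh q.2.1) := by
    ext q
    exact phJ_hh q.1.2 q.2.2
  have h4 : Continuous (fun q : ↥(Fi T1) × ↥(Fi T2) => phJ (Ht q.1.1) (Ht q.2.1)) := by
    rw [h3]
    refine h1.div (h1.add h2) fun q => ?_
    have := hh_pos q.1.2
    have := hh_pos q.2.2
    positivity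
  exact (continuous_subtype_val.comp continuous_fst).prodMk
    ((continuous_subtype_val.comp continuous_snd).prodMk h4)

lemma isEmbedding_jW : IsEmbedding (jW (T1 := T1) (T2 := T2)) := by
  have hg : Continuous fun w : W T1 T2 => (w.1.1, w.1.2.1) :=
    (continuous_fst.comp continuous_subtype_val).prodMk
      (continuous_fst.comp (continuous_snd.comp continuous_subtype_val))
  refine IsEmbedding.of_comp continuous_jW hg ?_
  exact (IsEmbedding.subtypeVal (p := (· ∈ Fi T1))).prodMap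
    (IsEmbedding.subtypeVal (p := (· ∈ Fi T2)))

/-- inclusion of the product of the trees -/
noncomputable def jX (q : ↥(Fi T1) × ↥(Fi T2)) : Xt T1 T2 := ((jW q : W T1 T2) : Xt T1 T2)

lemma jX_eq (q : ↥(Fi T1) × ↥(Fi T2)) : jX q = J q.1.1 q.2.1 := (J_good q.1.2 q.2.2).symm

lemma isEmbedding_jX : IsEmbedding (jX (T1 := T1) (T2 := T2)) :=
  OnePoint.isOpenEmbedding_coe.isEmbedding.comp isEmbedding_jW

lemma range_jX : range (jX (T1 := T1) (T2 := T2)) = (Zb T1 T2)ᶜ := by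
  ext z
  constructor
  · rintro ⟨q, rfl⟩
    rw [jX_eq]
    exact J_notMem q.1.2 q.2.2
  · intro hz
    induction z using OnePoint.rec with
    | infty => exact absurd infty_mem_Zb hz
    | coe w =>
      have hw : Ht w.1.1 ≠ 1 := fun h => hz (coe_mem_Zb.2 h)
      obtain ⟨⟨x, y, φ⟩, w1, w2, w3, w4, w5⟩ := w
      simp only at w1 w2 w3 w4 w5 hw
      have hx : Ht x < 1 := lt_of_le_of_ne (Ht_le_one x) hw
      have hy : Ht y < 1 := by
        refine lt_of_le_of_ne (Ht_le_one y) ?_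
        intro h
        rw [h] at w5
        have h0 : 0 < 1 - Ht x := by linarith
        have : 0 < φ * 1 * (1 - Ht x) := by positivity
        linarith
      refine ⟨(⟨x, w1, hx⟩, ⟨y, w2, hy⟩), ?_⟩
      unfold jX jW
      congr 1
      apply Subtype.ext
      show (x, y, phJ (Ht x) (Ht y)) = (x, y, φ)
      rw [phJ_eq (Ht_pos w1) hx (Ht_pos w2) hy w5]

variable (T1 T2) in
/-- the product of the trees is the complement of the boundary -/
noncomputable def eX : ↥(Fi T1) × ↥(Fi T2) ≃ₜ ↥((Zb T1 T2)ᶜ) :=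
  (isEmbedding_jX (T1 := T1) (T2 := T2)).toHomeomorph.trans (Homeomorph.setCongr range_jX)

lemma eX_coe (q : ↥(Fi T1) × ↥(Fi T2)) : ((eX T1 T2 q : ↥((Zb T1 T2)ᶜ)) : Xt T1 T2) = jX q := rfl

lemma isOpen_compl_Zb : IsOpen ((Zb T1 T2)ᶜ) := by
  have h : (Zb T1 T2)ᶜ = ((↑) : W T1 T2 → Xt T1 T2) '' {w | Ht w.1.1 < 1} := by
    ext z
    constructor
    · intro hz
      rw [← range_jX] at hz
      obtain ⟨q, rfl⟩ := hz
      exact ⟨jW q, q.1.2.2, rfl⟩
    · rintro ⟨w, hw, rfl⟩ hz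
      exact (ne_of_lt hw) (coe_mem_Zb.1 hz)
  rw [h]
  apply OnePoint.isOpenMap_coe
  rw [isOpen_iff_mem_nhds]
  intro w hw
  have : ContinuousAt (fun w : W T1 T2 => Ht w.1.1) w :=
    ContinuousAt.comp (f := fun w : W T1 T2 => w.1.1) (continuousAt_Ht w.2.1)
      (continuous_fst.comp continuous_subtype_val).continuousAt
  exact this.eventually (gt_mem_nhds hw)

lemma isCompact_Zb : IsCompact (Zb T1 T2) := by
  have := (isOpen_compl_Zb (T1 := T1) (T2 := T2)).isClosed_compl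
  rw [compl_compl] at this
  exact this.isCompact

/-- inclusion of the products of ends -/
noncomputable def bW (q : ↥(En T1) × ↥(En T2) × ↥(Ioo (0 : ℝ) 1)) : W T1 T2 :=
  ⟨(q.1.1, q.2.1.1, q.2.2.1), q.1.2.1, q.2.1.2.1, q.2.2.2.1, q.2.2.2.2, by
    simp only
    rw [q.1.2.2, q.2.1.2.2]; ring⟩

lemma continuous_bW : Continuous (bW (T1 := T1) (T2 := T2)) := by
  refine Continuous.subtype_mk ?_ _
  exact (continuous_subtype_val.comp continuous_fst).prodMk
    ((continuous_subtype_val.comp (continuous_fst.comp continuous_snd)).prodMk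
    (continuous_subtype_val.comp (continuous_snd.comp continuous_snd)))

lemma isEmbedding_bW : IsEmbedding (bW (T1 := T1) (T2 := T2)) := by
  refine IsEmbedding.of_comp continuous_bW continuous_subtype_val ?_
  exact (IsEmbedding.subtypeVal (p := (· ∈ En T1))).prodMap
    ((IsEmbedding.subtypeVal (p := (· ∈ En T2))).prodMap
    (IsEmbedding.subtypeVal (p := (· ∈ Ioo (0 : ℝ) 1))))

/-- inclusion of the products of ends in the boundary -/
noncomputable def bZ (q : ↥(En T1) × ↥(En T2) × ↥(Ioo (0 : ℝ) 1)) : ↥(Zb T1 T2) :=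
  ⟨((bW q : W T1 T2) : Xt T1 T2), coe_mem_Zb.2 q.1.2.2⟩

lemma isEmbedding_bZ : IsEmbedding (bZ (T1 := T1) (T2 := T2)) := by
  have h : IsEmbedding (fun q : ↥(En T1) × ↥(En T2) × ↥(Ioo (0 : ℝ) 1) =>
      ((bW q : W T1 T2) : Xt T1 T2)) :=
    OnePoint.isOpenEmbedding_coe.isEmbedding.comp isEmbedding_bW
  refine IsEmbedding.of_comp (h.continuous.subtype_mk _) continuous_subtype_val ?_
  exact h

lemma range_bZ : range (bZ (T1 := T1) (T2 := T2)) = {⟨∞, infty_mem_Zb⟩}ᶜ := by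
  ext z
  constructor
  · rintro ⟨q, rfl⟩ h
    exact OnePoint.coe_ne_infty _ (congrArg Subtype.val h)
  · obtain ⟨z, hz⟩ := z
    intro h
    induction z using OnePoint.rec with
    | infty => exact absurd rfl h
    | coe w =>
      have h1 : Ht w.1.1 = 1 := coe_mem_Zb.1 hz
      obtain ⟨⟨x, y, φ⟩, w1, w2, w3, w4, w5⟩ := w
      simp only at w1 w2 w3 w4 w5 h1
      have h2 : Ht y = 1 := by
        rw [h1, mul_one, sub_self, mul_zero] at w5
        have h0 : (1 - φ) ≠ 0 := by linarith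
        have := (mul_eq_zero.1 w5).resolve_left h0
        linarith
      exact ⟨(⟨x, w1, h1⟩, ⟨y, w2, h2⟩, ⟨φ, w3, w4⟩), rfl⟩

variable (T1 T2) in
/-- the boundary -/
theorem boundary_homeo :
    Nonempty (OnePoint (↥(En T1) × ↥(En T2) × ↥(Ioo (0 : ℝ) 1)) ≃ₜ ↥(Zb T1 T2)) := by
  haveI : CompactSpace ↥(Zb T1 T2) := isCompact_iff_compactSpace.1 isCompact_Zb
  exact ⟨OnePoint.equivOfIsEmbeddingOfRangeEq ⟨∞, infty_mem_Zb⟩ bZ isEmbedding_bZ range_bZ⟩

section

variable {Γ1 Γ2 : Type} [Group Γ1] [Group Γ2]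

/-- transported product action -/
noncomputable def actX [MulAction Γ1 ↥(Fi T1)] [MulAction Γ2 ↥(Fi T2)] :
    MulAction (Γ1 × Γ2) ↥((Zb T1 T2)ᶜ) where
  smul γ z := eX T1 T2 (γ.1 • ((eX T1 T2).symm z).1, γ.2 • ((eX T1 T2).symm z).2)
  one_smul z := by
    show eX T1 T2 ((1 : Γ1) • ((eX T1 T2).symm z).1, (1 : Γ2) • ((eX T1 T2).symm z).2) = z
    rw [one_smul, one_smul]
    simp
  mul_smul γ γ' z := by
    show eX T1 T2 ((γ.1 * γ'.1) • ((eX T1 T2).symm z).1, (γ.2 * γ'.2) • ((eX T1 T2).symm z).2) =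
      eX T1 T2 (γ.1 • ((eX T1 T2).symm (eX T1 T2 (γ'.1 • ((eX T1 T2).symm z).1,
        γ'.2 • ((eX T1 T2).symm z).2))).1, γ.2 • ((eX T1 T2).symm (eX T1 T2
        (γ'.1 • ((eX T1 T2).symm z).1, γ'.2 • ((eX T1 T2).symm z).2))).2)
    rw [Homeomorph.symm_apply_apply, mul_smul, mul_smul]

variable [MulAction Γ1 ↥(Fi T1)] [MulAction Γ2 ↥(Fi T2)]

theorem bestvina_prod (h1 : GoodAction Γ1 T1) (h2 : GoodAction Γ2 T2)
    (e1 : ∃ (n : ℕ) (i : T1.TH → (Fin n → ℝ)), Continuous i ∧ Function.Injective i)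
    (e2 : ∃ (n : ℕ) (i : T2.TH → (Fin n → ℝ)), Continuous i ∧ Function.Injective i) :
    IsBestvinaBoundary (Γ1 × Γ2) (OnePoint (↥(En T1) × ↥(En T2) × ↥(Ioo (0 : ℝ) 1))) := by
  obtain ⟨n1, i1, r1, hi1, hr1, hri1⟩ := exists_ret T1 e1
  obtain ⟨n2, i2, r2, hi2, hr2, hri2⟩ := exists_ret T2 e2
  obtain ⟨n, i, r, hi, hr, hri⟩ := xt_retract i1 r1 i2 r2 hi1 hr1 hri1 hi2 hr2 hri2
  have hinj : Function.Injective i := Function.LeftInverse.injective hri
  have hemb : IsEmbedding i := (hi.isClosedEmbedding hinj).isEmbedding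
  haveI : TopologicalSpace.MetrizableSpace (Xt T1 T2) := hemb.metrizableSpace
  letI : MetricSpace (Xt T1 T2) := TopologicalSpace.metrizableSpaceMetric (Xt T1 T2)
  letI act : MulAction (Γ1 × Γ2) ↥((Zb T1 T2)ᶜ) := actX
  have act_def : ∀ (γ : Γ1 × Γ2) (z : ↥((Zb T1 T2)ᶜ)),
      γ • z = eX T1 T2 (γ.1 • ((eX T1 T2).symm z).1, γ.2 • ((eX T1 T2).symm z).2) := fun _ _ => rfl
  refine ⟨Xt T1 T2, inferInstance, Zb T1 T2, act, ?_, boundary_homeo T1 T2⟩
  have hcont : ∀ γ : Γ1 × Γ2, Continuous fun z : ↥((Zb T1 T2)ᶜ) => γ • z := by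
    intro γ
    have c : Continuous fun z : ↥((Zb T1 T2)ᶜ) =>
        (γ.1 • ((eX T1 T2).symm z).1, γ.2 • ((eX T1 T2).symm z).2) :=
      ((h1.cont γ.1).comp (continuous_fst.comp (eX T1 T2).symm.continuous)).prodMk
        ((h2.cont γ.2).comp (continuous_snd.comp (eX T1 T2).symm.continuous))
    exact (eX T1 T2).continuous.comp c
  constructor
  · exact ⟨inferInstance, n, i, r, hemb, hr, hri⟩
  · refine ⟨isCompact_Zb, inferInstance, fun U hU => ?_⟩
    haveI : Nonempty (Xt T1 T2) := ⟨∞⟩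
    exact zset_of_homotopy HH continuous_HH HH_zero (fun x t ht _ => HH_notMem x t ht) U hU
  · exact hcont
  · intro z
    obtain ⟨U1, hU1, hz1, hc1⟩ := h1.cov ((eX T1 T2).symm z).1
    obtain ⟨U2, hU2, hz2, hc2⟩ := h2.cov ((eX T1 T2).symm z).2
    refine ⟨(eX T1 T2).symm ⁻¹' (U1 ×ˢ U2), (hU1.prod hU2).preimage (eX T1 T2).symm.continuous,
      ⟨hz1, hz2⟩, ?_⟩
    rintro γ hγ z' ⟨hy1, hy2⟩ ⟨hg1, hg2⟩
    rw [act_def, Homeomorph.symm_apply_apply] at hg1 hg2
    by_cases g1 : γ.1 = 1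
    · by_cases g2 : γ.2 = 1
      · exact hγ (Prod.ext g1 g2)
      · exact hc2 γ.2 g2 _ hy2 hg2
    · exact hc1 γ.1 g1 _ hy1 hg1
  · obtain ⟨K1, hK1, hK1'⟩ := h1.cocpt
    obtain ⟨K2, hK2, hK2'⟩ := h2.cocpt
    refine ⟨?_⟩
    have hK : IsCompact ((fun q => (Quotient.mk _ (eX T1 T2 q) :
        MulAction.orbitRel.Quotient (Γ1 × Γ2) ↥((Zb T1 T2)ᶜ))) '' (K1 ×ˢ K2)) := by
      apply (hK1.prod hK2).image
      exact continuous_quotient_mk'.comp (eX T1 T2).continuous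
    convert hK
    symm
    rw [eq_univ_iff_forall]
    intro z
    induction z using Quotient.inductionOn with
    | h z =>
      obtain ⟨γ1, hγ1⟩ := hK1' ((eX T1 T2).symm z).1
      obtain ⟨γ2, hγ2⟩ := hK2' ((eX T1 T2).symm z).2
      refine ⟨(γ1 • ((eX T1 T2).symm z).1, γ2 • ((eX T1 T2).symm z).2), ⟨hγ1, hγ2⟩, ?_⟩
      apply Quotient.sound
      exact ⟨(γ1, γ2), rfl⟩
  · intro K hK ε hε
    have hK' : IsCompact ((eX T1 T2).symm '' K) := hK.image (eX T1 T2).symm.continuous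
    have := null_of_family (fun (i : Idx V1 V2) => ext (fun w : W T1 T2 => fam i w.1))
      (fun i => continuous_ext_fam i) fam_sep
      (fun γ : Γ1 × Γ2 => Jt γ '' ((eX T1 T2).symm '' K))
      (fun i ε hε => null_prod h1 h2 hK' i hε) ε hε
    refine this.subset ?_
    intro γ hγ
    have e : (fun x : ↥((Zb T1 T2)ᶜ) => ((γ • x : ↥((Zb T1 T2)ᶜ)) : Xt T1 T2)) '' K =
        Jt γ '' ((eX T1 T2).symm '' K) := by
      rw [image_image]
      apply image_congr
      intro z _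
      rw [act_def, eX_coe, jX_eq]
      rfl
    show ε < Metric.diam (Jt γ '' ((eX T1 T2).symm '' K))
    rw [← e]
    exact hγ

end

end RTree

end Pool.Agent.Helper68.BB
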